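import Pool.Agent.N126.IS.Final
import Pool.Agent.N319.IS.SPEC
import Pool.Agent.N157.IS.LIN
import Pool.Agent.N738.IS.CNT
import Pool.Agent.N383.IS.FAM
import Pool.Agent.N697.IS.GEN

/-!
Inverse images under power maps: all parts together.
-/

set_option autoImplicit false

open FF MvPolynomial Pool.Agent.W602.GT LinearAlgebra.Projectivization

namespace Pool.Agent.N126.IS

theorem fam_all : S_FAM :=
  Pool.Agent.N383.IS.main_FAM Pool.Agent.N319.IS.main_SPEC Pool.Agent.N157.IS.main_LIN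
    Pool.Agent.N738.IS.main_CNT

theorem gen_all : S_GEN := Pool.Agent.N697.IS.main_GEN main_MAIN fam_all

/-- The closed subset of the `x` with `F (x 0 ^ m, …, x n ^ m) = 0`. -/
noncomputable def Pre {K : Type} [Field K] {n : ℕ} {ι : Type} (m : ℕ)
    (F : ι → MvPolynomial (Fin (n + 1)) K) : ι → MvPolynomial (Fin (n + 1)) K :=
  fun i => expand m (F i)

theorem equiv_all {k K : Type} [Field k] [IsAlgClosed k] [CharZero k] [Field K] [IsAlgClosed K]
    [Algebra k K] (htr : Algebra.trdeg k K = 1) {n m D : ℕ} {ι κ : Type} [Finite κ]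
    {T : Finset (Fin (n + 1) →₀ ℕ)} {F : ι → MvPolynomial (Fin (n + 1)) K}
    {G : κ → MvPolynomial (Fin (n + 1)) K} (hF : ∀ i, (F i).IsHomogeneous D)
    (hT : ∀ i, (F i).support ⊆ T) (hG : ∀ j, IsForm (G j)) (hm : bound n T.card < m) :
    FinPts k (Off (Pre m F) G) ↔ FinTrans k (Off (Pre m F) G) :=
  ⟨trans_of_pts, main_MAIN k K htr n m D ι κ T F G hF hT hG hm⟩

theorem outside_all {k K : Type} [Field k] [Field K] [CharZero K] [IsAlgClosed K]
    [Algebra k K] {n m D : ℕ} {ι κ : Type}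
    {T : Finset (Fin (n + 1) →₀ ℕ)} {F : ι → MvPolynomial (Fin (n + 1)) K}
    {G : κ → MvPolynomial (Fin (n + 1)) K} (hF : ∀ i, (F i).IsHomogeneous D)
    (hT : ∀ i, (F i).support ⊆ T) (hG : ∀ j, IsForm (G j)) (hm : bound n T.card < m)
    (h : FinPts k (Off (Pre m F) G)) {L : Type} [Field L] [Algebra K L] {w : ℕ}
    {y : Fin (n + 1) → L} (hw : 1 ≤ w) (hy : SubVar (Pre m F) L w y) {j : κ}
    (hj : val y (G j) ≠ 0) : PseudoMordellic K y ∧ GeneralType K L w :=
  lang_outside (highPowers_expand hF hT m) (Nat.one_le_iff_ne_zero.2 (Nat.ne_zero_of_lt hm))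
    (bound_tn hm) hG h hw hy hj

theorem generic_all {K : Type} [Field K] [CharZero K] [IsAlgClosed K] (k0 : Subfield K)
    {n m D : ℕ} (hD : 2 * n ≤ D) {F : MvPolynomial (Fin (n + 1)) K} (hF : F.IsHomogeneous D)
    (hg : AlgebraicIndependent k0 (fun I : {I : Fin (n + 1) →₀ ℕ // I.degree = D} =>
      F.coeff I.1)) (hm : bound n (Nat.choose (n + D) n) < m) :
    FinPts k0 (Cone (Pre m fun _ : Unit => F)) ∧ Mordellic (Pre m fun _ : Unit => F) ∧
      AllGeneralType (Pre m fun _ : Unit => F) := by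
  have h1 : FinPts k0 (Cone (Pre m fun _ : Unit => F)) := gen_all K k0 n m D hD F hF hg hm
  refine ⟨h1, ?_⟩
  have hT : ∀ _ : Unit, F.support ⊆ Pool.Agent.N697.IS.expT n D := by
    intro _ I hI
    rw [Pool.Agent.N697.IS.mem_expT]
    have h2 := hF (mem_support_iff.1 hI)
    rw [Finsupp.degree_eq_weight_one]
    exact h2
  have hm' : bound n (Pool.Agent.N697.IS.expT n D).card < m := by
    rw [Pool.Agent.N697.IS.card_expT]
    exact hm
  exact lang_all (k := k0) (highPowers_expand (fun _ : Unit => hF) hT m)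
    (Nat.one_le_iff_ne_zero.2 (Nat.ne_zero_of_lt hm)) (bound_tn hm') h1

end Pool.Agent.N126.IS
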