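import Pool.Agent.N126.IS.Defs
import Pool.Agent.W602.GT.Orb

/-!
Orbits of one-parameter groups contain infinitely many translates of constant points.
-/

set_option autoImplicit false

open Pool.Agent.W602.GT LinearAlgebra.Projectivization

namespace Pool.Agent.N126.IS

variable {n : ℕ} {ι κ : Type} {k L : Type} [Field k] [Field L] [Algebra k L]

/-- the value at `t ^ b * f`, as a sum of powers of `t` -/
theorem val_act (f : Fin (n + 1) → L) (b : Fin (n + 1) → ℤ) {t : L} (ht : t ≠ 0)
    (G : MvPolynomial (Fin (n + 1)) L) :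
    val (fun j => t ^ b j * f j) G =
      ∑ α ∈ G.support, t ^ (∑ j, (α j : ℤ) * b j) * (G.coeff α * ∏ j, f j ^ α j) := by
  classical
  rw [val_eq_sum]
  refine Finset.sum_congr rfl fun α _ => ?_
  have h2 : t ^ (∑ j, (α j : ℤ) * b j) = ∏ j, (t ^ b j) ^ α j := by
    have h3 : ∀ s : Finset (Fin (n + 1)), t ^ (∑ j ∈ s, (α j : ℤ) * b j) =
        ∏ j ∈ s, (t ^ b j) ^ α j := by
      intro s
      induction s using Finset.induction_on with
      | empty => simp
      | insert a s ha ih =>
        rw [Finset.sum_insert ha, Finset.prod_insert ha, zpow_add₀ ht, ih, mul_comm (α a : ℤ),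
          zpow_mul, zpow_natCast]
    exact h3 _
  rw [h2]
  simp only [mul_pow, Finset.prod_mul_distrib]
  rw [show algebraMap L L (G.coeff α) = G.coeff α from rfl]
  ring

/-- almost all points of an orbit are not in a closed subset -/
theorem bad_finite (b : Fin (n + 1) → ℤ) (f : Fin (n + 1) → L)
    (G : MvPolynomial (Fin (n + 1)) L) (h : val f G ≠ 0) :
    {z : k | z ≠ 0 ∧ val (fun j => algebraMap k L z ^ b j * f j) G = 0}.Finite := by
  classical
  set N : ℕ := ∑ α ∈ G.support, ∑ j, α j * (b j).natAbs with hN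
  have hpos : ∀ α ∈ G.support, 0 ≤ (∑ j, (α j : ℤ) * b j) + N := by
    intro α hα
    have h1 : ∑ j, α j * (b j).natAbs ≤ N :=
      Finset.single_le_sum (f := fun α : Fin (n + 1) →₀ ℕ => ∑ j, α j * (b j).natAbs)
        (fun _ _ => Nat.zero_le _) hα
    have h2 : -((∑ j, α j * (b j).natAbs : ℕ) : ℤ) ≤ ∑ j, (α j : ℤ) * b j := by
      push_cast
      rw [← Finset.sum_neg_distrib]
      refine Finset.sum_le_sum fun j _ => ?_
      have h3 : -|b j| ≤ b j := neg_abs_le _
      have h4 : (0 : ℤ) ≤ α j := Int.natCast_nonneg _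
      nlinarith
    have h5 : ((∑ j, α j * (b j).natAbs : ℕ) : ℤ) ≤ N := by exact_mod_cast h1
    linarith
  let Q : Polynomial L := ∑ α ∈ G.support,
    Polynomial.C (G.coeff α * ∏ j, f j ^ α j) *
      Polynomial.X ^ ((∑ j, (α j : ℤ) * b j) + N).toNat
  have hQ : ∀ t : L, t ≠ 0 → Q.eval t = t ^ N * val (fun j => t ^ b j * f j) G := by
    intro t ht
    rw [val_act f b ht, Finset.mul_sum]
    simp only [Q]
    rw [Polynomial.eval_finsetSum]
    refine Finset.sum_congr rfl fun α hα => ?_
    rw [Polynomial.eval_mul, Polynomial.eval_C, Polynomial.eval_pow, Polynomial.eval_X,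
      ← zpow_natCast t (Int.toNat _), Int.toNat_of_nonneg (hpos α hα), zpow_add₀ ht,
      zpow_natCast]
    ring
  have hQ0 : Q ≠ 0 := by
    intro h0
    have h1 := hQ 1 one_ne_zero
    rw [h0, Polynomial.eval_zero] at h1
    simp only [one_pow, one_zpow, one_mul] at h1
    exact h h1.symm
  refine ((Q.roots.toFinset.finite_toSet).preimage
    ((algebraMap k L).injective.injOn)).subset ?_
  rintro z ⟨hz, hz0⟩
  rw [Set.mem_preimage, Finset.mem_coe, Multiset.mem_toFinset, Polynomial.mem_roots hQ0]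
  change Q.eval _ = 0
  rw [hQ _ ((map_ne_zero _).2 hz), hz0, mul_zero]

/-- the powers of almost all elements are not in a finite set -/
theorem zpow_finite [IsAlgClosed k] {d d' : ℤ} (hd : d ≠ d') (S : Set k) (hS : S.Finite) :
    {z : k | z ≠ 0 ∧ z ^ d / z ^ d' ∈ S}.Finite := by
  classical
  have h1 : ∀ w : k, {z : k | z ≠ 0 ∧ z ^ d / z ^ d' = w}.Finite := by
    intro w
    have h2 : 0 < (d - d').natAbs := Int.natAbs_pos.2 (sub_ne_zero.2 hd)
    have h3 : ∀ w : k, {z : k | z ^ (d - d').natAbs = w}.Finite := by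
      intro w
      refine ((Polynomial.nthRoots (d - d').natAbs w).toFinset.finite_toSet).subset ?_
      intro z hz
      rw [Finset.mem_coe, Multiset.mem_toFinset, Polynomial.mem_nthRoots h2]
      exact hz
    refine ((h3 w).union (h3 w⁻¹)).subset ?_
    rintro z ⟨hz, hw⟩
    rw [← zpow_sub₀ hz] at hw
    rcases le_total 0 (d - d') with h | h
    · left
      change z ^ (d - d').natAbs = w
      rw [← hw, ← zpow_natCast, Int.natAbs_of_nonneg h]
    · right
      change z ^ (d - d').natAbs = w⁻¹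
      rw [← hw, ← zpow_natCast, Int.ofNat_natAbs_of_nonpos h, zpow_neg]
  refine (hS.biUnion fun w _ => h1 w).subset ?_
  rintro z ⟨hz, hw⟩
  rw [Set.mem_iUnion₂]
  exact ⟨_, hw, hz, rfl⟩

/-- an orbit of a one-parameter group through a point of `X ∖ Z` -/
theorem orbit_infinite [IsAlgClosed k] {F : ι → MvPolynomial (Fin (n + 1)) L}
    {G : κ → MvPolynomial (Fin (n + 1)) L} {f : Fin (n + 1) → L} (hf : f ∈ Off F G)
    {b : Fin (n + 1) → ℤ} {i i' : Fin (n + 1)} (hi : f i ≠ 0) (hi' : f i' ≠ 0) (hb : b i ≠ b i')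
    (h : ∀ t : L, t ≠ 0 → ∀ e, val (fun j => t ^ b j * f j) (F e) = 0) :
    ∃ μ : Fin (n + 1) → L, (∀ i, μ i ≠ 0) ∧ (TransPts k (Off F G) μ).Infinite := by
  classical
  obtain ⟨⟨hf0, hfF⟩, j0, hj0⟩ := hf
  let μ : Fin (n + 1) → L := fun j => if f j = 0 then 1 else f j
  let c : k → Fin (n + 1) → k := fun z j => if f j = 0 then 0 else z ^ b j
  have hμ : ∀ j, μ j ≠ 0 := by
    intro j
    simp only [μ]
    split_ifs with h0
    · exact one_ne_zero
    · exact h0
  have hμc : ∀ z : k, (fun j => μ j * algebraMap k L (c z j)) =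
      fun j => algebraMap k L z ^ b j * f j := by
    intro z
    funext j
    simp only [μ, c]
    split_ifs with h0
    · rw [h0]; simp
    · rw [map_zpow₀]; ring
  refine ⟨μ, hμ, fun hfin => ?_⟩
  have hc0 : ∀ z : k, z ≠ 0 → c z ≠ 0 := by
    intro z hz h0
    have h1 := congrFun h0 i
    simp only [c, if_neg hi, Pi.zero_apply] at h1
    exact zpow_ne_zero _ hz h1
  -- the values
  have h1 : {z : k | z ≠ 0 ∧ val (fun j => algebraMap k L z ^ b j * f j) (G j0) = 0}.Finite :=
    bad_finite b f (G j0) hj0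
  have h2 : {z : k | z ≠ 0 ∧ z ^ b i / z ^ b i' ∈
      (fun p : ℙ k (Fin (n + 1) → k) => p.rep i / p.rep i') '' TransPts k (Off F G) μ}.Finite :=
    zpow_finite hb _ (hfin.image _)
  have h3 : (Set.univ : Set k) ⊆ {0} ∪ ({z : k | z ≠ 0 ∧
      val (fun j => algebraMap k L z ^ b j * f j) (G j0) = 0} ∪ {z : k | z ≠ 0 ∧
      z ^ b i / z ^ b i' ∈
      (fun p : ℙ k (Fin (n + 1) → k) => p.rep i / p.rep i') '' TransPts k (Off F G) μ}) := by
    intro z _
    by_cases hz : z = 0
    · exact Or.inl hz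
    by_cases hz1 : val (fun j => algebraMap k L z ^ b j * f j) (G j0) = 0
    · exact Or.inr (Or.inl ⟨hz, hz1⟩)
    · refine Or.inr (Or.inr ⟨hz, Projectivization.mk k (c z) (hc0 z hz), ⟨c z, hc0 z hz, ?_, rfl⟩, ?_⟩)
      · rw [hμc]
        have hzL : algebraMap k L z ≠ 0 := (map_ne_zero _).2 hz
        refine ⟨⟨fun h0 => ?_, fun e => h _ hzL e⟩, j0, hz1⟩
        have h4 := congrFun h0 i
        simp only [Pi.zero_apply] at h4
        exact mul_ne_zero (zpow_ne_zero _ hzL) hi h4
      · obtain ⟨a, ha⟩ := Projectivization.exists_smul_eq_mk_rep k (c z) (hc0 z hz)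
        simp only
        rw [← ha]
        simp only [Pi.smul_apply, c, if_neg hi, if_neg hi']
        rw [Units.smul_def, Units.smul_def, smul_eq_mul, smul_eq_mul,
          mul_div_mul_left _ _ a.ne_zero]
  exact Set.infinite_univ ((((Set.finite_singleton 0).union (h1.union h2))).subset h3)

end Pool.Agent.N126.IS
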