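import Pool.Agent.N126.IS.Final2
import Pool.Agent.N645.IS.TRL
import Pool.Agent.N136.IS.FG
import Pool.Agent.N427.IS.EQV
import Pool.Agent.N721.IS.SPZ

/-!
Inverse images under power maps, arbitrary transcendence degree: consequences of the structure
theorem.
-/

set_option autoImplicit false

open FF MvPolynomial Pool.Agent.W602.GT LinearAlgebra.Projectivization

namespace Pool.Agent.N126.IS

theorem eqv_all : S_EQV := Pool.Agent.N427.IS.main_EQV Pool.Agent.N136.IS.main_FG

theorem isAlgClosed_closure {k0 K : Type} [Field k0] [Field K] [IsAlgClosed K] [Algebra k0 K] :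
    IsAlgClosed (algebraicClosure k0 K) :=
  (inferInstance : IsAlgClosure k0 (algebraicClosure k0 K)).isAlgClosed

section

variable {K : Type} [Field K] [CharZero K] [IsAlgClosed K] {n m D : ℕ} {ι κ : Type}
  {T : Finset (Fin (n + 1) →₀ ℕ)} {F : ι → MvPolynomial (Fin (n + 1)) K}
  {G : κ → MvPolynomial (Fin (n + 1)) K}

/-- finitely many points over finitely generated fields -/
theorem pts_iff (hS : S_STR) {k0 : Type} [Field k0] [Algebra k0 K]
    (hF : ∀ i, (F i).IsHomogeneous D) (hT : ∀ i, (F i).support ⊆ T) (hG : ∀ j, IsForm (G j))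
    (hm : bound n T.card < m) :
    FinPts k0 (Off (fun i => expand m (F i)) G) ↔ FinIso k0 (Off (fun i => expand m (F i)) G) := by
  have h0 : CharZero k0 := (algebraMap k0 K).charZero
  have h1 : IsAlgClosed (algebraicClosure k0 K) := isAlgClosed_closure
  have h2 : CharZero (algebraicClosure k0 K) :=
    charZero_of_injective_algebraMap (algebraMap k0 _).injective
  refine ⟨iso_of_pts, fun h => ?_⟩
  exact eqv_all k0 K n ι κ _ G (fun i => ⟨m * D, isForm_expand m (hF i)⟩) hG
    (hS (algebraicClosure k0 K) K n m D ι T F hF hT hm) h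

theorem pts_iff_cone (hS : S_STR) {k0 : Type} [Field k0] [Algebra k0 K]
    (hF : ∀ i, (F i).IsHomogeneous D) (hT : ∀ i, (F i).support ⊆ T) (hm : bound n T.card < m) :
    FinPts k0 (Cone (fun i => expand m (F i))) ↔ FinIso k0 (Cone (fun i => expand m (F i))) := by
  rw [cone_eq]
  exact pts_iff hS hF hT (fun _ : Unit => ⟨0, isHomogeneous_one _ _⟩) hm

/-- Mordellic varieties -/
theorem mordellic_iff_iso (hS : S_STR)
    (hF : ∀ i, (F i).IsHomogeneous D) (hT : ∀ i, (F i).support ⊆ T) (hm : bound n T.card < m) :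
    Mordellic (fun i => expand m (F i)) ↔ ∀ μ : Fin (n + 1) → K, (∀ i, μ i ≠ 0) →
      Mordellic (Tr (algebraicClosure ℚ K) μ (fun i => expand m (F i))) := by
  have h2 : CharZero (algebraicClosure ℚ K) :=
    charZero_of_injective_algebraMap (algebraMap ℚ _).injective
  rw [mordellic_iff, pts_iff_cone hS hF hT hm]
  have h1 : ∀ (μ : Fin (n + 1) → K) (c : Fin (n + 1) → algebraicClosure ℚ K),
      (∀ p, val c (Tr (algebraicClosure ℚ K) μ (fun i => expand m (F i)) p) = 0) ↔
      ∀ i, val (fun j => μ j * algebraMap (algebraicClosure ℚ K) K (c j)) (expand m (F i)) = 0 :=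
    fun μ => (Pool.Agent.N645.IS.main_TRL _ K n m D ι _ μ).1
  constructor
  · intro h μ hμ
    rw [mordellic_iff]
    exact pts_of_iso h1 (fun x => (isAlgebraic_algebraMap_iff
      (algebraMap (algebraicClosure ℚ K) K).injective).1 (mem_algebraicClosure_iff.1 x.2)) h hμ
  · intro h
    refine finIso_of h1 (fun x hx => ?_) fun μ hμ => mordellic_iff.1 (h μ hμ)
    exact ⟨⟨x, mem_algebraicClosure_iff.2 hx⟩, rfl⟩

/-- general type -/
theorem gt_iff_iso {k : Type} [Field k] [IsAlgClosed k] [Algebra k K]
    (hF : ∀ i, (F i).IsHomogeneous D) (hT : ∀ i, (F i).support ⊆ T) (hm : bound n T.card < m) :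
    AllGeneralType (fun i => expand m (F i)) ↔ ∀ μ : Fin (n + 1) → K, (∀ i, μ i ≠ 0) →
      AllGeneralType (Tr k μ (fun i => expand m (F i))) := by
  classical
  have h0 : CharZero k := (algebraMap k K).charZero
  have hm0 : 0 < m := (Nat.zero_le _).trans_lt hm
  have hpow : ∀ {k' : Type} [Field k'] {ι' : Type} {F' : ι' → MvPolynomial (Fin (n + 1)) k'},
      (∀ i, (F' i).IsHomogeneous D) → (∀ i, (F' i).support ⊆ T) →
      ∀ e, IsPowSparse ∅ T.card m (expand m (F' e)) := by
    intro k' _ ι' F' hF' hT' e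
    have h1 := support_expand' m (F' e) (hT' e)
    refine ⟨⟨m * D, isForm_expand m (hF' e)⟩,
      (Finset.card_le_card h1).trans Finset.card_image_le, m, le_rfl, ?_⟩
    intro α hα j _
    obtain ⟨β, -, rfl⟩ := Finset.mem_image.1 (h1 hα)
    rw [Finsupp.smul_apply, smul_eq_mul]
    exact dvd_mul_right _ _
  rw [gt_iff (hpow hF hT) hm0 (bound_tn hm)]
  have hTr : ∀ μ : Fin (n + 1) → K, AllGeneralType (Tr k μ (fun i => expand m (F i))) ↔
      ∀ z ∈ Cone (Tr k μ (fun i => expand m (F i))),
        ¬ Orb (Tr k μ (fun i => expand m (F i))) z := by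
    intro μ
    have h5 := (Pool.Agent.N645.IS.main_TRL k K n m D ι F μ).2.2.2.2 hm0
    have h3 := (Pool.Agent.N645.IS.main_TRL k K n m D ι F (fun j => μ j ^ m)).2.2
    have h6 : Tr k μ (fun i => expand m (F i)) =
        fun p => expand m (Tr k (fun j => μ j ^ m) F p) := by
      funext p
      exact h5 p.1 p.2
    rw [h6]
    exact gt_iff (hpow (h3.1 hF) fun p => (h3.2.1 p).trans (hT p.1)) hm0 (bound_tn hm)
  have hL := fun μ : Fin (n + 1) → K =>
    Pool.Agent.N645.IS.main_TRL k K n m D ι (fun i => expand m (F i)) μ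
  constructor
  · intro h μ hμ
    rw [hTr]
    rintro c ⟨hc0, hc⟩ ⟨b, i, i', hi, hi', hb, hv⟩
    refine h (fun j => μ j * algebraMap k K (c j)) ⟨?_, ((hL μ).1 c).1 hc⟩
      ⟨b, i, i', mul_ne_zero (hμ i) ((map_ne_zero _).2 hi),
        mul_ne_zero (hμ i') ((map_ne_zero _).2 hi'), hb, fun e v => ?_⟩
    · intro h0
      have h1 := congrFun h0 i
      exact mul_ne_zero (hμ i) ((map_ne_zero _).2 hi) h1
    · exact ((hL μ).2.1 b v c).1 (fun p => hv p v) e
  · rintro h z ⟨hz0, hz⟩ ⟨b, i, i', hi, hi', hb, hv⟩
    let μ : Fin (n + 1) → K := fun j => if z j = 0 then 1 else z j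
    let c : Fin (n + 1) → k := fun j => if z j = 0 then 0 else 1
    have hμ : ∀ j, μ j ≠ 0 := by
      intro j
      simp only [μ]
      split_ifs with h1
      · exact one_ne_zero
      · exact h1
    have hμc : (fun j => μ j * algebraMap k K (c j)) = z := by
      funext j
      simp only [μ, c]
      split_ifs with h1
      · rw [h1]; simp
      · simp
    have hci : ∀ j, z j ≠ 0 → c j ≠ 0 := by
      intro j hj
      simp only [c, if_neg hj]
      exact one_ne_zero
    refine (hTr μ).1 (h μ hμ) c ⟨?_, ?_⟩ ⟨b, i, i', hci i hi, hci i' hi', hb, fun p v => ?_⟩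
    · intro h0
      exact hci i hi (congrFun h0 i)
    · rw [(hL μ).1 c, hμc]
      exact hz
    · refine ((hL μ).2.1 b v c).2 (fun e => ?_) p
      rw [hμc]
      exact hv e v

/-- persistence -/
theorem persist (hS : S_STR) {k0 k : Type} [Field k0] [Field k] [IsAlgClosed k] [Algebra k0 k]
    [Algebra k K] [Algebra k0 K] [IsScalarTower k0 k K] {F : ι → MvPolynomial (Fin (n + 1)) k}
    (hF : ∀ i, (F i).IsHomogeneous D) (hT : ∀ i, (F i).support ⊆ T) (hm : bound n T.card < m)
    (h : FinPts k0 (Cone (fun i => expand m (F i)))) :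
    FinPts k0 (Cone (fun i => expand m (map (algebraMap k K) (F i)))) := by
  classical
  rw [pts_iff_cone hS (F := fun i => map (algebraMap k K) (F i)) (fun i => (hF i).map _)
    (fun i => (support_map_subset _ _).trans (hT i)) hm]
  intro μ hμ T1 hT1
  obtain ⟨μ0, hμ0, hsp⟩ := Pool.Agent.N721.IS.main_SPZ k K (n + 1) μ hμ
  -- the elements of `T1` are in `k`
  have hk : ∀ x : K, IsAlgebraic k0 x → ∃ y : k, algebraMap k K y = x := by
    intro x hx
    have h1 : IsIntegral k x := (hx.tower_top k).isIntegral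
    exact minpoly.mem_range_of_degree_eq_one k x
      (IsAlgClosed.degree_eq_one_of_irreducible k (minpoly.irreducible h1))
  choose s hs using fun t : T1 => hk t.1 (hT1 t.1 t.2)
  have hTs : T1 = (T1.attach.image s).image (algebraMap k K) := by
    ext t
    constructor
    · intro ht
      rw [Finset.mem_image]
      exact ⟨s ⟨t, ht⟩, Finset.mem_image_of_mem _ (Finset.mem_attach _ _), hs ⟨t, ht⟩⟩
    · intro ht
      obtain ⟨y, hy, rfl⟩ := Finset.mem_image.1 ht
      obtain ⟨t, -, rfl⟩ := Finset.mem_image.1 hy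
      rw [hs]
      exact t.2
  have halg : ∀ t ∈ T1.attach.image s, IsAlgebraic k0 t := by
    intro y hy
    obtain ⟨t, -, rfl⟩ := Finset.mem_image.1 hy
    refine (isAlgebraic_algebraMap_iff (algebraMap k K).injective).1 ?_
    rw [hs]
    exact hT1 t.1 t.2
  have hfin := iso_of_pts h μ0 hμ0 (T1.attach.image s) halg
  refine (hfin.image (emb K)).subset ?_
  rintro p ⟨x, ⟨hxne, hxV⟩, hxT, hx0, rfl⟩
  have hxk : ∀ i, ∃ c : k, algebraMap k K c = x i ∧
      c ∈ IntermediateField.adjoin k0 ((T1.attach.image s : Finset k) : Set k) := by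
    intro i
    have h2 := hxT i
    rw [hTs] at h2
    have h3 : IntermediateField.adjoin k0
        (((T1.attach.image s).image (algebraMap k K) : Finset K) : Set K) =
      (IntermediateField.adjoin k0 ((T1.attach.image s : Finset k) : Set k)).map
        (IsScalarTower.toAlgHom k0 k K) := by
      rw [IntermediateField.adjoin_map, Finset.coe_image]
      rfl
    rw [h3] at h2
    obtain ⟨c, hc, hcx⟩ := h2
    exact ⟨c, hcx, hc⟩
  choose c hcx hcT using hxk
  have hx : x = fun i => algebraMap k K (c i) := funext fun i => (hcx i).symm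
  have hc0 : c ≠ 0 := by
    rintro rfl
    apply hx0
    rw [hx]
    funext i
    simp
  refine ⟨Projectivization.mk k c hc0, ⟨c, ⟨?_, fun i => ?_⟩, hcT, hc0, rfl⟩, ?_⟩
  · intro h0
    apply hc0
    funext i
    exact (mul_eq_zero.1 (congrFun h0 i)).resolve_left (hμ0 i)
  · -- specialisation
    let P : MvPolynomial (Fin (n + 1)) k :=
      aeval (fun j => X j * C (c j) : Fin (n + 1) → MvPolynomial (Fin (n + 1)) k)
        (expand m (F i))
    have h1 : aeval μ P = 0 := by
      have h2 : aeval μ P = aeval (fun j => μ j * x j) (expand m (F i)) := by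
        have h3 : (aeval μ : MvPolynomial (Fin (n + 1)) k →ₐ[k] K).comp
            (aeval (fun j => X j * C (c j) : Fin (n + 1) → MvPolynomial (Fin (n + 1)) k)) =
            aeval (fun j => μ j * x j) := by
          apply algHom_ext
          intro j
          simp [hcx]
        exact DFunLike.congr_fun h3 (expand m (F i))
      rw [h2]
      have h4 : aeval (fun j => μ j * x j) (expand m (map (algebraMap k K) (F i))) = 0 := hxV i
      rw [← h4]
      have h5 : expand m (map (algebraMap k K) (F i)) = map (algebraMap k K) (expand m (F i)) := by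
        rw [map_expand]
      rw [h5, aeval_map_algebraMap]
    have h6 := hsp P h1
    unfold val
    have h7 : eval μ0 P = aeval (fun j => μ0 j * c j) (expand m (F i)) := by
      have h3 : (aeval μ0 : MvPolynomial (Fin (n + 1)) k →ₐ[k] k).comp
          (aeval (fun j => X j * C (c j) : Fin (n + 1) → MvPolynomial (Fin (n + 1)) k)) =
          aeval (fun j => μ0 j * c j) := by
        apply algHom_ext
        intro j
        simp
      have h8 := DFunLike.congr_fun h3 (expand m (F i))
      rw [← h8]
      change eval μ0 P = aeval μ0 P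
      rw [aeval_eq_eval]
    rw [← h7]
    exact h6
  · rw [emb_mk]
    congr 1
    exact hx.symm

end

end Pool.Agent.N126.IS
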