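import Pool.Agent.N126.IS.All
import Pool.Agent.N126.IS.All2
import Pool.Agent.N284.IS.FAM2
import Pool.Agent.N353.IS.GEN2
import Pool.Agent.N835.IS.EQK
import Pool.Agent.N296.IS.CNT2

/-!
Kummer coverings of arbitrary projective varieties.
-/

set_option autoImplicit false

open FF MvPolynomial Pool.Agent.W602.GT LinearAlgebra.Projectivization

namespace Pool.Agent.N126.IS

theorem gen2_all : S_GEN2 :=
  Pool.Agent.N353.IS.main_GEN2 main_MAIN (Pool.Agent.N284.IS.main_FAM2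
    Pool.Agent.N319.IS.main_SPEC Pool.Agent.N157.IS.main_LIN Pool.Agent.N296.IS.main_CNT2)

/-- `{F = 0}` is the image of `V = {H = 0}` under the linear map `l`: over every extension of `K`, the
zeros of `F` are the vectors `l v`, where `v` is a zero of `H`. -/
def IsImage {k0 K : Type} [Field k0] [Field K] [Algebra k0 K] {n N : ℕ} {ι0 ι : Type}
    (H : ι0 → MvPolynomial (Fin (n + 1)) k0) (l : Fin (N + 1) → Fin (n + 1) → K)
    (F : ι → MvPolynomial (Fin (N + 1)) K) : Prop :=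
  ∀ (Ω : Type) [Field Ω] [Algebra K Ω] (y : Fin (N + 1) → Ω), (∀ i, aeval y (F i) = 0) ↔
    ∃ v : Fin (n + 1) → Ω, (∀ i, aeval v (map (algebraMap k0 K) (H i)) = 0) ∧
      ∀ j, y j = ∑ i, algebraMap K Ω (l j i) * v i

theorem kummer_all {K : Type} [Field K] [CharZero K] [IsAlgClosed K] {k0 : Type} [Field k0]
    [Algebra k0 K] {n N d m D : ℕ} {ι0 ι : Type} {H : ι0 → MvPolynomial (Fin (n + 1)) k0}
    {l : Fin (N + 1) → Fin (n + 1) → K} {T : Finset (Fin (N + 1) →₀ ℕ)}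
    {F : ι → MvPolynomial (Fin (N + 1)) K} (hH : ∀ i, IsForm (H i)) (hd : DimLE k0 H d)
    (hN : 2 * d + 1 ≤ N)
    (hl : AlgebraicIndependent k0 (fun p : Fin (N + 1) × Fin (n + 1) => l p.1 p.2))
    (hF : ∀ i, (F i).IsHomogeneous D) (hT : ∀ i, (F i).support ⊆ T) (hI : IsImage H l F)
    (hm : bound N T.card < m) :
    FinPts k0 (Cone (Pre m F)) ∧ Mordellic (Pre m F) ∧ AllGeneralType (Pre m F) := by
  have h1 : FinPts k0 (Cone (Pre m F)) := gen2_all K k0 n N d m D ι0 ι H l T F hH hd hN hl hF hT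
    (fun Ω _ _ y hy => (hI Ω y).1 hy) hm
  exact ⟨h1, lang_all (k := k0) (highPowers_expand hF hT m)
    (Nat.one_le_iff_ne_zero.2 (Nat.ne_zero_of_lt hm)) (bound_tn hm) h1⟩

theorem image_all {K : Type} [Field K] {k0 : Type} [Field k0] [Algebra k0 K] {n N D : ℕ}
    {ι0 : Type} {H : ι0 → MvPolynomial (Fin (n + 1)) k0} {l : Fin (N + 1) → Fin (n + 1) → K}
    (hn : n ≤ N) (hD : 0 < D) (hH : ∀ i, (H i).IsHomogeneous D)
    (hl : AlgebraicIndependent k0 (fun p : Fin (N + 1) × Fin (n + 1) => l p.1 p.2)) :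
    ∃ (ι : Type) (F : ι → MvPolynomial (Fin (N + 1)) K), (∀ i, (F i).IsHomogeneous D) ∧
      IsImage H l F :=
  Pool.Agent.N835.IS.main_EQK K k0 n N D ι0 H l hn hD hH hl

end Pool.Agent.N126.IS
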