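import Pool.Agent.N126.IS.Defs

/-!
Statements of the independent parts.
-/

set_option autoImplicit false

open Pool.Agent.W602.GT LinearAlgebra.Projectivization MvPolynomial

namespace Pool.Agent.N126.IS

/-- the exponents of the monomials of degree `D` in `n + 1` variables -/
abbrev Mon (n D : ℕ) : Type := {I : Fin (n + 1) →₀ ℕ // I.degree = D}

/-- the lower bound for the exponent `m`, for forms with at most `s` monomials -/
def bound (n s : ℕ) : ℕ := (n + 1) * (s + 1) * (s - 1) ^ 2

/-- SPEC: almost all specialisations of `s` extend to finitely generated algebras. -/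
def S_SPEC : Prop := ∀ (k K : Type) [Field k] [IsAlgClosed k] [CharZero k] [Field K] [Algebra k K]
    (s : K), Transcendental k s → ∀ W : Finset K,
    (∀ w ∈ W, IsAlgebraic (IntermediateField.adjoin k {s}) w) →
    ∃ S0 : Finset k, ∀ σ : k, σ ∉ S0 →
      ∃ φ : Algebra.adjoin k (insert s (W : Set K)) →ₐ[k] k,
        φ ⟨s, Algebra.subset_adjoin (Set.mem_insert _ _)⟩ = σ

/-- LIN: algebraic independence is preserved by invertible linear substitutions. -/
def S_LIN : Prop := ∀ (k0 k I : Type) [Field k0] [Field k] [Algebra k0 k] (N : ℕ)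
    (x : Fin N → I → k), AlgebraicIndependent k0 (fun p : Fin N × I => x p.1 p.2) →
    ∀ A : Matrix (Fin N) (Fin N) k0, IsUnit A.det →
      AlgebraicIndependent k0 (fun p : Fin N × I => ∑ l, algebraMap k0 k (A p.1 l) * x l p.2)

/-- CNT: `2 n + 1` generic forms of degree at least `2 n`, composed with arbitrary diagonal
matrices, do not vanish together at `2 n + 1` points. -/
def S_CNT : Prop := ∀ (k0 k : Type) [Field k0] [CharZero k0] [Field k] [Algebra k0 k] (n D : ℕ),
    2 * n ≤ D → ∀ B : Fin (2 * n + 1) → MvPolynomial (Fin (n + 1)) k,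
    (∀ j, (B j).IsHomogeneous D) →
    AlgebraicIndependent k0 (fun p : Fin (2 * n + 1) × Mon n D => (B p.1).coeff p.2.1) →
    ∀ μ c : Fin (2 * n + 1) → Fin (n + 1) → k, (∀ j i, μ j i ≠ 0) → (∀ a, c a ≠ 0) →
      (∀ a a', a ≠ a' → ∀ t : k, c a ≠ t • c a') →
      ¬ ∀ j a, eval (fun i => μ j i * c a i) (B j) = 0

/-- FAM: generic one-parameter families of forms. -/
def S_FAM : Prop := ∀ (k0 k K : Type) [Field k0] [CharZero k0] [Field k] [IsAlgClosed k]
    [Algebra k0 k] [Field K] [IsAlgClosed K] [Algebra k K] (s : K), Transcendental k s →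
    Algebra.trdeg k K = 1 → ∀ n D M m : ℕ, 2 * n ≤ D → 2 * n ≤ M → 0 < m →
    ∀ P : Fin (M + 1) → MvPolynomial (Fin (n + 1)) k, (∀ j, (P j).IsHomogeneous D) →
    AlgebraicIndependent k0 (fun p : Fin (M + 1) × Mon n D => (P p.1).coeff p.2.1) →
    FinTrans k (Cone fun _ : Unit =>
      expand m (∑ j : Fin (M + 1), C (s ^ (j : ℕ)) * map (algebraMap k K) (P j)))

/-- MAIN: finitely many points over function fields. -/
def S_MAIN : Prop := ∀ (k K : Type) [Field k] [IsAlgClosed k] [CharZero k] [Field K]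
    [IsAlgClosed K] [Algebra k K], Algebra.trdeg k K = 1 →
    ∀ (n m D : ℕ) (ι κ : Type) [Finite κ] (T : Finset (Fin (n + 1) →₀ ℕ))
    (F : ι → MvPolynomial (Fin (n + 1)) K) (G : κ → MvPolynomial (Fin (n + 1)) K),
    (∀ i, (F i).IsHomogeneous D) → (∀ i, (F i).support ⊆ T) → (∀ j, IsForm (G j)) →
    bound n T.card < m → FinTrans k (Off (fun i => expand m (F i)) G) →
    FinPts k (Off (fun i => expand m (F i)) G)

/-- GEN: a generic form. -/
def S_GEN : Prop := ∀ (K : Type) [Field K] [IsAlgClosed K] [CharZero K] (k0 : Subfield K)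
    (n m D : ℕ), 2 * n ≤ D → ∀ F : MvPolynomial (Fin (n + 1)) K, F.IsHomogeneous D →
    AlgebraicIndependent k0 (fun I : Mon n D => F.coeff I.1) →
    bound n (Nat.choose (n + D) n) < m →
    FinPts k0 (Cone fun _ : Unit => expand m F)

end Pool.Agent.N126.IS
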