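import Pool.Agent.N126.IS.Hgt
import Pool.Agent.N126.IS.Stm
import Pool.Agent.TH145.MF.FF

/-!
Finitely many points over function fields of one variable.
-/

set_option autoImplicit false

open FF MvPolynomial Pool.Agent.W603.LV Pool.Agent.W603.PV Pool.Agent.W602.GT
  LinearAlgebra.Projectivization

namespace Pool.Agent.N126.IS

/-- finitely generated fields of transcendence degree one are contained in function fields -/
theorem exists_ff1 {k K : Type} [Field k] [CharZero k] [Field K] [Algebra k K]
    (h : Algebra.trdeg k K = 1) (T : Finset K) :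
    ∃ L : IntermediateField k K, IsFF k L ∧ ∀ t ∈ T, t ∈ L := by
  classical
  obtain ⟨ι, x, hx⟩ := exists_isTranscendenceBasis' k K
  have hcard : Cardinal.mk ι = 1 := hx.cardinalMk_eq_trdeg.trans h
  obtain ⟨hsub, ⟨i0⟩⟩ := Cardinal.eq_one_iff_unique.1 hcard
  set s := x i0 with hs
  have hrange : Set.range x = {s} := by
    ext y
    constructor
    · rintro ⟨i, rfl⟩
      rw [Subsingleton.elim i i0]
      rfl
    · rintro rfl
      exact ⟨i0, rfl⟩
  have hstr : Transcendental k s := by
    have h1 := hx.1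
    have : Unique ι := ⟨⟨i0⟩, fun a => Subsingleton.elim _ _⟩
    rw [algebraicIndependent_unique_type_iff] at h1
    have h2 : (default : ι) = i0 := Subsingleton.elim _ _
    rwa [h2] at h1
  have halg : ∀ t : K, IsAlgebraic (IntermediateField.adjoin k {s}) t := by
    intro t
    rw [IntermediateField.isAlgebraic_adjoin_iff, ← hrange]
    exact hx.isAlgebraic.isAlgebraic t
  set E : IntermediateField k K := IntermediateField.adjoin k {s} with hE
  let sE : E := ⟨s, IntermediateField.subset_adjoin _ _ rfl⟩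
  have hsE : Transcendental k sE := by
    intro h
    exact hstr (h.algebraMap : IsAlgebraic k (algebraMap E K sE))
  have hEFF : IsFF k E := by
    apply IsFF.of_finite (f := sE) hsE
    have h1 : IntermediateField.adjoin k {sE} = ⊤ := by
      rw [eq_top_iff]
      rintro ⟨x, hx⟩ -
      have h2 : (IntermediateField.adjoin k {sE}).map E.val = E := by
        rw [IntermediateField.adjoin_map, Set.image_singleton]
        rfl
      have h3 : x ∈ (IntermediateField.adjoin k {sE}).map E.val := by
        rw [h2]; exact hx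
      obtain ⟨y, hy, hyx⟩ := h3
      have h4 : y = ⟨x, hx⟩ := Subtype.ext hyx
      rw [← h4]
      exact hy
    rw [h1]
    apply FiniteDimensional.of_finrank_pos
    rw [IntermediateField.finrank_top]
    exact one_pos
  let L0 : IntermediateField E K := IntermediateField.adjoin E (T : Set K)
  have hfin : FiniteDimensional E L0 :=
    IntermediateField.finiteDimensional_adjoin fun t _ => (halg t).isIntegral
  have hLFF : IsFF k L0 := Pool.Agent.W603.PV.isFF_of_finite (F := E)
  refine ⟨L0.restrictScalars k, hLFF, fun t ht => ?_⟩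
  exact IntermediateField.subset_adjoin E _ (by simpa using ht)

section

variable {K : Type} [Field K] {n : ℕ}

/-- finitely many equations suffice -/
theorem exists_finite {ι : Type} (T : Finset (Fin (n + 1) →₀ ℕ))
    (F : ι → MvPolynomial (Fin (n + 1)) K) (hF : ∀ i, (F i).support ⊆ T) :
    ∃ S : Finset ι, ∀ i, F i ∈ Submodule.span K (F '' (S : Set ι)) := by
  classical
  let N : Submodule K (MvPolynomial (Fin (n + 1)) K) :=
    Submodule.span K ((T.image fun α => monomial α (1 : K) : Finset _) : Set _)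
  have hFN : ∀ i, F i ∈ N := by
    intro i
    rw [(F i).as_sum]
    refine Submodule.sum_mem _ fun α hα => ?_
    have h1 : monomial α ((F i).coeff α) = (F i).coeff α • monomial α (1 : K) := by
      rw [smul_monomial, smul_eq_mul, mul_one]
    rw [h1]
    exact Submodule.smul_mem _ _ (Submodule.subset_span (Finset.mem_coe.2
      (Finset.mem_image_of_mem _ (hF i hα))))
  have hNfin : FiniteDimensional K N := FiniteDimensional.span_finset K _
  have hle : Submodule.span K (Set.range F) ≤ N := by
    rw [Submodule.span_le]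
    rintro _ ⟨i, rfl⟩
    exact hFN i
  have hfin : FiniteDimensional K (Submodule.span K (Set.range F)) :=
    Submodule.finiteDimensional_of_le hle
  have hfg : (Submodule.span K (Set.range F)).FG := Module.Finite.iff_fg.1 hfin
  obtain ⟨s', hs', hspan⟩ := (Submodule.fg_span_iff_fg_span_finset_subset _).1 hfg
  choose g hg using fun p : s' => hs' p.2
  refine ⟨s'.attach.image g, fun i => ?_⟩
  have h1 : F i ∈ Submodule.span K (Set.range F) := Submodule.subset_span ⟨i, rfl⟩
  rw [hspan] at h1
  refine Submodule.span_mono ?_ h1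
  intro p hp
  refine ⟨g ⟨p, Finset.mem_coe.1 hp⟩, ?_, hg ⟨p, Finset.mem_coe.1 hp⟩⟩
  exact Finset.mem_coe.2 (Finset.mem_image_of_mem _ (Finset.mem_attach _ _))

theorem val_span {ι : Type} {F : ι → MvPolynomial (Fin (n + 1)) K} {S : Finset ι}
    (hS : ∀ i, F i ∈ Submodule.span K (F '' (S : Set ι))) {L : Type} [Field L] [Algebra K L]
    {x : Fin (n + 1) → L} (hx : ∀ i ∈ S, val x (F i) = 0) (i : ι) : val x (F i) = 0 := by
  have h1 := hS i
  generalize F i = p at h1
  induction h1 using Submodule.span_induction with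
  | mem p hp =>
    obtain ⟨i, hi, rfl⟩ := hp
    exact hx i (Finset.mem_coe.1 hi)
  | zero => unfold val; rw [map_zero]
  | add p q _ _ hp hq =>
    unfold val at hp hq ⊢
    rw [map_add, hp, hq, add_zero]
  | smul a p _ hp =>
    unfold val at hp ⊢
    rw [map_smul, hp, smul_zero]

theorem support_expand' (m : ℕ) (p : MvPolynomial (Fin (n + 1)) K)
    {T : Finset (Fin (n + 1) →₀ ℕ)} (hp : p.support ⊆ T) :
    (expand m p).support ⊆ T.image fun α => m • α := by
  classical
  intro β hβ
  rw [p.as_sum, map_sum] at hβ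
  obtain ⟨α, hα, hβα⟩ := Finset.mem_biUnion.1 (support_sum hβ)
  rw [expand_monomial] at hβα
  have h1 := support_monomial_subset hβα
  rw [Finset.mem_singleton] at h1
  exact Finset.mem_image.2 ⟨α, hp hα, h1.symm⟩

theorem isForm_expand (m : ℕ) {p : MvPolynomial (Fin (n + 1)) K} {D : ℕ}
    (hp : p.IsHomogeneous D) : (expand m p).IsHomogeneous (m * D) := by
  classical
  rw [p.as_sum, map_sum]
  refine IsHomogeneous.sum _ _ _ fun α hα => ?_
  rw [expand_monomial]
  apply isHomogeneous_monomial
  have h1 : α.degree = D := by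
    have h2 := hp (mem_support_iff.1 hα)
    rw [← h2, Finsupp.degree_eq_sum]
    simp [Finsupp.weight_apply, Finsupp.sum_fintype]
  rw [← h1, Finsupp.degree_eq_sum, Finsupp.degree_eq_sum, Finset.mul_sum]
  exact Finset.sum_congr rfl fun j _ => by rw [Finsupp.smul_apply, smul_eq_mul]

end

theorem bound_le {n s m : ℕ} (h : bound n s < m) :
    s * (n * Pool.Agent.R869.tri (s - 1)) < m ∧ (s - 1) ^ 2 ≤ m := by
  unfold bound at h
  have h1 : Pool.Agent.R869.tri (s - 1) ≤ (s - 1) ^ 2 := by
    rw [Pool.Agent.R869.tri_eq, Finset.sum_range_id, sq]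
    exact (Nat.div_le_self _ _).trans (Nat.mul_le_mul_left _ (Nat.sub_le _ _))
  constructor
  · refine lt_of_le_of_lt ?_ h
    calc s * (n * Pool.Agent.R869.tri (s - 1)) ≤ (s + 1) * ((n + 1) * (s - 1) ^ 2) :=
          Nat.mul_le_mul (Nat.le_succ _) (Nat.mul_le_mul (Nat.le_succ _) h1)
      _ = (n + 1) * (s + 1) * (s - 1) ^ 2 := by ring
  · refine le_trans ?_ h.le
    exact Nat.le_mul_of_pos_left _ (Nat.mul_pos (Nat.succ_pos _) (Nat.succ_pos _))

theorem main_MAIN : S_MAIN := by
  classical
  intro k K _ _ _ _ _ _ htr n m D ι κ _ T F G hF hT hG hm hb T0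
  -- the number of exponents
  obtain ⟨s, hs1, hs, hms⟩ : ∃ s, 1 ≤ s ∧ T.card ≤ s ∧ bound n s < m := by
    by_cases h0 : T.card = 0
    · refine ⟨1, le_rfl, by omega, ?_⟩
      have h1 : bound n 1 = 0 := by unfold bound; simp
      rw [h1]
      exact (Nat.zero_le _).trans_lt hm
    · exact ⟨T.card, by omega, le_rfl, hm⟩
  obtain ⟨hm1, hm2⟩ := bound_le hms
  -- only the exponents of degree `D`
  set T' : Finset (Fin (n + 1) →₀ ℕ) := T.filter fun α => ∑ j, α j = D with hT'
  have hT'c : T'.card ≤ s := (Finset.card_filter_le _ _).trans hs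
  have hT'D : ∀ α ∈ T', ∑ j, α j = D := fun α hα => (Finset.mem_filter.1 hα).2
  have hFT' : ∀ i, (F i).support ⊆ T' := by
    intro i α hα
    refine Finset.mem_filter.2 ⟨hT i hα, ?_⟩
    have h2 := hF i (mem_support_iff.1 hα)
    rw [← h2]
    simp [Finsupp.weight_apply, Finsupp.sum_fintype]
  -- finitely many equations
  obtain ⟨S, hS⟩ := exists_finite _ (fun i => expand m (F i))
    fun i => support_expand' m (F i) (hFT' i)
  -- the function field
  obtain ⟨L, hLFF, hTL⟩ := exists_ff1 htr (T0 ∪ (S.biUnion fun i => (expand m (F i)).coeffs) ∪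
    (Set.finite_univ (α := κ)).toFinset.biUnion fun j => (G j).coeffs)
  have hT0L : ∀ t ∈ T0, t ∈ L := fun t ht =>
    hTL t (Finset.mem_union_left _ (Finset.mem_union_left _ ht))
  have hdesc : ∀ p : MvPolynomial (Fin (n + 1)) K, (∀ c ∈ p.coeffs, c ∈ L) →
      ∃ p' : MvPolynomial (Fin (n + 1)) L, map (algebraMap L K) p' = p := by
    intro p hp
    have h1 : p ∈ Set.range (MvPolynomial.map (algebraMap L K)) := by
      rw [mem_range_map_iff_coeffs_subset]
      intro c hc
      exact ⟨⟨c, hp c hc⟩, rfl⟩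
    obtain ⟨p', hp'⟩ := h1
    exact ⟨p', hp'⟩
  choose F1 hF1 using fun i : S => hdesc (expand m (F i.1)) fun c hc =>
    hTL c (Finset.mem_union_left _ (Finset.mem_union_right _
      (Finset.mem_biUnion.2 ⟨i.1, i.2, hc⟩)))
  choose G1 hG1 using fun j : κ => hdesc (G j) fun c hc =>
    hTL c (Finset.mem_union_right _ (Finset.mem_biUnion.2 ⟨j, by simp, hc⟩))
  have hval : ∀ (p : MvPolynomial (Fin (n + 1)) L) (x : Fin (n + 1) → L),
      val (fun i => (x i : K)) (map (algebraMap L K) p) = (val x p : L) := by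
    intro p x
    unfold val
    rw [aeval_map_algebraMap]
    exact (MvPolynomial.aeval_algebraMap_apply K x p)
  -- the sets of points
  have hOff : ∀ x : Fin (n + 1) → L, x ∈ Off F1 G1 ↔
      (fun i => (x i : K)) ∈ Off (fun i => expand m (F i)) G := by
    intro x
    have hne : x ≠ 0 ↔ (fun i => (x i : K)) ≠ 0 := by
      rw [not_iff_not]
      constructor
      · rintro rfl; rfl
      · intro h
        funext i
        have h1 := congrFun h i
        exact Subtype.ext h1
    constructor
    · rintro ⟨⟨h0, h1⟩, j, hj⟩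
      refine ⟨⟨hne.1 h0, ?_⟩, j, ?_⟩
      · refine val_span hS ?_
        intro i hi
        rw [← hF1 ⟨i, hi⟩, hval, h1 ⟨i, hi⟩]
        rfl
      · rw [← hG1 j, hval]
        exact fun h => hj (Subtype.ext h)
    · rintro ⟨⟨h0, h1⟩, j, hj⟩
      refine ⟨⟨hne.2 h0, fun i => ?_⟩, j, ?_⟩
      · apply Subtype.ext
        rw [← hval, hF1 i]
        exact h1 i.1
      · intro h
        apply hj
        rw [← hG1 j, hval, h]
        rfl
  have hbL : FinTrans k (Off F1 G1) := by
    intro μ hμ
    refine (hb (fun i => (μ i : K)) fun i h => hμ i (Subtype.ext h)).subset ?_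
    rintro p ⟨c, hc, hcm, rfl⟩
    refine ⟨c, hc, ?_, rfl⟩
    exact (hOff _).1 hcm
  -- the supports
  have hsuppL : ∀ i, (F1 i).support ⊆ T'.image fun α => m • α := by
    intro i
    have h1 := support_expand' m (F i.1) (hFT' i.1)
    rw [← hF1 i, support_map_of_injective _ (algebraMap L K).injective] at h1
    exact h1
  have hfin := fun j0 => finite_ff (k := k) T' hT'D hs1 hT'c hm1 hm2 F1 G1 hsuppL hbL j0
  -- the points
  have hne : ∀ (j0 : Fin (n + 1)) (z : {z : Fin (n + 1) → L | z j0 = 1 ∧ z ∈ Off F1 G1}),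
      (fun i => ((z.1 i : L) : K)) ≠ 0 := by
    intro j0 z h0
    have h1 := congrFun h0 j0
    have h2 := z.2.1
    simp only [Pi.zero_apply] at h1
    rw [h2] at h1
    simp at h1
  let f : (j0 : Fin (n + 1)) → {z : Fin (n + 1) → L | z j0 = 1 ∧ z ∈ Off F1 G1} →
      ℙ K (Fin (n + 1) → K) := fun j0 z => Projectivization.mk K _ (hne j0 z)
  have hun : (⋃ j0, Set.range (f j0)).Finite := by
    apply Set.finite_iUnion
    intro j0
    have h1 : Finite {z : Fin (n + 1) → L | z j0 = 1 ∧ z ∈ Off F1 G1} := hfin j0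
    exact Set.finite_range _
  refine hun.subset ?_
  rintro p ⟨x, hx, hxT, hx0, rfl⟩
  obtain ⟨j0, hj0⟩ := Function.ne_iff.1 hx0
  have hj0' : x j0 ≠ 0 := hj0
  have hcl : ∀ y ∈ IntermediateField.adjoin k (T0 : Set K), y ∈ L := by
    intro y hy
    have h1 : IntermediateField.adjoin k (T0 : Set K) ≤ L := by
      rw [IntermediateField.adjoin_le_iff]
      intro t ht
      exact hT0L t (by simpa using ht)
    exact h1 hy
  have hxL : ∀ i, x i ∈ L := fun i => hcl _ (hxT i)
  let z : Fin (n + 1) → L := fun i => ⟨x i, hxL i⟩ / ⟨x j0, hxL j0⟩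
  have hzc : ∀ i, ((z i : L) : K) = (x j0)⁻¹ * x i := fun i => by
    rw [mul_comm, ← div_eq_mul_inv]
    rfl
  have hzmem : z ∈ {z : Fin (n + 1) → L | z j0 = 1 ∧ z ∈ Off F1 G1} := by
    refine ⟨?_, ?_⟩
    · apply Subtype.ext
      rw [hzc, inv_mul_cancel₀ hj0']
      rfl
    · rw [hOff]
      have h1 : (fun i => ((z i : L) : K)) = fun i => (x j0)⁻¹ * x i := funext hzc
      rw [h1]
      obtain ⟨⟨h2, h3⟩, j, hj⟩ := hx
      refine ⟨⟨?_, fun i => ?_⟩, j, ?_⟩
      · intro h
        have h4 := congrFun h j0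
        simp only [Pi.zero_apply, inv_mul_cancel₀ hj0'] at h4
        exact one_ne_zero h4
      · rw [val_smul (isForm_expand m (hF i)), h3 i, mul_zero]
      · obtain ⟨d, hd⟩ := hG j
        rw [val_smul hd]
        exact mul_ne_zero (pow_ne_zero _ (inv_ne_zero hj0')) hj
  rw [Set.mem_iUnion]
  refine ⟨j0, ⟨z, hzmem⟩, ?_⟩
  change Projectivization.mk K _ _ = Projectivization.mk K _ _
  rw [Projectivization.mk_eq_mk_iff']
  refine ⟨(x j0)⁻¹, ?_⟩
  funext i
  simp only [Pi.smul_apply, smul_eq_mul]
  rw [hzc]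

end Pool.Agent.N126.IS
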