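import Pool.Agent.N126.IS.Rig2
import Pool.Agent.N126.IS.Main
import Pool.Agent.N38.IS.IND
import Pool.Agent.N717.IS.STEP
import Pool.Agent.N136.IS.FG
import Pool.Agent.N645.IS.TRL
import Pool.Agent.N896.IS.K1

/-!
The structure of the set of points in transcendence degree one.
-/

set_option autoImplicit false

open FF MvPolynomial Pool.Agent.W603.LV Pool.Agent.W603.PV Pool.Agent.W602.GT
  LinearAlgebra.Projectivization Pool.Agent.R869.Wd

namespace Pool.Agent.N126.IS

section

variable {k L : Type} [Field k] [Field L] [Algebra k L] [IsAlgClosed k] [CharZero k] [IsFF k L]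

/-- Finitely many translates over a function field. -/
theorem trans_ff (hR : S_RIG) {n m s D : ℕ} (T : Finset (Fin (n + 1) →₀ ℕ))
    (hT : ∀ α ∈ T, ∑ j, α j = D) (hs1 : 1 ≤ s) (hs : T.card ≤ s)
    (hm : s * (n * Pool.Agent.R869.tri (s - 1)) < m) (hm2 : (s - 1) ^ 2 ≤ m)
    {ι : Type} [Finite ι] (F : ι → MvPolynomial (Fin (n + 1)) L)
    (hF : ∀ e, (F e).support ⊆ T.image fun α => m • α) (j0 : Fin (n + 1)) :
    ∃ S : Finset (Fin (n + 1) → L), ∀ z : Fin (n + 1) → L, z j0 = 1 →
      (∀ e, val z (F e) = 0) → Orb F z ∨ ∃ y ∈ S, ∃ c : Fin (n + 1) → k, (∀ i, c i ≠ 0) ∧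
        ∀ i, z i = y i * algebraMap k L (c i) := by
  classical
  have hm0 : 0 < m := (Nat.zero_le _).trans_lt hm
  obtain ⟨B, hB⟩ := height_bound (k := k) T hT hs1 hs hm F hF
  have hgt0 : hgt k (0 : L) = 0 := hgt_algebraic (k := k) (K := L) (f := 0) isAlgebraic_zero
  obtain ⟨S, hS⟩ := hR k L n m ι F hm0 (by
    intro e α hα j
    obtain ⟨β, -, rfl⟩ := Finset.mem_image.1 (hF e hα)
    rw [Finsupp.smul_apply, smul_eq_mul]
    exact dvd_mul_right _ _) (by
    intro e
    have h1 : (F e).support.card ≤ s :=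
      (Finset.card_le_card (hF e)).trans (Finset.card_image_le.trans hs)
    exact (Nat.pow_le_pow_left (by omega) 2).trans hm2) j0 (max B 0)
  refine ⟨S, fun z hz1 hz => ?_⟩
  by_cases hO : Orb F z
  · exact Or.inl hO
  · refine Or.inr (hS z hz1 hz hO fun j => ?_)
    have hz0 : z ≠ 0 := by
      rintro rfl
      exact one_ne_zero hz1.symm
    rcases hB z hz0 hz with hp | hp
    · exact absurd hp hO
    · by_cases hj : z j = 0
      · rw [hj, hgt0]; exact le_max_right _ _
      · have h1 := Pool.Agent.W603.CX.hgt_le_pht (k := k) z (j := j) (l := j0) hj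
          (by rw [hz1]; exact one_ne_zero)
        rw [hz1, div_one] at h1
        exact (h1.trans hp).trans (le_max_left _ _)

end

theorem main_STR1 (hR : S_RIG) : S_STR1 := by
  classical
  intro k K _ _ _ _ _ _ htr n m D ι T F hF hT hm T0
  -- the number of exponents
  obtain ⟨s, hs1, hs, hms⟩ : ∃ s, 1 ≤ s ∧ T.card ≤ s ∧ bound n s < m := by
    by_cases h0 : T.card = 0
    · refine ⟨1, le_rfl, by omega, ?_⟩
      have h1 : bound n 1 = 0 := by unfold bound; simp
      rw [h1]
      exact (Nat.zero_le _).trans_lt hm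
    · exact ⟨T.card, by omega, le_rfl, hm⟩
  obtain ⟨hm1, hm2⟩ := bound_le hms
  -- only the exponents of degree `D`
  set T' : Finset (Fin (n + 1) →₀ ℕ) := T.filter fun α => ∑ j, α j = D with hT'
  have hT'c : T'.card ≤ s := (Finset.card_filter_le _ _).trans hs
  have hT'D : ∀ α ∈ T', ∑ j, α j = D := fun α hα => (Finset.mem_filter.1 hα).2
  have hFT' : ∀ i, (F i).support ⊆ T' := by
    intro i α hα
    refine Finset.mem_filter.2 ⟨hT i hα, ?_⟩
    have h2 := hF i (mem_support_iff.1 hα)
    rw [← h2]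
    simp [Finsupp.weight_apply, Finsupp.sum_fintype]
  -- finitely many equations
  obtain ⟨S, hS⟩ := exists_finite _ (fun i => expand m (F i))
    fun i => support_expand' m (F i) (hFT' i)
  -- the function field
  obtain ⟨L, hLFF, hTL⟩ := exists_ff1 htr (T0 ∪ (S.biUnion fun i => (expand m (F i)).coeffs))
  have hT0L : ∀ t ∈ T0, t ∈ L := fun t ht => hTL t (Finset.mem_union_left _ ht)
  have hdesc : ∀ p : MvPolynomial (Fin (n + 1)) K, (∀ c ∈ p.coeffs, c ∈ L) →
      ∃ p' : MvPolynomial (Fin (n + 1)) L, map (algebraMap L K) p' = p := by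
    intro p hp
    have h1 : p ∈ Set.range (MvPolynomial.map (algebraMap L K)) := by
      rw [mem_range_map_iff_coeffs_subset]
      intro c hc
      exact ⟨⟨c, hp c hc⟩, rfl⟩
    obtain ⟨p', hp'⟩ := h1
    exact ⟨p', hp'⟩
  choose F1 hF1 using fun i : S => hdesc (expand m (F i.1)) fun c hc =>
    hTL c (Finset.mem_union_right _ (Finset.mem_biUnion.2 ⟨i.1, i.2, hc⟩))
  have hinj : Function.Injective (algebraMap L K) := (algebraMap L K).injective
  have hval : ∀ (p : MvPolynomial (Fin (n + 1)) L) (x : Fin (n + 1) → L),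
      val (fun i => (x i : K)) (map (algebraMap L K) p) = (val x p : L) := by
    intro p x
    unfold val
    rw [aeval_map_algebraMap]
    exact (MvPolynomial.aeval_algebraMap_apply K x p)
  -- the supports
  have hsuppL : ∀ i, (F1 i).support ⊆ T'.image fun α => m • α := by
    intro i
    have h1 := support_expand' m (F i.1) (hFT' i.1)
    rw [← hF1 i, support_map_of_injective _ (algebraMap L K).injective] at h1
    exact h1
  choose S1 hS1 using fun j0 => trans_ff (k := k) hR T' hT'D hs1 hT'c hm1 hm2 F1 hsuppL j0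
  refine ⟨Finset.univ.biUnion fun j0 => (S1 j0).image fun y i => (y i : K), ?_⟩
  intro x hx0 hxT hxF
  obtain ⟨j0, hj0⟩ := Function.ne_iff.1 hx0
  have hj0' : x j0 ≠ 0 := hj0
  have hcl : ∀ y ∈ IntermediateField.adjoin k (T0 : Set K), y ∈ L := by
    intro y hy
    have h1 : IntermediateField.adjoin k (T0 : Set K) ≤ L := by
      rw [IntermediateField.adjoin_le_iff]
      intro t ht
      exact hT0L t (by simpa using ht)
    exact h1 hy
  have hxL : ∀ i, x i ∈ L := fun i => hcl _ (hxT i)
  let z : Fin (n + 1) → L := fun i => ⟨x i, hxL i⟩ / ⟨x j0, hxL j0⟩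
  have hzc : ∀ i, ((z i : L) : K) = (x j0)⁻¹ * x i := fun i => by
    rw [mul_comm, ← div_eq_mul_inv]
    rfl
  have hxz : x = fun i => x j0 * (z i : K) := by
    funext i
    rw [hzc, ← mul_assoc, mul_inv_cancel₀ hj0', one_mul]
  have hz1 : z j0 = 1 := by
    apply Subtype.ext
    rw [hzc, inv_mul_cancel₀ hj0']
    rfl
  have hzF : ∀ e, val z (F1 e) = 0 := by
    intro e
    apply hinj
    have h1 := hval (F1 e) z
    have h2 : (fun i => ((z i : L) : K)) = fun i => (x j0)⁻¹ * x i := funext hzc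
    rw [hF1 e, h2, Pool.Agent.N717.IS.val_hom (isForm_expand m (hF e.1)), hxF e.1, mul_zero] at h1
    rw [map_zero]
    exact h1.symm
  rcases hS1 j0 z hz1 hzF with ⟨b, i, i', hi, hi', hb, hv⟩ | ⟨y, hy, c, hc, hzy⟩
  · refine Or.inl ⟨b, i, i', ?_, ?_, hb, ?_⟩
    · intro h
      apply hi
      apply hinj
      change ((z i : L) : K) = _
      rw [hzc, h, mul_zero, map_zero]
    · intro h
      apply hi'
      apply hinj
      change ((z i' : L) : K) = _
      rw [hzc, h, mul_zero, map_zero]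
    · intro e v
      refine Pool.Agent.N38.IS.val_wc_span hS b v (fun j hj => ?_) e
      have h5 : wc b v (expand m (F j)) = map (algebraMap L K) (wc b v (F1 ⟨j, hj⟩)) := by
        rw [← Pool.Agent.N38.IS.wc_map, hF1 ⟨j, hj⟩]
      rw [hxz, Pool.Agent.N717.IS.val_hom
        (Pool.Agent.N717.IS.wc_hom (isForm_expand m (hF j)) b v), h5, hval, hv]
      exact mul_zero _
  · refine Or.inr ⟨fun i => (y i : K), Finset.mem_biUnion.2 ⟨j0, Finset.mem_univ _,
      Finset.mem_image_of_mem _ hy⟩, x j0, c, hc, ?_⟩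
    intro i
    have h1 := congrFun hxz i
    rw [h1]
    change x j0 * ((z i : L) : K) = _
    rw [hzy i, mul_assoc]
    rfl

theorem str_all : S_STR := Pool.Agent.N38.IS.main_IND (main_STR1 main_RIG)
  (Pool.Agent.N717.IS.main_STEP Pool.Agent.N136.IS.main_FG Pool.Agent.N645.IS.main_TRL)
  Pool.Agent.N896.IS.main_K1 Pool.Agent.N896.IS.main_KF

end Pool.Agent.N126.IS
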