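import Mathlib

/-!
Statements of the independent parts: points over rings.
-/

set_option autoImplicit false

namespace Pool.Agent.N126.IS

/-- PID: the points of projective space over a number field have coordinates in a fixed finitely
generated ring which generate the unit ideal. -/
def S_PID : Prop := ∀ (k : Type) [Field k] [CharZero k], (∀ x : k, IsAlgebraic ℚ x) →
    ∀ (n : ℕ) (T : Finset k), ∃ T' : Finset k, ∀ x : Fin (n + 1) → k, x ≠ 0 →
      (∀ i, x i ∈ Subfield.closure (T : Set k)) →
      ∃ a : k, a ≠ 0 ∧ (∀ i, a * x i ∈ Subring.closure (T' : Set k)) ∧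
        ∃ c : Fin (n + 1) → k, (∀ i, c i ∈ Subring.closure (T' : Set k)) ∧
          ∑ i, c i * (a * x i) = 1

end Pool.Agent.N126.IS
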