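import Pool.Agent.N126.IS.GL
import Pool.Agent.N126.IS.Str
import Pool.Agent.N126.IS.All3
import Pool.Agent.N323.IS.PID

/-!
Algebraic hyperbolicity and arithmetic hyperbolicity of the inverse images under power maps.
-/

set_option autoImplicit false

open FF MvPolynomial Pool.Agent.W602.GT LinearAlgebra.Projectivization
open Pool.Agent.W603.CX (OrbitsConstant AlgHyperbolic BoundedOnCurves)

namespace Pool.Agent.N126.IS

/-- `{F = 0}` is algebraically hyperbolic, with some constant. -/
def AlgHyp {k : Type} [Field k] {n : ℕ} {ι : Type} (F : ι → MvPolynomial (Fin (n + 1)) k) : Prop :=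
  ∃ A : ℕ, AlgHyperbolic A F

/-- The condition on the points over finitely generated rings, for all these rings. -/
def ArithHyp {K : Type} [Field K] {n : ℕ} {ι : Type} (F : ι → MvPolynomial (Fin (n + 1)) K) :
    Prop := ∀ T : Finset K, (RPts F T).Finite

section

variable {n m D : ℕ} {T : Finset (Fin (n + 1) →₀ ℕ)}

/-- The geometric conditions for `X` and its isotrivial parts. -/
theorem geom_all (hm : bound n T.card < m) :
    ∃ A : ℕ, ∀ (K : Type) [Field K] [IsAlgClosed K] [CharZero K] (ι : Type)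
      (F : ι → MvPolynomial (Fin (n + 1)) K), (∀ i, (F i).IsHomogeneous D) →
      (∀ i, (F i).support ⊆ T) →
      ([AlgHyperbolic A (Pre m F), BoundedOnCurves (Pre m F), OrbitsConstant (Pre m F),
        ∀ P, ¬ GmCurve (Pre m F) P, AllGeneralType (Pre m F)].TFAE ∧
      ∀ (k : Type) [Field k] [IsAlgClosed k] [Algebra k K],
        (BoundedOnCurves (Pre m F) ↔ ∀ μ : Fin (n + 1) → K, (∀ i, μ i ≠ 0) →
          BoundedOnCurves (Tr k μ (Pre m F)))) := by
  classical
  obtain ⟨A, hA⟩ := exists_unif (n := n) (m := m) (D := D) (T := T) hm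
  refine ⟨A, fun K _ _ _ ι F hF hT => ⟨?_, fun k _ _ _ => ?_⟩⟩
  · have h1 := hA K ι F hF hT
    tfae_have 1 ↔ 2 := h1.out 0 2
    tfae_have 1 ↔ 3 := h1.out 0 3
    tfae_have 1 ↔ 4 := h1.out 0 4
    tfae_have 1 ↔ 5 := h1.out 0 5
    tfae_finish
  · have h0 : CharZero k := (algebraMap k K).charZero
    have hm0 : 0 < m := (Nat.zero_le _).trans_lt hm
    have h1 : BoundedOnCurves (Pre m F) ↔ AllGeneralType (Pre m F) := (hA K ι F hF hT).out 2 5
    have h2 : AllGeneralType (Pre m F) ↔ _ := gt_iff_iso (k := k) hF hT hm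
    rw [h1, h2]
    refine forall_congr' fun μ => forall_congr' fun hμ => ?_
    have h5 := (Pool.Agent.N645.IS.main_TRL k K n m D ι F μ).2.2.2.2 hm0
    have h3 := (Pool.Agent.N645.IS.main_TRL k K n m D ι F (fun j => μ j ^ m)).2.2
    have h6 : Tr k μ (Pre m F) = fun p => expand m (Tr k (fun j => μ j ^ m) F p) := by
      funext p
      exact h5 p.1 p.2
    change AllGeneralType (Tr k μ (Pre m F)) ↔ BoundedOnCurves (Tr k μ (Pre m F))
    rw [h6]
    exact (hA k _ (Tr k (fun j => μ j ^ m) F) (h3.1 hF) fun p => (h3.2.1 p).trans (hT p.1)).out 5 2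

end

section

variable {K : Type} [Field K] [CharZero K] [IsAlgClosed K] {n m D : ℕ} {ι : Type}
  {T : Finset (Fin (n + 1) →₀ ℕ)} {F : ι → MvPolynomial (Fin (n + 1)) K}

theorem arith_all (hF : ∀ i, (F i).IsHomogeneous D) (hT : ∀ i, (F i).support ⊆ T)
    (hm : bound n T.card < m) :
    [Mordellic (Pre m F), ArithHyp (Pre m F),
      ∀ μ : Fin (n + 1) → K, (∀ i, μ i ≠ 0) →
        Mordellic (Tr (algebraicClosure ℚ K) μ (Pre m F)),
      ∀ μ : Fin (n + 1) → K, (∀ i, μ i ≠ 0) →
        ArithHyp (Tr (algebraicClosure ℚ K) μ (Pre m F))].TFAE :=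
  arith_tfae str_all Pool.Agent.N323.IS.main_PID hF hT hm

theorem conj_all (hF : ∀ i, (F i).IsHomogeneous D) (hT : ∀ i, (F i).support ⊆ T)
    (hm : bound n T.card < m)
    (h : ∀ μ : Fin (n + 1) → K, (∀ i, μ i ≠ 0) →
      (BoundedOnCurves (Tr (algebraicClosure ℚ K) μ (Pre m F)) ↔
        ArithHyp (Tr (algebraicClosure ℚ K) μ (Pre m F)))) :
    BoundedOnCurves (Pre m F) ↔ ArithHyp (Pre m F) := by
  have hac : IsAlgClosed (algebraicClosure ℚ K) := isAlgClosed_closure
  obtain ⟨A, hA⟩ := geom_all (n := n) (m := m) (D := D) (T := T) hm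
  have h2 : ArithHyp (Pre m F) ↔ ∀ μ : Fin (n + 1) → K, (∀ i, μ i ≠ 0) →
      ArithHyp (Tr (algebraicClosure ℚ K) μ (Pre m F)) := (arith_all hF hT hm).out 1 3
  rw [(hA K ι F hF hT).2 (algebraicClosure ℚ K), h2]
  exact forall_congr' fun μ => forall_congr' fun hμ => h μ hμ

theorem persist_arith (hF : ∀ i, (F i).IsHomogeneous D) (hT : ∀ i, (F i).support ⊆ T)
    (hm : bound n T.card < m) (h : ArithHyp (Pre m F)) {K' : Type} [Field K'] [IsAlgClosed K']
    [Algebra K K'] : ArithHyp (Pre m fun i => map (algebraMap K K') (F i)) := by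
  classical
  have : CharZero K' := charZero_of_injective_algebraMap (algebraMap K K').injective
  have h1 : Mordellic (Pre m F) := ((arith_all hF hT hm).out 0 1).2 h
  refine ((arith_all (F := fun i => map (algebraMap K K') (F i)) (fun i => (hF i).map _)
    (fun i => (support_map_subset _ _).trans (hT i)) hm).out 0 1).1 ?_
  exact mordellic_iff.2 (persist str_all (k0 := ℚ) hF hT hm (mordellic_iff.1 h1))

end

end Pool.Agent.N126.IS
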