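import Mathlib

/-!
Automorphisms of algebraically closed fields which map a transcendental element to another.
-/

set_option autoImplicit false

open Cardinal

namespace Pool.Agent.N126.IS

theorem exists_equiv {C Ω : Type} [Field C] [Field Ω] [Algebra C Ω] [IsAlgClosed Ω] {θ θ' : Ω}
    (h : Transcendental C θ) (h' : Transcendental C θ') :
    ∃ σ : Ω ≃+* Ω, (∀ c : C, σ (algebraMap C Ω c) = algebraMap C Ω c) ∧ σ θ = θ' := by
  classical
  have ex : ∀ x : Ω, Transcendental C x → ∃ t : Set Ω, x ∈ t ∧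
      IsTranscendenceBasis C ((↑) : t → Ω) := by
    intro x hx
    have h1 : AlgebraicIndepOn C (id : Ω → Ω) {x} := by
      unfold AlgebraicIndepOn
      rw [algebraicIndependent_unique_type_iff]
      exact hx
    obtain ⟨t, ht, hb⟩ := exists_isTranscendenceBasis_superset h1
    exact ⟨t, ht rfl, hb⟩
  obtain ⟨t, ht, hb⟩ := ex θ h
  obtain ⟨t', ht', hb'⟩ := ex θ' h'
  have hcard : #t = #t' := hb.cardinalMk_eq_trdeg.trans hb'.cardinalMk_eq_trdeg.symm
  obtain ⟨e0⟩ := Cardinal.eq.1 hcard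
  let e : t ≃ t' := e0.trans (Equiv.swap (e0 ⟨θ, ht⟩) ⟨θ', ht'⟩)
  have he : e ⟨θ, ht⟩ = ⟨θ', ht'⟩ := Equiv.swap_apply_left _ _
  let i1 : IsAlgClosure (Algebra.adjoin C (Set.range ((↑) : t → Ω))) Ω :=
    IsAlgClosed.isAlgClosure_of_transcendence_basis _ hb
  let i2 : IsAlgClosure (Algebra.adjoin C (Set.range ((↑) : t' → Ω))) Ω :=
    IsAlgClosed.isAlgClosure_of_transcendence_basis _ hb'
  let ψ : Algebra.adjoin C (Set.range ((↑) : t → Ω)) ≃ₐ[C]
      Algebra.adjoin C (Set.range ((↑) : t' → Ω)) :=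
    (hb.1.aevalEquiv.symm.trans (MvPolynomial.renameEquiv C e)).trans hb'.1.aevalEquiv
  let σ : Ω ≃+* Ω := IsAlgClosure.equivOfEquiv Ω Ω ψ.toRingEquiv
  have hσ : ∀ x : Algebra.adjoin C (Set.range ((↑) : t → Ω)), σ (x : Ω) = (ψ x : Ω) :=
    fun x => IsAlgClosure.equivOfEquiv_algebraMap Ω Ω ψ.toRingEquiv x
  refine ⟨σ, fun c => ?_, ?_⟩
  · have h1 := hσ (algebraMap C _ c)
    rw [ψ.commutes] at h1
    exact h1
  · have h1 := hσ (hb.1.aevalEquiv (MvPolynomial.X ⟨θ, ht⟩))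
    have h2 : ((hb.1.aevalEquiv (MvPolynomial.X ⟨θ, ht⟩) :
        Algebra.adjoin C (Set.range ((↑) : t → Ω))) : Ω) = θ := by
      rw [AlgebraicIndependent.aevalEquiv_apply_coe, MvPolynomial.aeval_X]
    rw [h2] at h1
    rw [h1]
    change ((hb'.1.aevalEquiv (MvPolynomial.renameEquiv C e (hb.1.aevalEquiv.symm
      (hb.1.aevalEquiv (MvPolynomial.X ⟨θ, ht⟩)))) :
        Algebra.adjoin C (Set.range ((↑) : t' → Ω))) : Ω) = θ'
    rw [AlgEquiv.symm_apply_apply, AlgebraicIndependent.aevalEquiv_apply_coe,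
      MvPolynomial.renameEquiv_apply, MvPolynomial.rename_X, he, MvPolynomial.aeval_X]

end Pool.Agent.N126.IS
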