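import Pool.Agent.W602.GT.MordDefs

/-!
Points over function fields, and translates of constant points: definitions.
-/

set_option autoImplicit false

open Pool.Agent.W602.GT LinearAlgebra.Projectivization

namespace Pool.Agent.N126.IS

variable {n : ℕ} {ι κ : Type}

/-- The cone over `X ∖ Z`, where `X = {F = 0}` and `Z = {G = 0}` in the projective `n`-space. -/
def Off {K : Type} [Field K] (F : ι → MvPolynomial (Fin (n + 1)) K)
    (G : κ → MvPolynomial (Fin (n + 1)) K) : Set (Fin (n + 1) → K) :=
  {x | x ∈ Cone F ∧ ∃ j, val x (G j) ≠ 0}

/-- The points represented by vectors in `V` with coordinates in the field generated by `T` over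
`k`. -/
def PtsOver (k : Type) {K : Type} [Field k] [Field K] [Algebra k K] (V : Set (Fin (n + 1) → K))
    (T : Finset K) : Set (ℙ K (Fin (n + 1) → K)) :=
  {p | ∃ x ∈ V, (∀ i, x i ∈ IntermediateField.adjoin k (T : Set K)) ∧
    ∃ hx : x ≠ 0, p = Projectivization.mk K x hx}

/-- Only finitely many points in `V` over each field generated by finitely many elements over
`k`. -/
def FinPts (k : Type) {K : Type} [Field k] [Field K] [Algebra k K]
    (V : Set (Fin (n + 1) → K)) : Prop :=
  ∀ T : Finset K, (PtsOver k V T).Finite

/-- The points `c` over `k` of the projective `n`-space such that the point with the coordinates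
`μ i * c i` is in `V`. -/
def TransPts (k : Type) {K : Type} [Field k] [Field K] [Algebra k K] (V : Set (Fin (n + 1) → K))
    (μ : Fin (n + 1) → K) : Set (ℙ k (Fin (n + 1) → k)) :=
  {p | ∃ (c : Fin (n + 1) → k) (hc : c ≠ 0), (fun i => μ i * algebraMap k K (c i)) ∈ V ∧
    p = Projectivization.mk k c hc}

/-- For all `μ` with nonzero coordinates there are only finitely many points `c` over `k` such that
the point with the coordinates `μ i * c i` is in `V`. -/
def FinTrans (k : Type) {K : Type} [Field k] [Field K] [Algebra k K]
    (V : Set (Fin (n + 1) → K)) : Prop :=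
  ∀ μ : Fin (n + 1) → K, (∀ i, μ i ≠ 0) → (TransPts k V μ).Finite

end Pool.Agent.N126.IS
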