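import Pool.Agent.W602.RG.All
import Pool.Agent.W602.GT.PsDefs
import Pool.Agent.W602.GT.Ps

/-!
A point over a constant field extension: orbits, or products of constants of the two kinds.
-/

set_option autoImplicit false

open FF MvPolynomial Pool.Agent.W603.LV Pool.Agent.W603.PV Pool.Agent.W602.RG Pool.Agent.W602.GT

namespace Pool.Agent.N126.IS

variable {L Ω E : Type} [Field L] [Field Ω] [Field E] [Algebra L E] [Algebra Ω E]

theorem rel_mul {D : Derivation L E E} {x y : E} (hx : Rel Ω D x 1) (hy : Rel Ω D y 1) :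
    Rel Ω D (x * y) 1 := by
  obtain ⟨ω, e, hω, he, hD, hx⟩ := hx
  obtain ⟨ω', e', hω', he', hD', hy⟩ := hy
  refine ⟨ω * ω', e * e', mul_ne_zero hω hω', mul_ne_zero he he', ?_, ?_⟩
  · rw [D.leibniz, hD, hD']; simp
  · rw [hx, hy, map_mul]; ring

theorem rel_inv {D : Derivation L E E} {x : E} (hx : Rel Ω D x 1) : Rel Ω D x⁻¹ 1 := by
  obtain ⟨ω, e, hω, he, hD, hx⟩ := hx
  refine ⟨ω⁻¹, e⁻¹, inv_ne_zero hω, inv_ne_zero he, D_inv_zero D he hD, ?_⟩
  rw [hx, map_inv₀, mul_one, mul_one, mul_inv]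

/-- the classes are torsion free -/
theorem rel_root [IsAlgClosed Ω] [CharZero E] {D : Derivation L E E} {x : E} (hx0 : x ≠ 0) {r : ℕ}
    (hr : 0 < r) (hx : Rel Ω D (x ^ r) 1) : Rel Ω D x 1 := by
  obtain ⟨ω, e, hω, he, hD, hx⟩ := hx
  obtain ⟨ω', hω'⟩ := IsAlgClosed.exists_pow_nat_eq ω hr
  have hω0 : ω' ≠ 0 := by
    rintro rfl
    rw [zero_pow hr.ne'] at hω'
    exact hω hω'.symm
  have hωE : algebraMap Ω E ω' ≠ 0 := (map_ne_zero _).2 hω0
  have h1 : (x / algebraMap Ω E ω') ^ r = e := by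
    rw [div_pow, hx, mul_one, ← map_pow, hω', mul_comm, mul_div_assoc, div_self, mul_one]
    exact (map_ne_zero _).2 hω
  have h2 : D (x / algebraMap Ω E ω') = 0 := by
    have h3 := congrArg D h1
    rw [D.leibniz_pow, hD, nsmul_eq_mul, smul_eq_mul] at h3
    rcases mul_eq_zero.1 h3 with h4 | h4
    · exact absurd (Nat.cast_eq_zero.1 h4) hr.ne'
    · rcases mul_eq_zero.1 h4 with h5 | h5
      · exact absurd h5 (pow_ne_zero _ (div_ne_zero hx0 hωE))
      · exact h5
  refine ⟨ω', x / algebraMap Ω E ω', hω0, div_ne_zero hx0 hωE, h2, ?_⟩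
  field_simp

/-- The parts of the equations vanish for some weights, or the coordinates are products of elements
of `Ω` and constants of `D`. -/
theorem dichotomy [CharZero L] [CharZero Ω] [CharZero E] [IsAlgClosed Ω] [IsFF Ω E]
    (D : Derivation L E E) (hreg : ∀ P : Place Ω E, Reg0 D P ∨ Mov D P) {n m : ℕ} {ι : Type}
    (F : ι → MvPolynomial (Fin (n + 1)) L) (hm : 0 < m)
    (hdiv : ∀ e, ∀ α ∈ (F e).support, ∀ j, m ∣ α j)
    (hcard : ∀ e, ((F e).support.card - 1) ^ 2 ≤ m) (f : Fin (n + 1) → E)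
    (hf : ∀ e, val f (F e) = 0) (j0 : Fin (n + 1)) (hj0 : f j0 = 1) :
    (∃ (b : Fin (n + 1) → ℤ) (i i' : Fin (n + 1)), f i ≠ 0 ∧ f i' ≠ 0 ∧ b i ≠ b i' ∧
      ∀ e v, val f (wc b v (F e)) = 0) ∨
    ∃ (ω : Fin (n + 1) → Ω) (c : Fin (n + 1) → E), (∀ i, c i ≠ 0) ∧ (∀ i, D (c i) = 0) ∧
      (∀ i, f i = c i * algebraMap Ω E (ω i)) ∧ ω j0 = 1 := by
  classical
  -- monomials
  let M : (Fin (n + 1) →₀ ℕ) → E := fun α => ∏ j, f j ^ α j
  let J : ι → Finset (Fin (n + 1) →₀ ℕ) := fun e =>
    (F e).support.filter fun α => ∀ j, α j ≠ 0 → f j ≠ 0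
  have hJ : ∀ e α, α ∈ J e ↔ α ∈ (F e).support ∧ ∀ j, α j ≠ 0 → f j ≠ 0 := fun e α => by
    simp only [J, Finset.mem_filter]
  have hM0 : ∀ e, ∀ α ∈ J e, M α ≠ 0 := by
    intro e α hα
    refine Finset.prod_ne_zero_iff.2 fun j _ => ?_
    by_cases h0 : α j = 0
    · rw [h0, pow_zero]; exact one_ne_zero
    · exact pow_ne_zero _ (((hJ e α).1 hα).2 j h0)
  have hMz : ∀ e, ∀ α ∈ (F e).support, α ∉ J e → M α = 0 := by
    intro e α hα hαJ
    have h3 : ¬ ∀ j, α j ≠ 0 → f j ≠ 0 := fun h => hαJ ((hJ e α).2 ⟨hα, h⟩)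
    push Not at h3
    obtain ⟨j, hj, hxj⟩ := h3
    refine Finset.prod_eq_zero (Finset.mem_univ j) ?_
    rw [hxj, zero_pow hj]
  have hsum : ∀ e, ∑ α ∈ J e, algebraMap L E ((F e).coeff α) * M α = 0 := by
    intro e
    have h1 := hf e
    rw [val_eq_sum] at h1
    rw [← h1]
    apply Finset.sum_subset (Finset.filter_subset _ _)
    intro α hα hαJ
    rw [hMz e α hα hαJ, mul_zero]
  -- orders at moving places
  have hclass : ∀ e (α0 : Fin (n + 1) →₀ ℕ) (T : Finset (Fin (n + 1) →₀ ℕ)), α0 ∈ J e →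
      (∀ α, α ∈ T ↔ α ∈ J e ∧ Rel Ω D (M α) (M α0)) →
      ∑ α ∈ T, algebraMap L E ((F e).coeff α) * M α = 0 := by
    intro e α0 T h0 hT
    refine cls_all L Ω E (Fin (n + 1) →₀ ℕ) D hreg (J e) m hm ?_ M
      (fun α => algebraMap L E ((F e).coeff α)) (hM0 e) (fun α _ => D.map_algebraMap _) (hsum e)
      ?_ α0 T h0 hT
    · have h1 : (J e).card ≤ (F e).support.card := Finset.card_filter_le _ _
      exact (Nat.pow_le_pow_left (by omega) 2).trans (hcard e)
    · intro P _
      have h2 : ∀ α ∈ J e, (m : ℤ) ∣ P.ord (M α) := by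
        intro α hα
        change (m : ℤ) ∣ P.ord (∏ j, f j ^ α j)
        rw [ord_prod P _ _ _ (fun j _ h => ((hJ e α).1 hα).2 j h)]
        apply Finset.dvd_sum
        intro j _
        obtain ⟨t, ht⟩ := hdiv e α ((hJ e α).1 hα).1 j
        exact ⟨t * P.ord (f j), by rw [ht]; push_cast; ring⟩
      intro α hα β hβ
      exact dvd_sub (h2 α hα) (h2 β hβ)
  -- the group of relations
  let u : Fin (n + 1) → E := fun j => if f j = 0 then 1 else f j
  have hu0 : ∀ j, u j ≠ 0 := by
    intro j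
    simp only [u]
    split_ifs with h
    · exact one_ne_zero
    · exact h
  have hMu : ∀ e, ∀ α ∈ J e, M α = ∏ j, u j ^ (α j : ℤ) := by
    intro e α hα
    refine Finset.prod_congr rfl fun j _ => ?_
    rw [zpow_natCast]
    by_cases h0 : α j = 0
    · rw [h0, pow_zero, pow_zero]
    · simp only [u]
      rw [if_neg (((hJ e α).1 hα).2 j h0)]
  let R : AddSubgroup (Fin (n + 1) → ℤ) :=
    { carrier := {q | Rel Ω D (∏ j, u j ^ q j) 1}
      zero_mem' := by
        change Rel Ω D (∏ j, u j ^ (0 : ℤ)) 1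
        simp only [zpow_zero, Finset.prod_const_one]
        exact Rel.refl' D 1
      add_mem' := by
        intro q q' hq hq'
        change Rel Ω D (∏ j, u j ^ (q j + q' j)) 1
        have h1 : ∏ j, u j ^ (q j + q' j) = (∏ j, u j ^ q j) * ∏ j, u j ^ q' j := by
          rw [← Finset.prod_mul_distrib]
          exact Finset.prod_congr rfl fun j _ => zpow_add₀ (hu0 j) _ _
        rw [h1]
        exact rel_mul hq hq'
      neg_mem' := by
        intro q hq
        change Rel Ω D (∏ j, u j ^ (-q j)) 1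
        have h1 : ∏ j, u j ^ (-q j) = (∏ j, u j ^ q j)⁻¹ := by
          rw [← Finset.prod_inv_distrib]
          exact Finset.prod_congr rfl fun j _ => zpow_neg _ _
        rw [h1]
        exact rel_inv hq }
  have hR : ∀ q, q ∈ R ↔ Rel Ω D (∏ j, u j ^ q j) 1 := fun q => Iff.rfl
  let S : Set (Fin (n + 1) → ℚ) := {x | ∃ q ∈ R, x = fun j => (q j : ℚ)}
  have hspan : ∀ x ∈ Submodule.span ℚ S, ∃ (N : ℕ) (q : Fin (n + 1) → ℤ), 0 < N ∧ q ∈ R ∧
      (N : ℚ) • x = fun j => (q j : ℚ) := by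
    intro x hx
    induction hx using Submodule.span_induction with
    | mem x hx =>
      obtain ⟨q, hq, rfl⟩ := hx
      exact ⟨1, q, one_pos, hq, by simp⟩
    | zero => exact ⟨1, 0, one_pos, R.zero_mem, by simp; rfl⟩
    | add x y _ _ hx hy =>
      obtain ⟨N, q, hN, hq, h⟩ := hx
      obtain ⟨N', q', hN', hq', h'⟩ := hy
      refine ⟨N * N', N' • q + N • q', Nat.mul_pos hN hN',
        R.add_mem (R.nsmul_mem hq _) (R.nsmul_mem hq' _), ?_⟩
      funext j
      have h1 := congrFun h j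
      have h2 := congrFun h' j
      simp only [Pi.smul_apply, smul_eq_mul] at h1 h2
      change ((N * N' : ℕ) : ℚ) * (x j + y j) = (((N' : ℕ) • q j + N • q' j : ℤ) : ℚ)
      rw [nsmul_eq_mul, nsmul_eq_mul]
      push_cast
      rw [← h1, ← h2]
      ring
    | smul r x _ hx =>
      obtain ⟨N, q, hN, hq, h⟩ := hx
      refine ⟨N * r.den, r.num • q, Nat.mul_pos hN r.den_pos, R.zsmul_mem hq _, ?_⟩
      funext j
      have h1 := congrFun h j
      simp only [Pi.smul_apply, smul_eq_mul] at h1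
      simp only [Pi.smul_apply, smul_eq_mul]
      push_cast
      rw [← h1]
      have h2 : (r.den : ℚ) * r = r.num := by
        rw [mul_comm]; exact Rat.mul_den_eq_num r
      linear_combination (N : ℚ) * x j * h2
  let W : Submodule ℚ (Fin (n + 1) → ℚ) := Submodule.span ℚ S
  let a : Fin (n + 1) → (Fin (n + 1) → ℚ) ⧸ W := fun j => W.mkQ (Pi.single j 1)
  have ha : ∀ q ∈ (R : Set (Fin (n + 1) → ℤ)), ∑ j, q j • a j = 0 := by
    intro q hq
    have h1 : ∑ j, q j • a j = W.mkQ (fun j => (q j : ℚ)) := by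
      have h2 : (fun j => (q j : ℚ)) = ∑ j, q j • (Pi.single j (1 : ℚ) : Fin (n + 1) → ℚ) := by
        funext i
        rw [Finset.sum_apply]
        simp only [Pi.smul_apply, zsmul_eq_mul]
        rw [Finset.sum_eq_single i]
        · simp
        · intro j _ hj
          rw [Pi.single_eq_of_ne (Ne.symm hj), mul_zero]
        · intro h; exact absurd (Finset.mem_univ _) h
      rw [h2, map_sum]
      refine Finset.sum_congr rfl fun j _ => ?_
      rw [map_zsmul]
    rw [h1, Submodule.mkQ_apply, Submodule.Quotient.mk_eq_zero]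
    exact Submodule.subset_span ⟨q, hq, rfl⟩
  by_cases hcase : ∀ i, f i ≠ 0 → a i = a j0
  · right
    have hrel : ∀ i, f i ≠ 0 → Rel Ω D (f i) 1 := by
      intro i hi
      have h1 := hcase i hi
      rw [← sub_eq_zero] at h1
      change W.mkQ _ - W.mkQ _ = 0 at h1
      rw [← map_sub, Submodule.mkQ_apply, Submodule.Quotient.mk_eq_zero] at h1
      obtain ⟨N, q, hN, hq, h2⟩ := hspan _ h1
      rw [hR] at hq
      apply rel_root (r := N) hi hN
      have h3 : ∏ j, u j ^ q j = f i ^ N := by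
        have hq' : ∀ j, q j = (N : ℤ) * ((if j = i then 1 else 0) - if j = j0 then 1 else 0) := by
          intro j
          have h4 := congrFun h2 j
          simp only [Pi.smul_apply, Pi.sub_apply, smul_eq_mul, Pi.single_apply] at h4
          have h5 : ((q j : ℤ) : ℚ) = (((N : ℤ) * ((if j = i then 1 else 0) -
              if j = j0 then 1 else 0) : ℤ) : ℚ) := by
            rw [← h4]
            push_cast
            rfl
          exact_mod_cast h5
        have huj0 : u j0 = 1 := by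
          simp only [u]
          rw [if_neg (by rw [hj0]; exact one_ne_zero), hj0]
        have hui : u i = f i := by simp only [u]; rw [if_neg hi]
        rw [← Finset.prod_erase_mul _ _ (Finset.mem_univ i)]
        have h6 : ∏ j ∈ Finset.univ.erase i, u j ^ q j = 1 := by
          apply Finset.prod_eq_one
          intro j hj
          by_cases hjj : j = j0
          · rw [hjj, huj0, one_zpow]
          · rw [hq' j, if_neg (Finset.ne_of_mem_erase hj), if_neg hjj, sub_zero, mul_zero, zpow_zero]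
        rw [h6, one_mul, hui]
        by_cases hij : i = j0
        · rw [hij, hj0, one_zpow, one_pow]
        · rw [hq' i, if_pos rfl, if_neg hij, sub_zero, mul_one, zpow_natCast]
      rw [← h3]
      exact hq
    have hex : ∀ i, ∃ (ω : Ω) (c : E), c ≠ 0 ∧ D c = 0 ∧ f i = c * algebraMap Ω E ω ∧
        (i = j0 → ω = 1) := by
      intro i
      by_cases hij : i = j0
      · refine ⟨1, 1, one_ne_zero, D.map_one_eq_zero, ?_, fun _ => rfl⟩
        rw [hij, hj0, map_one, one_mul]
      · by_cases hi : f i = 0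
        · refine ⟨0, 1, one_ne_zero, D.map_one_eq_zero, ?_, fun h => absurd h hij⟩
          rw [hi, map_zero, mul_zero]
        · obtain ⟨ω, e, hω, he, hDe, h⟩ := hrel i hi
          refine ⟨ω, e, he, hDe, ?_, fun h => absurd h hij⟩
          rw [h, mul_one, mul_comm]
    choose ω c h1 h2 h3 h4 using hex
    exact ⟨ω, c, h1, h2, h3, h4 j0 rfl⟩
  · left
    push Not at hcase
    obtain ⟨i, hi, hne⟩ := hcase
    obtain ⟨b, hb, hbR⟩ := Pool.Agent.W150.RG.QLF.main ((Fin (n + 1) → ℚ) ⧸ W) (n + 1) a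
      (R : Set (Fin (n + 1) → ℤ)) ha i j0 hne
    refine ⟨b, i, j0, hi, by rw [hj0]; exact one_ne_zero, hb, fun e v => ?_⟩
    rw [val_wc]
    let T : Finset (Fin (n + 1) →₀ ℕ) := (J e).filter fun α => ∑ j, (α j : ℤ) * b j = v
    have hTJ : T ⊆ J e := Finset.filter_subset _ _
    have h1 : ∑ α ∈ T, algebraMap L E ((F e).coeff α) * M α = 0 := by
      refine sum_classes (Ω := Ω) D (J e) M (fun α => algebraMap L E ((F e).coeff α))
        (hclass e) T hTJ ?_
      intro α hα β hβ hrel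
      refine Finset.mem_filter.2 ⟨hα, ?_⟩
      have hq : (fun j => (α j : ℤ) - β j) ∈ R := by
        rw [hR]
        have h2 : ∏ j, u j ^ ((α j : ℤ) - β j) = M α / M β := by
          rw [hMu e α hα, hMu e β (hTJ hβ), ← Finset.prod_div_distrib]
          exact Finset.prod_congr rfl fun j _ => zpow_sub₀ (hu0 j) _ _
        rw [h2]
        obtain ⟨ω, e', hω, he', hDe, h⟩ := hrel
        refine ⟨ω, e', hω, he', hDe, ?_⟩
        rw [h, mul_div_assoc, div_self (hM0 e β (hTJ hβ))]
      have h2 := hbR _ hq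
      have h3 := (Finset.mem_filter.1 hβ).2
      rw [← h3]
      have h4 : ∑ l, ((α l : ℤ) - β l) * b l = ∑ l, (α l : ℤ) * b l - ∑ l, (β l : ℤ) * b l := by
        rw [← Finset.sum_sub_distrib]
        exact Finset.sum_congr rfl fun l _ => by ring
      rw [h4] at h2
      omega
    rw [← h1]
    symm
    apply Finset.sum_subset
    · intro α hα
      have h6 := Finset.mem_filter.1 hα
      exact Finset.mem_filter.2 ⟨((hJ e α).1 h6.1).1, h6.2⟩
    · intro α hα hαT
      have h6 := Finset.mem_filter.1 hα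
      have h7 : α ∉ J e := fun h => hαT (Finset.mem_filter.2 ⟨h, h6.2⟩)
      change algebraMap L E ((F e).coeff α) * M α = 0
      rw [hMz e α h6.1 h7, mul_zero]

end Pool.Agent.N126.IS
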