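import Pool.Agent.N126.IS.Main
import Pool.Agent.W602.GT.Mord

/-!
Consequences for the conjecture of Lang and Vojta.
-/

set_option autoImplicit false

open FF MvPolynomial Pool.Agent.W602.GT LinearAlgebra.Projectivization

namespace Pool.Agent.N126.IS

variable {k K : Type} [Field k] [Field K] [Algebra k K] {n : ℕ} {ι κ : Type}

/-- the translates of the constant points are points over finitely generated fields -/
theorem trans_of_pts {V : Set (Fin (n + 1) → K)} (h : FinPts k V) : FinTrans k V := by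
  classical
  intro μ hμ
  have hne : ∀ c : Fin (n + 1) → k, c ≠ 0 → (fun i => μ i * algebraMap k K (c i)) ≠ 0 := by
    intro c hc h0
    apply hc
    funext i
    have h1 := congrFun h0 i
    simp only [Pi.zero_apply] at h1
    exact (map_eq_zero _).1 ((mul_eq_zero.1 h1).resolve_left (hμ i))
  let ψ : ℙ k (Fin (n + 1) → k) → ℙ K (Fin (n + 1) → K) := fun p =>
    Projectivization.mk K _ (hne p.rep p.rep_nonzero)
  have hψ : ∀ (c : Fin (n + 1) → k) (hc : c ≠ 0),
      ψ (Projectivization.mk k c hc) = Projectivization.mk K _ (hne c hc) := by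
    intro c hc
    obtain ⟨a, ha⟩ := Projectivization.exists_smul_eq_mk_rep k c hc
    change Projectivization.mk K _ _ = Projectivization.mk K _ _
    rw [Projectivization.mk_eq_mk_iff']
    refine ⟨algebraMap k K a, ?_⟩
    funext i
    rw [← ha]
    simp only [Pi.smul_apply, Units.smul_def, smul_eq_mul, map_mul]
    ring
  have hinj : Function.Injective ψ := by
    intro p q hpq
    induction p using Projectivization.ind with | h c hc
    induction q using Projectivization.ind with | h d hd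
    rw [hψ, hψ, Projectivization.mk_eq_mk_iff'] at hpq
    obtain ⟨a, ha⟩ := hpq
    rw [Projectivization.mk_eq_mk_iff']
    have h1 : ∀ i, a * algebraMap k K (d i) = algebraMap k K (c i) := by
      intro i
      have h2 := congrFun ha i
      simp only [Pi.smul_apply, smul_eq_mul] at h2
      apply mul_left_cancel₀ (hμ i)
      rw [← h2]
      ring
    obtain ⟨i0, hi0⟩ := Function.ne_iff.1 hd
    have hi0' : d i0 ≠ 0 := hi0
    have h2 : a = algebraMap k K (c i0 / d i0) := by
      rw [map_div₀, eq_div_iff ((map_ne_zero _).2 hi0')]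
      exact h1 i0
    refine ⟨c i0 / d i0, ?_⟩
    funext i
    apply (algebraMap k K).injective
    rw [Pi.smul_apply, smul_eq_mul, map_mul, ← h2, h1]
  refine ((h (Finset.univ.image μ)).preimage hinj.injOn).subset ?_
  rintro p ⟨c, hc, hcV, rfl⟩
  rw [Set.mem_preimage, hψ]
  refine ⟨_, hcV, fun i => ?_, hne c hc, rfl⟩
  refine mul_mem (IntermediateField.subset_adjoin _ _ ?_) (IntermediateField.algebraMap_mem _ _)
  exact Finset.mem_coe.2 (Finset.mem_image_of_mem _ (Finset.mem_univ i))

theorem rat_subset (T : Finset K) (V : Set (Fin (n + 1) → K)) : RatPts V T ⊆ PtsOver k V T := by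
  rintro p ⟨x, hx, hxT, hx0, rfl⟩
  refine ⟨x, hx, fun i => ?_, hx0, rfl⟩
  have h1 : Subfield.closure (T : Set K) ≤
      (IntermediateField.adjoin k (T : Set K)).toSubfield := by
    rw [Subfield.closure_le]
    exact IntermediateField.subset_adjoin _ _
  exact h1 (hxT i)

/-- the subvarieties of `X` which are not contained in `Z` -/
theorem lang_outside [CharZero K] [IsAlgClosed K] {F : ι → MvPolynomial (Fin (n + 1)) K}
    {G : κ → MvPolynomial (Fin (n + 1)) K} {s N : ℕ} (hF : HighPowers s N F) (hN1 : 1 ≤ N)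
    (hN : n * ((s + 1) * tn (s - 1)) ≤ N) (hG : ∀ j, IsForm (G j))
    (h : FinPts k (Off F G)) {L : Type} [Field L] [Algebra K L] {w : ℕ} {y : Fin (n + 1) → L}
    (hw : 1 ≤ w) (hy : SubVar F L w y) {j : κ} (hj : val y (G j) ≠ 0) :
    PseudoMordellic K y ∧ GeneralType K L w := by
  have hsub : ∀ T : Finset K, RatPts (Cone F ∩ {x | val x (G j) ≠ 0}) T ⊆
      PtsOver k (Off F G) T := by
    intro T
    refine (rat_subset (k := k) T _).trans ?_
    rintro p ⟨x, hx, hxT, hx0, rfl⟩
    exact ⟨x, ⟨hx.1, j, hx.2⟩, hxT, hx0, rfl⟩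
  constructor
  · refine ⟨G j, ∅, hG j, hj, fun T _ => ?_⟩
    refine (h T).subset (Set.Subset.trans ?_ (hsub T))
    rintro p ⟨x, ⟨hx, hxG⟩, hxT, hx0, rfl⟩
    exact ⟨x, ⟨⟨hx.1, fun e => hx.2 _ (hF.form e) (hy.mem e)⟩, hxG⟩, hxT, hx0, rfl⟩
  · by_contra hgt
    obtain ⟨P, hP, t, -, ht⟩ := gm_through hF hN1 hN hw hy hgt (hG j) hj
    obtain ⟨T, -, hinf⟩ := infinite_points hP ht ∅
    exact hinf ((h T).subset (hsub T))

theorem tn_le (s : ℕ) : tn (s - 1) ≤ (s - 1) ^ 2 := by
  unfold tn
  rw [Fin.sum_univ_eq_sum_range (fun i => i), Finset.sum_range_id, sq]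
  exact (Nat.div_le_self _ _).trans (Nat.mul_le_mul_left _ (Nat.sub_le _ _))

theorem bound_tn {n s m : ℕ} (h : bound n s < m) : n * ((s + 1) * tn (s - 1)) ≤ m := by
  refine le_trans ?_ h.le
  unfold bound
  calc n * ((s + 1) * tn (s - 1)) ≤ (n + 1) * ((s + 1) * (s - 1) ^ 2) :=
        Nat.mul_le_mul (Nat.le_succ _) (Nat.mul_le_mul_left _ (tn_le s))
    _ = (n + 1) * (s + 1) * (s - 1) ^ 2 := by ring

theorem highPowers_expand {T : Finset (Fin (n + 1) →₀ ℕ)} {F : ι → MvPolynomial (Fin (n + 1)) K}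
    {D : ℕ} (hF : ∀ i, (F i).IsHomogeneous D) (hT : ∀ i, (F i).support ⊆ T) (m : ℕ) :
    HighPowers T.card m (fun i => expand m (F i)) := by
  classical
  right
  intro e
  have h1 := support_expand' m (F e) (hT e)
  refine ⟨⟨m * D, isForm_expand m (hF e)⟩,
    (Finset.card_le_card h1).trans Finset.card_image_le, m, le_rfl, ?_⟩
  intro α hα j _
  obtain ⟨β, -, rfl⟩ := Finset.mem_image.1 (h1 hα)
  rw [Finsupp.smul_apply, smul_eq_mul]
  exact dvd_mul_right _ _

theorem cone_eq (F : ι → MvPolynomial (Fin (n + 1)) K) :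
    Cone F = Off F fun _ : Unit => (1 : MvPolynomial (Fin (n + 1)) K) := by
  ext x
  constructor
  · intro hx
    refine ⟨hx, (), ?_⟩
    unfold val
    rw [map_one]
    exact one_ne_zero
  · exact fun hx => hx.1

/-- `X` is Mordellic and all its subvarieties are of general type -/
theorem lang_all [CharZero K] [IsAlgClosed K] {F : ι → MvPolynomial (Fin (n + 1)) K} {s N : ℕ}
    (hF : HighPowers s N F) (hN1 : 1 ≤ N) (hN : n * ((s + 1) * tn (s - 1)) ≤ N)
    (h : FinPts k (Cone F)) : Mordellic F ∧ AllGeneralType F := by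
  refine ⟨⟨∅, fun T _ => (h T).subset (rat_subset T _)⟩, ?_⟩
  rw [cone_eq] at h
  intro L _ _ w y hw hy
  refine (lang_outside hF hN1 hN (fun _ => ⟨0, isHomogeneous_one _ _⟩) h hw hy (j := ()) ?_).2
  unfold val
  rw [map_one]
  exact one_ne_zero

end Pool.Agent.N126.IS
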