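import Pool.Agent.N126.IS.Stm
import Pool.Agent.W602.GT.PsDefs
import Pool.Agent.W603.LV.Hgt

/-!
Statements of the independent parts: arbitrary transcendence degree.
-/

set_option autoImplicit false

open FF Pool.Agent.W603.LV Pool.Agent.W602.GT LinearAlgebra.Projectivization MvPolynomial

namespace Pool.Agent.N126.IS

variable {n : ℕ} {ι : Type}

/-- All the parts of the equations with respect to some weights, which are not constant on the
support of `z`, vanish at `z`: an orbit of a one-parameter group through `z` is in `{F = 0}`. -/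
def Orb {K : Type} [Field K] (F : ι → MvPolynomial (Fin (n + 1)) K) (z : Fin (n + 1) → K) :
    Prop :=
  ∃ (b : Fin (n + 1) → ℤ) (i i' : Fin (n + 1)), z i ≠ 0 ∧ z i' ≠ 0 ∧ b i ≠ b i' ∧
    ∀ e v, val z (wc b v (F e)) = 0

/-- The points of `{F = 0}` over each field generated over `k` by finitely many elements are on
orbits in `{F = 0}` or in finitely many translates of the set of the points over `k`. -/
def Struct (k : Type) {K : Type} [Field k] [Field K] [Algebra k K]
    (F : ι → MvPolynomial (Fin (n + 1)) K) : Prop :=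
  ∀ T0 : Finset K, ∃ S : Finset (Fin (n + 1) → K), ∀ x : Fin (n + 1) → K, x ≠ 0 →
    (∀ i, x i ∈ IntermediateField.adjoin k (T0 : Set K)) → (∀ e, val x (F e) = 0) →
    Orb F x ∨ ∃ y ∈ S, ∃ (a : K) (c : Fin (n + 1) → k), (∀ i, c i ≠ 0) ∧
      ∀ i, x i = a * y i * algebraMap k K (c i)

/-- The equation over `k` of the `c` with `G (μ c) = 0`, given by a linear function `φ`. -/
noncomputable def tr {k K : Type} [Field k] [Field K] [Algebra k K] (μ : Fin (n + 1) → K)
    (G : MvPolynomial (Fin (n + 1)) K) (φ : K →ₗ[k] k) : MvPolynomial (Fin (n + 1)) k :=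
  ∑ α ∈ G.support, monomial α (φ (G.coeff α * ∏ i, μ i ^ α i))

/-- The system of the equations over `k` of the `c` with `F (μ c) = 0`. -/
noncomputable def Tr (k : Type) {K : Type} [Field k] [Field K] [Algebra k K]
    (μ : Fin (n + 1) → K) (F : ι → MvPolynomial (Fin (n + 1)) K) :
    ι × (K →ₗ[k] k) → MvPolynomial (Fin (n + 1)) k :=
  fun p => tr μ (F p.1) p.2

/-- For all `μ` with nonzero coordinates there are only finitely many points `c` over each finite
extension of `k0` such that the point with the coordinates `μ i * c i` is in `V`. -/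
def FinIso (k0 : Type) {K : Type} [Field k0] [Field K] [Algebra k0 K]
    (V : Set (Fin (n + 1) → K)) : Prop :=
  ∀ μ : Fin (n + 1) → K, (∀ i, μ i ≠ 0) → ∀ T : Finset K, (∀ t ∈ T, IsAlgebraic k0 t) →
    (PtsOver k0 {c | (fun i => μ i * c i) ∈ V} T).Finite

/-- FG: subextensions of finitely generated field extensions are finitely generated. -/
def S_FG : Prop := ∀ (k K : Type) [Field k] [CharZero k] [Field K] [Algebra k K] (T : Finset K)
    (E : IntermediateField k K), E ≤ IntermediateField.adjoin k (T : Set K) →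
    ∃ S : Finset K, E = IntermediateField.adjoin k (S : Set K)

/-- K1: an algebraically closed field between `k` and `K`. -/
def S_K1 : Prop := ∀ (k K : Type) [Field k] [Field K] [IsAlgClosed K] [Algebra k K] (r : ℕ),
    Algebra.trdeg k K = r + 1 → ∃ E : IntermediateField k K, IsAlgClosed E ∧
      Algebra.trdeg k E = r ∧ Algebra.trdeg E K = 1

/-- KF: finitely many elements are in an algebraically closed field of finite transcendence
degree. -/
def S_KF : Prop := ∀ (k K : Type) [Field k] [Field K] [IsAlgClosed K] [Algebra k K]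
    (T : Finset K), ∃ (E : IntermediateField k K) (r : ℕ), IsAlgClosed E ∧
      Algebra.trdeg k E = r ∧ (T : Set K) ⊆ E

/-- RIG: points of bounded height over a function field, up to translation by constant points. -/
def S_RIG : Prop := ∀ (k L : Type) [Field k] [IsAlgClosed k] [CharZero k] [Field L] [Algebra k L]
    [IsFF k L] (n m : ℕ) (ι : Type) [Finite ι] (F : ι → MvPolynomial (Fin (n + 1)) L), 0 < m →
    (∀ e, ∀ α ∈ (F e).support, ∀ j, m ∣ α j) → (∀ e, ((F e).support.card - 1) ^ 2 ≤ m) →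
    ∀ (j0 : Fin (n + 1)) (B : ℤ), ∃ S : Finset (Fin (n + 1) → L), ∀ z : Fin (n + 1) → L,
      z j0 = 1 → (∀ e, val z (F e) = 0) → ¬ Orb F z → (∀ j, hgt k (z j) ≤ B) →
      ∃ y ∈ S, ∃ c : Fin (n + 1) → k, (∀ i, c i ≠ 0) ∧ ∀ i, z i = y i * algebraMap k L (c i)

/-- STR1: the structure of the set of points in transcendence degree one. -/
def S_STR1 : Prop := ∀ (k K : Type) [Field k] [IsAlgClosed k] [CharZero k] [Field K]
    [IsAlgClosed K] [Algebra k K], Algebra.trdeg k K = 1 →
    ∀ (n m D : ℕ) (ι : Type) (T : Finset (Fin (n + 1) →₀ ℕ))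
    (F : ι → MvPolynomial (Fin (n + 1)) K), (∀ i, (F i).IsHomogeneous D) →
    (∀ i, (F i).support ⊆ T) → bound n T.card < m → Struct k (fun i => expand m (F i))

/-- STR: the structure of the set of points. -/
def S_STR : Prop := ∀ (k K : Type) [Field k] [IsAlgClosed k] [CharZero k] [Field K]
    [IsAlgClosed K] [Algebra k K] (n m D : ℕ) (ι : Type) (T : Finset (Fin (n + 1) →₀ ℕ))
    (F : ι → MvPolynomial (Fin (n + 1)) K), (∀ i, (F i).IsHomogeneous D) →
    (∀ i, (F i).support ⊆ T) → bound n T.card < m → Struct k (fun i => expand m (F i))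

/-- STEP: the induction step. -/
def S_STEP : Prop := ∀ (k k1 K : Type) [Field k] [CharZero k] [Field k1] [Field K] [Algebra k k1]
    [Algebra k1 K] [Algebra k K] [IsScalarTower k k1 K] (n m D : ℕ)
    (T : Finset (Fin (n + 1) →₀ ℕ)), 0 < m →
    (∀ (ι : Type) (F : ι → MvPolynomial (Fin (n + 1)) k1), (∀ i, (F i).IsHomogeneous D) →
      (∀ i, (F i).support ⊆ T) → Struct k (fun i => expand m (F i))) →
    ∀ (ι : Type) (F : ι → MvPolynomial (Fin (n + 1)) K), (∀ i, (F i).IsHomogeneous D) →
      (∀ i, (F i).support ⊆ T) → Struct k1 (fun i => expand m (F i)) →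
      Struct k (fun i => expand m (F i))

/-- EQV: finiteness, from the structure. -/
def S_EQV : Prop := ∀ (k0 K : Type) [Field k0] [CharZero k0] [Field K] [IsAlgClosed K]
    [Algebra k0 K] (n : ℕ) (ι κ : Type) (F : ι → MvPolynomial (Fin (n + 1)) K)
    (G : κ → MvPolynomial (Fin (n + 1)) K), (∀ i, IsForm (F i)) → (∀ j, IsForm (G j)) →
    Struct (algebraicClosure k0 K) F → FinIso k0 (Off F G) → FinPts k0 (Off F G)

/-- TRL: the equations of the `c` with `F (μ c) = 0`. -/
def S_TRL : Prop := ∀ (k K : Type) [Field k] [Field K] [Algebra k K] (n m D : ℕ) (ι : Type)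
    (F : ι → MvPolynomial (Fin (n + 1)) K) (μ : Fin (n + 1) → K),
    (∀ c : Fin (n + 1) → k, (∀ p, val c (Tr k μ F p) = 0) ↔
      ∀ i, val (fun j => μ j * algebraMap k K (c j)) (F i) = 0) ∧
    (∀ (b : Fin (n + 1) → ℤ) (v : ℤ) (c : Fin (n + 1) → k),
      (∀ p, val c (wc b v (Tr k μ F p)) = 0) ↔
      ∀ i, val (fun j => μ j * algebraMap k K (c j)) (wc b v (F i)) = 0) ∧
    ((∀ i, (F i).IsHomogeneous D) → ∀ p, (Tr k μ F p).IsHomogeneous D) ∧
    (∀ p, (Tr k μ F p).support ⊆ (F p.1).support) ∧
    (0 < m → ∀ (i : ι) (φ : K →ₗ[k] k), Tr k μ (fun i => expand m (F i)) (i, φ) =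
      expand m (Tr k (fun j => μ j ^ m) F (i, φ)))

/-- SPZ: a form of the Nullstellensatz. -/
def S_SPZ : Prop := ∀ (k K : Type) [Field k] [IsAlgClosed k] [Field K] [Algebra k K] (n : ℕ)
    (μ : Fin n → K), (∀ i, μ i ≠ 0) → ∃ μ0 : Fin n → k, (∀ i, μ0 i ≠ 0) ∧
      ∀ P : MvPolynomial (Fin n) k, aeval μ P = 0 → eval μ0 P = 0

end Pool.Agent.N126.IS
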