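import Pool.Agent.N126.IS.Final
import Pool.Agent.N126.IS.Stm2
import Pool.Agent.W602.GT.Cls

/-!
Consequences of the structure theorem for the conjecture of Lang and Vojta.
-/

set_option autoImplicit false

open FF MvPolynomial Pool.Agent.W602.GT LinearAlgebra.Projectivization

namespace Pool.Agent.N126.IS

section

variable {k0 K : Type} [Field k0] [Field K] [Algebra k0 K] {n : ℕ} {ι κ : Type}

/-- the translates of the points over finite extensions are points over finitely generated
fields -/
theorem iso_of_pts {V : Set (Fin (n + 1) → K)} (h : FinPts k0 V) : FinIso k0 V := by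
  classical
  intro μ hμ T _
  -- the translation
  have hne : ∀ c : Fin (n + 1) → K, c ≠ 0 → (fun i => μ i * c i) ≠ 0 := by
    intro c hc h0
    apply hc
    funext i
    have h1 := congrFun h0 i
    simp only [Pi.zero_apply] at h1
    exact (mul_eq_zero.1 h1).resolve_left (hμ i)
  let ψ : ℙ K (Fin (n + 1) → K) → ℙ K (Fin (n + 1) → K) := fun p =>
    Projectivization.mk K _ (hne p.rep p.rep_nonzero)
  have hψ : ∀ (c : Fin (n + 1) → K) (hc : c ≠ 0),
      ψ (Projectivization.mk K c hc) = Projectivization.mk K _ (hne c hc) := by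
    intro c hc
    obtain ⟨a, ha⟩ := Projectivization.exists_smul_eq_mk_rep K c hc
    change Projectivization.mk K _ _ = Projectivization.mk K _ _
    rw [Projectivization.mk_eq_mk_iff']
    refine ⟨a, ?_⟩
    funext i
    rw [← ha]
    simp only [Pi.smul_apply, Units.smul_def, smul_eq_mul]
    ring
  have hinj : Function.Injective ψ := by
    intro p q hpq
    induction p using Projectivization.ind with | h c hc
    induction q using Projectivization.ind with | h d hd
    rw [hψ, hψ, Projectivization.mk_eq_mk_iff'] at hpq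
    obtain ⟨a, ha⟩ := hpq
    rw [Projectivization.mk_eq_mk_iff']
    refine ⟨a, ?_⟩
    funext i
    have h2 := congrFun ha i
    simp only [Pi.smul_apply, smul_eq_mul] at h2
    apply mul_left_cancel₀ (hμ i)
    rw [Pi.smul_apply, smul_eq_mul, ← h2]
    ring
  refine ((h (T ∪ Finset.univ.image μ)).preimage hinj.injOn).subset ?_
  rintro p ⟨c, hcV, hcT, hc, rfl⟩
  rw [Set.mem_preimage, hψ]
  refine ⟨_, hcV, fun i => ?_, hne c hc, rfl⟩
  have h1 : μ i ∈ IntermediateField.adjoin k0 ((T ∪ Finset.univ.image μ : Finset K) : Set K) :=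
    IntermediateField.subset_adjoin _ _ (Finset.mem_coe.2
      (Finset.mem_union_right _ (Finset.mem_image_of_mem _ (Finset.mem_univ i))))
  have h2 : c i ∈ IntermediateField.adjoin k0 ((T ∪ Finset.univ.image μ : Finset K) : Set K) :=
    IntermediateField.adjoin.mono _ _ _ (Finset.coe_subset.2 Finset.subset_union_left) (hcT i)
  exact mul_mem h1 h2

theorem pts_mono {V : Set (Fin (n + 1) → K)} {T T' : Finset K} (h : T ⊆ T') :
    PtsOver k0 V T ⊆ PtsOver k0 V T' := by
  rintro p ⟨x, hx, hxT, hx0, rfl⟩
  exact ⟨x, hx, fun i => IntermediateField.adjoin.mono _ _ _ (Finset.coe_subset.2 h) (hxT i),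
    hx0, rfl⟩

end

section

variable {K : Type} [Field K] [CharZero K] {n : ℕ} {ι : Type}

theorem mem_adjoin_rat {T : Finset K} {x : K} :
    x ∈ IntermediateField.adjoin ℚ (T : Set K) ↔ x ∈ Subfield.closure (T : Set K) := by
  constructor
  · intro hx
    have h1 : IntermediateField.adjoin ℚ (T : Set K) ≤
        { Subfield.closure (T : Set K) with
          algebraMap_mem' := fun q => by
            change algebraMap ℚ K q ∈ Subfield.closure (T : Set K)
            rw [eq_ratCast]
            exact SubfieldClass.ratCast_mem _ q } := by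
      rw [IntermediateField.adjoin_le_iff]
      intro t ht
      exact Subfield.subset_closure ht
    exact h1 hx
  · intro hx
    have h1 : Subfield.closure (T : Set K) ≤
        (IntermediateField.adjoin ℚ (T : Set K)).toSubfield := by
      rw [Subfield.closure_le]
      exact IntermediateField.subset_adjoin _ _
    exact h1 hx

theorem mordellic_iff {F : ι → MvPolynomial (Fin (n + 1)) K} :
    Mordellic F ↔ FinPts ℚ (Cone F) := by
  classical
  constructor
  · rintro ⟨s0, h⟩ T
    refine (h (s0 ∪ T) Finset.subset_union_left).subset ?_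
    rintro p ⟨x, hx, hxT, hx0, rfl⟩
    refine ⟨x, hx, fun i => ?_, hx0, rfl⟩
    rw [← mem_adjoin_rat]
    exact IntermediateField.adjoin.mono _ _ _ (Finset.coe_subset.2 Finset.subset_union_right)
      (hxT i)
  · intro h
    exact ⟨∅, fun T _ => (h T).subset (rat_subset T _)⟩

end

section

variable {k0 k K : Type} [Field k0] [Field k] [Field K] [Algebra k0 k] [Algebra k K]
  [Algebra k0 K] [IsScalarTower k0 k K] {n : ℕ} {ι : Type}

theorem coe_ne {c : Fin (n + 1) → k} (hc : c ≠ 0) : (fun i => algebraMap k K (c i)) ≠ 0 := by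
  intro h
  apply hc
  funext i
  have h1 := congrFun h i
  exact (map_eq_zero _).1 h1

variable (K) in
/-- the map of the projective spaces -/
noncomputable def emb (p : ℙ k (Fin (n + 1) → k)) : ℙ K (Fin (n + 1) → K) :=
  Projectivization.mk K (fun i => algebraMap k K (p.rep i)) (coe_ne p.rep_nonzero)

theorem emb_mk {c : Fin (n + 1) → k} (hc : c ≠ 0) :
    emb K (Projectivization.mk k c hc) = Projectivization.mk K _ (coe_ne hc) := by
  obtain ⟨a, ha⟩ := Projectivization.exists_smul_eq_mk_rep k c hc
  change Projectivization.mk K _ _ = Projectivization.mk K _ _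
  rw [Projectivization.mk_eq_mk_iff']
  refine ⟨algebraMap k K a, ?_⟩
  funext i
  rw [← ha]
  simp only [Pi.smul_apply, Units.smul_def, smul_eq_mul, map_mul]

theorem emb_inj : Function.Injective (emb K : ℙ k (Fin (n + 1) → k) → _) := by
  intro p q hpq
  induction p using Projectivization.ind with | h c hc
  induction q using Projectivization.ind with | h d hd
  rw [emb_mk, emb_mk, Projectivization.mk_eq_mk_iff'] at hpq
  obtain ⟨a, ha⟩ := hpq
  rw [Projectivization.mk_eq_mk_iff']
  have h1 : ∀ i, a * algebraMap k K (d i) = algebraMap k K (c i) := fun i => congrFun ha i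
  obtain ⟨i0, hi0⟩ := Function.ne_iff.1 hd
  have hi0' : d i0 ≠ 0 := hi0
  have h2 : a = algebraMap k K (c i0 / d i0) := by
    rw [map_div₀, eq_div_iff ((map_ne_zero _).2 hi0')]
    exact h1 i0
  refine ⟨c i0 / d i0, ?_⟩
  funext i
  apply (algebraMap k K).injective
  rw [Pi.smul_apply, smul_eq_mul, map_mul, ← h2, h1]

theorem mem_adjoin_coe {T : Finset k} {x : k} [DecidableEq K] :
    algebraMap k K x ∈ IntermediateField.adjoin k0 ((T.image (algebraMap k K) : Finset K) : Set K) ↔
      x ∈ IntermediateField.adjoin k0 (T : Set k) := by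
  have h1 : IntermediateField.adjoin k0 ((T.image (algebraMap k K) : Finset K) : Set K) =
      (IntermediateField.adjoin k0 (T : Set k)).map (IsScalarTower.toAlgHom k0 k K) := by
    rw [IntermediateField.adjoin_map, Finset.coe_image]
    rfl
  rw [h1]
  constructor
  · rintro ⟨y, hy, hyx⟩
    have h2 : y = x := (algebraMap k K).injective hyx
    rw [← h2]
    exact hy
  · intro hx
    exact ⟨x, hx, rfl⟩

/-- the translates, over an algebraically closed field `k` -/
theorem pts_of_iso {F : ι → MvPolynomial (Fin (n + 1)) K}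
    (h1 : ∀ (μ : Fin (n + 1) → K) (c : Fin (n + 1) → k), (∀ p, val c (Tr k μ F p) = 0) ↔
      ∀ i, val (fun j => μ j * algebraMap k K (c j)) (F i) = 0)
    (halg : ∀ x : k, IsAlgebraic k0 x) (h : FinIso k0 (Cone F)) {μ : Fin (n + 1) → K}
    (hμ : ∀ i, μ i ≠ 0) : FinPts k0 (Cone (Tr k μ F)) := by
  classical
  intro T
  refine ((h μ hμ (T.image (algebraMap k K)) ?_).preimage (emb_inj (K := K)).injOn).subset ?_
  · intro t ht
    obtain ⟨s, -, rfl⟩ := Finset.mem_image.1 ht
    exact (halg s).algebraMap
  · rintro p ⟨c, hcV, hcT, hc, rfl⟩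
    rw [Set.mem_preimage, emb_mk]
    refine ⟨_, ⟨?_, (h1 μ c).1 hcV.2⟩, fun i => mem_adjoin_coe.2 (hcT i), coe_ne hc, rfl⟩
    intro h0
    apply hc
    funext i
    have h2 := congrFun h0 i
    simp only [Pi.zero_apply] at h2
    exact (map_eq_zero _).1 ((mul_eq_zero.1 h2).resolve_left (hμ i))

theorem finIso_of {F : ι → MvPolynomial (Fin (n + 1)) K}
    (h1 : ∀ (μ : Fin (n + 1) → K) (c : Fin (n + 1) → k), (∀ p, val c (Tr k μ F p) = 0) ↔
      ∀ i, val (fun j => μ j * algebraMap k K (c j)) (F i) = 0)
    (hk : ∀ x : K, IsAlgebraic k0 x → ∃ y : k, algebraMap k K y = x)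
    (h : ∀ μ : Fin (n + 1) → K, (∀ i, μ i ≠ 0) → FinPts k0 (Cone (Tr k μ F))) :
    FinIso k0 (Cone F) := by
  classical
  intro μ hμ T hT
  choose s hs using fun t : T => hk t.1 (hT t.1 t.2)
  have hTs : T = (T.attach.image s).image (algebraMap k K) := by
    ext t
    constructor
    · intro ht
      rw [Finset.mem_image]
      exact ⟨s ⟨t, ht⟩, Finset.mem_image_of_mem _ (Finset.mem_attach _ _), hs ⟨t, ht⟩⟩
    · intro ht
      obtain ⟨y, hy, rfl⟩ := Finset.mem_image.1 ht
      obtain ⟨t, -, rfl⟩ := Finset.mem_image.1 hy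
      rw [hs]
      exact t.2
  refine ((h μ hμ (T.attach.image s)).image (emb K)).subset ?_
  rintro p ⟨x, hxV, hxT, hx0, rfl⟩
  have hxk : ∀ i, ∃ c : k, algebraMap k K c = x i ∧
      c ∈ IntermediateField.adjoin k0 ((T.attach.image s : Finset k) : Set k) := by
    intro i
    have h2 := hxT i
    rw [hTs] at h2
    have h3 : IntermediateField.adjoin k0
        (((T.attach.image s).image (algebraMap k K) : Finset K) : Set K) =
      (IntermediateField.adjoin k0 ((T.attach.image s : Finset k) : Set k)).map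
        (IsScalarTower.toAlgHom k0 k K) := by
      rw [IntermediateField.adjoin_map, Finset.coe_image]
      rfl
    rw [h3] at h2
    obtain ⟨c, hc, hcx⟩ := h2
    exact ⟨c, hcx, hc⟩
  choose c hcx hcT using hxk
  have hx : x = fun i => algebraMap k K (c i) := funext fun i => (hcx i).symm
  have hc0 : c ≠ 0 := by
    rintro rfl
    apply hx0
    rw [hx]
    funext i
    simp
  refine ⟨Projectivization.mk k c hc0, ⟨c, ⟨hc0, ?_⟩, hcT, hc0, rfl⟩, ?_⟩
  · rw [h1]
    have h4 := hxV.2
    simp only [hx] at h4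
    exact h4
  · rw [emb_mk]
    congr 1
    exact hx.symm

end

section

variable {K : Type} [Field K] [CharZero K] [IsAlgClosed K] {n : ℕ} {ι : Type}

/-- the equations vanish on an orbit -/
theorem diag_of_orb {F : ι → MvPolynomial (Fin (n + 1)) K} {z : Fin (n + 1) → K}
    (h : Orb F z) : ∃ b, DiagCurve ∅ F z b := by
  obtain ⟨b, i, i', hi, hi', hb, hv⟩ := h
  refine ⟨b, fun t ht => ⟨?_, fun j hj => absurd hj (Set.notMem_empty j), fun e => ?_⟩,
    i, i', hi, hi', hb⟩
  · intro h0
    have h1 := congrFun h0 i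
    exact mul_ne_zero (zpow_ne_zero _ ht) hi h1
  · exact val_orbit (L := K) z b ht (F e) (hv e)

/-- an orbit in `{F = 0}` -/
theorem orb_of_diag {F : ι → MvPolynomial (Fin (n + 1)) K} {z : Fin (n + 1) → K}
    {b : Fin (n + 1) → ℤ} (h : DiagCurve ∅ F z b) : Orb F z := by
  classical
  obtain ⟨hX, i, i', hi, hi', hb⟩ := h
  refine ⟨b, i, i', hi, hi', hb, fun e v => ?_⟩
  -- the parts
  set G := F e with hG
  let wg : (Fin (n + 1) →₀ ℕ) → ℤ := fun α => ∑ j, (α j : ℤ) * b j
  obtain ⟨M, hM⟩ : ∃ M : ℕ, ∀ α ∈ G.support, 0 ≤ wg α + M := by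
    refine ⟨∑ α ∈ G.support, (wg α).natAbs, fun α hα => ?_⟩
    have h1 := Finset.single_le_sum (f := fun α => (wg α).natAbs)
      (fun _ _ => Nat.zero_le _) hα
    have h2 : (((wg α).natAbs : ℕ) : ℤ) ≤ ((∑ α ∈ G.support, (wg α).natAbs : ℕ) : ℤ) := by
      exact_mod_cast h1
    have h3 := Int.le_natAbs (a := -(wg α))
    rw [Int.natAbs_neg] at h3
    linarith
  let T : (Fin (n + 1) →₀ ℕ) → K := fun α => G.coeff α * ∏ j, z j ^ α j
  let R : Polynomial K := ∑ α ∈ G.support,
    Polynomial.C (T α) * Polynomial.X ^ (wg α + M).toNat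
  have hR : ∀ t : K, t ≠ 0 → R.eval t = 0 := by
    intro t ht
    have h1 := val_act z b ht G
    have h2 : val (fun j => t ^ b j * z j) G = 0 := (hX t ht).2.2 e
    rw [h2] at h1
    simp only [R]
    rw [Polynomial.eval_finsetSum]
    have h3 : ∑ α ∈ G.support, (Polynomial.C (T α) * Polynomial.X ^ (wg α + M).toNat).eval t =
        t ^ M * ∑ α ∈ G.support, t ^ (∑ j, (α j : ℤ) * b j) * (G.coeff α * ∏ j, z j ^ α j) := by
      rw [Finset.mul_sum]
      refine Finset.sum_congr rfl fun α hα => ?_
      rw [Polynomial.eval_mul, Polynomial.eval_C, Polynomial.eval_pow, Polynomial.eval_X,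
        ← zpow_natCast t (Int.toNat _), Int.toNat_of_nonneg (hM α hα), zpow_add₀ ht,
        zpow_natCast]
      simp only [T, wg]
      ring
    rw [h3, ← h1, mul_zero]
  have hR0 : R = 0 := by
    apply Polynomial.eq_of_infinite_eval_eq
    have h1 : ({0}ᶜ : Set K).Infinite := (Set.finite_singleton 0).infinite_compl
    refine h1.mono fun t ht => ?_
    change R.eval t = (0 : Polynomial K).eval t
    rw [Polynomial.eval_zero]
    exact hR t ht
  -- the coefficient
  rw [val_wc]
  have h1 := congrArg (fun Q : Polynomial K => Q.coeff (v + M).toNat) hR0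
  simp only [R, Polynomial.finsetSum_coeff, Polynomial.coeff_C_mul, Polynomial.coeff_X_pow,
    Polynomial.coeff_zero] at h1
  by_cases hv : 0 ≤ v + M
  · rw [← h1, Finset.sum_filter]
    refine Finset.sum_congr rfl fun α hα => ?_
    by_cases hα2 : wg α = v
    · rw [if_pos hα2, if_pos (by rw [hα2]), mul_one]
      rfl
    · have h2 : (v + M).toNat ≠ (wg α + M).toNat := by
        intro h3
        apply hα2
        have h4 := hM α hα
        have h5 := congrArg (fun x : ℕ => (x : ℤ)) h3
        simp only [Int.toNat_of_nonneg hv, Int.toNat_of_nonneg h4] at h5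
        linarith
      rw [if_neg hα2, if_neg h2, mul_zero]
  · apply Finset.sum_eq_zero
    intro α hα
    exfalso
    rw [Finset.mem_filter] at hα
    have h4 := hM α hα.1
    have h5 : wg α = v := hα.2
    rw [h5] at h4
    exact hv h4

/-- all subvarieties are of general type if and only if there are no orbits -/
theorem gt_iff {F : ι → MvPolynomial (Fin (n + 1)) K} {s N : ℕ}
    (hF : ∀ e, IsPowSparse ∅ s N (F e)) (hN1 : 1 ≤ N) (hN : n * ((s + 1) * tn (s - 1)) ≤ N) :
    AllGeneralType F ↔ ∀ z ∈ Cone F, ¬ Orb F z := by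
  constructor
  · intro h z hz ho
    obtain ⟨b, hb⟩ := diag_of_orb ho
    obtain ⟨P, hP, -⟩ := gm_of_diag (fun e => (hF e).1) hb
    exact (all_iff (Or.inr hF) hN1 hN).1 h P hP
  · intro h L _ _ w y hw hy
    by_contra hgt
    have hy' : SubVarU ∅ F L w y := ⟨hy.ne, fun j hj => absurd hj (Set.notMem_empty j), hy.mem,
      hy.gen, hy.dim⟩
    have hgt' : ¬ LogGeneralType K L w (OffU ∅ y) := by
      intro h1
      apply hgt
      apply general_of_log
      have h2 : OffU ∅ y = fun _ : Place K L => False := by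
        funext P
        simp [OffU]
      rwa [h2] at h1
    obtain ⟨x, b, hd, hx⟩ := closure_orbits hF hN hw hy' hgt'
      (G := (1 : MvPolynomial (Fin (n + 1)) K))
      (by unfold val; rw [map_one]; exact one_ne_zero)
    have h1 := hd.1 1 one_ne_zero
    have h2 : (fun j => (1 : K) ^ b j * x j) = x := by
      funext j
      rw [one_zpow, one_mul]
    refine h x ⟨?_, fun e => ?_⟩ (orb_of_diag hd)
    · have h3 := h1.1
      rwa [h2] at h3
    · have h3 := h1.2.2 e
      rwa [h2] at h3

end

end Pool.Agent.N126.IS
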