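import Pool.Agent.N126.IS.All2
import Pool.Agent.N126.IS.Stm4
import Pool.Agent.R869.WSix

/-!
Algebraic hyperbolicity, and points over finitely generated rings.
-/

set_option autoImplicit false

open FF MvPolynomial Pool.Agent.W602.GT LinearAlgebra.Projectivization
open Pool.Agent.W603.CX (OrbitsConstant AlgHyperbolic BoundedOnCurves)

namespace Pool.Agent.N126.IS

/-- The points of `{F = 0}` with homogeneous coordinates in the ring generated by `T` which generate
the unit ideal of this ring. -/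
def RPts {K : Type} [Field K] {n : ℕ} {ι : Type} (F : ι → MvPolynomial (Fin (n + 1)) K)
    (T : Finset K) : Set (ℙ K (Fin (n + 1) → K)) :=
  {p | ∃ x : Fin (n + 1) → K, (∀ e, val x (F e) = 0) ∧
    (∀ i, x i ∈ Subring.closure (T : Set K)) ∧
    (∃ c : Fin (n + 1) → K, (∀ i, c i ∈ Subring.closure (T : Set K)) ∧ ∑ i, c i * x i = 1) ∧
    ∃ hx : x ≠ 0, p = Projectivization.mk K x hx}

section

variable {K : Type} [Field K] {n : ℕ} {ι : Type}

theorem rpts_sub [CharZero K] {F : ι → MvPolynomial (Fin (n + 1)) K} (T : Finset K) :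
    RPts F T ⊆ PtsOver ℚ (Cone F) T := by
  rintro p ⟨x, hxF, hxT, -, hx0, rfl⟩
  refine ⟨x, ⟨hx0, hxF⟩, fun i => ?_, hx0, rfl⟩
  rw [mem_adjoin_rat]
  have h1 : Subring.closure (T : Set K) ≤ (Subfield.closure (T : Set K)).toSubring := by
    rw [Subring.closure_le]
    exact Subfield.subset_closure
  exact h1 (hxT i)

/-- over number fields -/
theorem pts_of_ring (hP : S_PID) [CharZero K] (halg : ∀ x : K, IsAlgebraic ℚ x)
    {F : ι → MvPolynomial (Fin (n + 1)) K} (hF : ∀ i, IsForm (F i))
    (h : ∀ T : Finset K, (RPts F T).Finite) : FinPts ℚ (Cone F) := by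
  intro T
  obtain ⟨T', hT'⟩ := hP K halg n T
  refine (h T').subset ?_
  rintro p ⟨x, ⟨-, hxF⟩, hxT, hx0, rfl⟩
  obtain ⟨a, ha0, ha, c, hc, hca⟩ := hT' x hx0 fun i => mem_adjoin_rat.1 (hxT i)
  have hax : (fun i => a * x i) ≠ 0 := by
    intro h0
    apply hx0
    funext i
    exact (mul_eq_zero.1 (congrFun h0 i)).resolve_left ha0
  refine ⟨fun i => a * x i, fun e => ?_, ha, ⟨c, hc, hca⟩, hax, ?_⟩
  · obtain ⟨d, hd⟩ := hF e
    rw [val_smul hd, hxF e, mul_zero]
  · rw [Projectivization.mk_eq_mk_iff']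
    refine ⟨a⁻¹, ?_⟩
    funext i
    simp only [Pi.smul_apply, smul_eq_mul]
    rw [← mul_assoc, inv_mul_cancel₀ ha0, one_mul]

end

section

variable {k K : Type} [Field k] [Field K] [Algebra k K] {n : ℕ} {ι : Type}

theorem ring_trans {F : ι → MvPolynomial (Fin (n + 1)) K}
    (h1 : ∀ (μ : Fin (n + 1) → K) (c : Fin (n + 1) → k), (∀ p, val c (Tr k μ F p) = 0) ↔
      ∀ i, val (fun j => μ j * algebraMap k K (c j)) (F i) = 0)
    (h : ∀ T : Finset K, (RPts F T).Finite) {μ : Fin (n + 1) → K} (hμ : ∀ i, μ i ≠ 0)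
    (T : Finset k) : (RPts (Tr k μ F) T).Finite := by
  classical
  have hne : ∀ c : Fin (n + 1) → k, c ≠ 0 → (fun i => μ i * algebraMap k K (c i)) ≠ 0 := by
    intro c hc h0
    apply hc
    funext i
    have h1 := congrFun h0 i
    simp only [Pi.zero_apply] at h1
    exact (map_eq_zero _).1 ((mul_eq_zero.1 h1).resolve_left (hμ i))
  let ψ : ℙ k (Fin (n + 1) → k) → ℙ K (Fin (n + 1) → K) := fun p =>
    Projectivization.mk K _ (hne p.rep p.rep_nonzero)
  have hψ : ∀ (c : Fin (n + 1) → k) (hc : c ≠ 0),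
      ψ (Projectivization.mk k c hc) = Projectivization.mk K _ (hne c hc) := by
    intro c hc
    obtain ⟨a, ha⟩ := Projectivization.exists_smul_eq_mk_rep k c hc
    change Projectivization.mk K _ _ = Projectivization.mk K _ _
    rw [Projectivization.mk_eq_mk_iff']
    refine ⟨algebraMap k K a, ?_⟩
    funext i
    rw [← ha]
    simp only [Pi.smul_apply, Units.smul_def, smul_eq_mul, map_mul]
    ring
  have hinj : Function.Injective ψ := by
    intro p q hpq
    induction p using Projectivization.ind with | h c hc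
    induction q using Projectivization.ind with | h d hd
    rw [hψ, hψ, Projectivization.mk_eq_mk_iff'] at hpq
    obtain ⟨a, ha⟩ := hpq
    rw [Projectivization.mk_eq_mk_iff']
    have h1 : ∀ i, a * algebraMap k K (d i) = algebraMap k K (c i) := by
      intro i
      have h2 := congrFun ha i
      simp only [Pi.smul_apply, smul_eq_mul] at h2
      apply mul_left_cancel₀ (hμ i)
      rw [← h2]
      ring
    obtain ⟨i0, hi0⟩ := Function.ne_iff.1 hd
    have hi0' : d i0 ≠ 0 := hi0
    have h2 : a = algebraMap k K (c i0 / d i0) := by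
      rw [map_div₀, eq_div_iff ((map_ne_zero _).2 hi0')]
      exact h1 i0
    refine ⟨c i0 / d i0, ?_⟩
    funext i
    apply (algebraMap k K).injective
    rw [Pi.smul_apply, smul_eq_mul, map_mul, ← h2, h1]
  let T' : Finset K := T.image (algebraMap k K) ∪ Finset.univ.image μ ∪
    Finset.univ.image fun i => (μ i)⁻¹
  have hT' : ∀ x ∈ Subring.closure (T : Set k), algebraMap k K x ∈
      Subring.closure (T' : Set K) := by
    intro x hx
    have h2 : Subring.closure (T : Set k) ≤ (Subring.closure (T' : Set K)).comap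
        (algebraMap k K) := by
      rw [Subring.closure_le]
      intro t ht
      rw [SetLike.mem_coe, Subring.mem_comap]
      apply Subring.subset_closure
      rw [Finset.mem_coe]
      exact Finset.mem_union_left _ (Finset.mem_union_left _
        (Finset.mem_image_of_mem _ (Finset.mem_coe.1 ht)))
    exact h2 hx
  have hμT : ∀ i, μ i ∈ Subring.closure (T' : Set K) := fun i => by
    apply Subring.subset_closure
    rw [Finset.mem_coe]
    exact Finset.mem_union_left _ (Finset.mem_union_right _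
      (Finset.mem_image_of_mem _ (Finset.mem_univ i)))
  have hμT' : ∀ i, (μ i)⁻¹ ∈ Subring.closure (T' : Set K) := fun i => by
    apply Subring.subset_closure
    rw [Finset.mem_coe]
    exact Finset.mem_union_right _ (Finset.mem_image.2 ⟨i, Finset.mem_univ i, rfl⟩)
  refine ((h T').preimage hinj.injOn).subset ?_
  rintro p ⟨c, hcF, hcT, ⟨d, hdT, hdc⟩, hc, rfl⟩
  rw [Set.mem_preimage, hψ]
  refine ⟨_, (h1 μ c).1 hcF, fun i => mul_mem (hμT i) (hT' _ (hcT i)),
    ⟨fun i => (μ i)⁻¹ * algebraMap k K (d i), fun i => mul_mem (hμT' i) (hT' _ (hdT i)), ?_⟩,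
    hne c hc, rfl⟩
  have h2 := congrArg (algebraMap k K) hdc
  rw [map_sum, map_one] at h2
  rw [← h2]
  refine Finset.sum_congr rfl fun i _ => ?_
  have h3 := hμ i
  rw [map_mul]
  field_simp

end

section

variable {n m D : ℕ} {T : Finset (Fin (n + 1) →₀ ℕ)}

/-- the height bound -/
theorem exists_unif (hm : bound n T.card < m) :
    ∃ A : ℕ, ∀ (k : Type) [Field k] [IsAlgClosed k] [CharZero k] (ι : Type)
      (F : ι → MvPolynomial (Fin (n + 1)) k), (∀ i, (F i).IsHomogeneous D) →
      (∀ i, (F i).support ⊆ T) →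
      [AlgHyperbolic A (fun i => expand m (F i)),
        ∃ A', AlgHyperbolic A' (fun i => expand m (F i)),
        BoundedOnCurves (fun i => expand m (F i)), OrbitsConstant (fun i => expand m (F i)),
        ∀ P, ¬ GmCurve (fun i => expand m (F i)) P,
        AllGeneralType (fun i => expand m (F i))].TFAE := by
  classical
  obtain ⟨s, hs1, hs, hms⟩ : ∃ s, 1 ≤ s ∧ T.card ≤ s ∧ bound n s < m := by
    by_cases h0 : T.card = 0
    · refine ⟨1, le_rfl, by omega, ?_⟩
      have h1 : bound n 1 = 0 := by unfold bound; simp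
      rw [h1]
      exact (Nat.zero_le _).trans_lt hm
    · exact ⟨T.card, by omega, le_rfl, hm⟩
  obtain ⟨hm1, hm2⟩ := bound_le hms
  set T' : Finset (Fin (n + 1) →₀ ℕ) := T.filter fun α => ∑ j, α j = D with hT'
  have hT'c : T'.card ≤ s := (Finset.card_filter_le _ _).trans hs
  have hT'D : ∀ α ∈ T', ∑ j, α j = D := fun α hα => (Finset.mem_filter.1 hα).2
  have hgood := good_smul T' hT'D hs1 hT'c hm1
  obtain ⟨A, hA⟩ := hgood.unif
  refine ⟨A, fun k _ _ _ ι F hF hT => ?_⟩
  have hFT' : ∀ i, (F i).support ⊆ T' := by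
    intro i α hα
    refine Finset.mem_filter.2 ⟨hT i hα, ?_⟩
    have h2 := hF i (mem_support_iff.1 hα)
    rw [← h2]
    simp [Finsupp.weight_apply, Finsupp.sum_fintype]
  have hsupp : ∀ i, (expand m (F i)).support ⊆ T'.image fun α => m • α := fun i =>
    support_expand' m (F i) (hFT' i)
  exact Pool.Agent.R869.Wd.six (hgood.sys hsupp ∅) (fun K _ _ _ S f hf hno =>
    hA k ι _ hsupp ∅ K S f hf hno)

end

section

variable {K : Type} [Field K] [CharZero K] [IsAlgClosed K] {n m D : ℕ} {ι : Type}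
  {T : Finset (Fin (n + 1) →₀ ℕ)} {F : ι → MvPolynomial (Fin (n + 1)) K}

/-- points over finitely generated rings and fields -/
theorem arith_tfae (hS : S_STR) (hP : S_PID)
    (hF : ∀ i, (F i).IsHomogeneous D) (hT : ∀ i, (F i).support ⊆ T) (hm : bound n T.card < m) :
    [Mordellic (fun i => expand m (F i)),
      ∀ T : Finset K, (RPts (fun i => expand m (F i)) T).Finite,
      ∀ μ : Fin (n + 1) → K, (∀ i, μ i ≠ 0) →
        Mordellic (Tr (algebraicClosure ℚ K) μ (fun i => expand m (F i))),
      ∀ μ : Fin (n + 1) → K, (∀ i, μ i ≠ 0) → ∀ T : Finset (algebraicClosure ℚ K),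
        (RPts (Tr (algebraicClosure ℚ K) μ (fun i => expand m (F i))) T).Finite].TFAE := by
  have h2 : CharZero (algebraicClosure ℚ K) :=
    charZero_of_injective_algebraMap (algebraMap ℚ _).injective
  have h1 := fun μ : Fin (n + 1) → K =>
    Pool.Agent.N645.IS.main_TRL (algebraicClosure ℚ K) K n m (m * D) ι
      (fun i => expand m (F i)) μ
  tfae_have 1 → 2 := by
    intro h T1
    exact (mordellic_iff.1 h T1).subset (rpts_sub T1)
  tfae_have 2 → 4 := by
    intro h μ hμ T1
    exact ring_trans (fun μ => (h1 μ).1) h hμ T1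
  tfae_have 4 → 3 := by
    intro h μ hμ
    rw [mordellic_iff]
    refine pts_of_ring hP (fun x => (isAlgebraic_algebraMap_iff
      (algebraMap (algebraicClosure ℚ K) K).injective).1 (mem_algebraicClosure_iff.1 x.2))
      (fun p => ⟨m * D, (h1 μ).2.2.1 (fun i => isForm_expand m (hF i)) p⟩) (h μ hμ)
  tfae_have 3 → 1 := (mordellic_iff_iso hS hF hT hm).2
  tfae_finish

end

end Pool.Agent.N126.IS
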