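import Pool.Agent.N126.IS.Rig
import Pool.Agent.R869.NVoj
import Pool.Agent.R869.WAlm

/-!
Heights of the points of the inverse images under the power maps.
-/

set_option autoImplicit false

open FF MvPolynomial Pool.Agent.W603.LV Pool.Agent.W603.PV Pool.Agent.W602.GT Pool.Agent.R869.Wd

namespace Pool.Agent.N126.IS

open Pool.Agent.R869 (CoefIn cf coefIn_cf)

theorem wgt_smul {n : ℕ} (m : ℕ) (u : Fin (n + 1) → ℤ) (α : Fin (n + 1) →₀ ℕ) :
    wgt u (m • α) = m * wgt u α := by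
  unfold wgt
  rw [Finset.mul_sum]
  refine Finset.sum_congr rfl fun j _ => ?_
  rw [Finsupp.smul_apply, smul_eq_mul]
  push_cast
  ring

theorem good_smul {n m s D : ℕ} (T : Finset (Fin (n + 1) →₀ ℕ)) (hT : ∀ α ∈ T, ∑ j, α j = D)
    (hs1 : 1 ≤ s) (hs : T.card ≤ s) (hm : s * (n * Pool.Agent.R869.tri (s - 1)) < m) :
    Good (T.image fun α => m • α) s m where
  deg := by
    refine ⟨m * D, fun α hα => ?_⟩
    obtain ⟨β, hβ, rfl⟩ := Finset.mem_image.1 hα
    rw [← hT β hβ, Finset.mul_sum]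
    exact Finset.sum_congr rfl fun j _ => by rw [Finsupp.smul_apply, smul_eq_mul]
  pos := hs1
  card := Finset.card_image_le.trans hs
  wide := by
    intro I r e α β _ _ h2 h3 u hu _
    choose α' hα' hαe using fun l => Finset.mem_image.1 (h2 l).1
    choose β' hβ' hβe using fun l => Finset.mem_image.1 (h2 l).2.1
    have h4 := h3 u hu
    have h5 : ∑ l, |wgt u (α l) - wgt u (β l)| = (m : ℤ) * ∑ l, |wgt u (α' l) - wgt u (β' l)| := by
      rw [Finset.mul_sum]
      refine Finset.sum_congr rfl fun l _ => ?_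
      rw [← hαe l, ← hβe l, wgt_smul, wgt_smul, ← mul_sub, abs_mul, Nat.abs_cast]
    rw [h5] at h4 ⊢
    have hm0 : (0 : ℤ) < m := by exact_mod_cast (Nat.zero_le _).trans_lt hm
    have h6 : 0 < ∑ l, |wgt u (α' l) - wgt u (β' l)| := pos_of_mul_pos_right h4 hm0.le
    nlinarith
  num := hm

section

variable {k L : Type} [Field k] [Field L] [Algebra k L] [IsAlgClosed k] [CharZero k] [IsFF k L]

theorem height_bound {n m s D : ℕ} (T : Finset (Fin (n + 1) →₀ ℕ)) (hT : ∀ α ∈ T, ∑ j, α j = D)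
    (hs1 : 1 ≤ s) (hs : T.card ≤ s) (hm : s * (n * Pool.Agent.R869.tri (s - 1)) < m) {ι : Type} [Finite ι]
    (F : ι → MvPolynomial (Fin (n + 1)) L) (hF : ∀ e, (F e).support ⊆ T.image fun α => m • α) :
    ∃ B : ℤ, ∀ f : Fin (n + 1) → L, f ≠ 0 → (∀ e, val f (F e) = 0) →
      Parts F f ∨ pht k f ≤ B := by
  classical
  have := Fintype.ofFinite ι
  obtain ⟨A, hA⟩ := (good_smul T hT hs1 hs hm).nbound
  set Sc : Finset L := Finset.univ.biUnion fun e => cf (F e) with hSc
  refine ⟨A * (max (canDeg k L + ((∅ : Set (Place k L)).ncard : ℤ)) 0 +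
    ∑ c ∈ Sc, hgt k (algebraMap L L c)), fun f hf hfF => ?_⟩
  by_cases hp : Parts F f
  · exact Or.inl hp
  · right
    have h1 := hA k L L ι F Sc hF (fun e => (coefIn_cf _).mono fun x hx =>
      Finset.mem_biUnion.2 ⟨e, Finset.mem_univ e, hx⟩) ∅ f
      ⟨hf, fun j hj => absurd hj (Set.notMem_empty j), hfF⟩ hp
    have h2 : cut k (∅ : Set (Fin (n + 1))) f = ∅ := by
      ext P
      simp [cut]
    rw [h2] at h1
    exact h1

/-- Finiteness over a function field. -/
theorem finite_ff {n m s D : ℕ} (T : Finset (Fin (n + 1) →₀ ℕ)) (hT : ∀ α ∈ T, ∑ j, α j = D)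
    (hs1 : 1 ≤ s) (hs : T.card ≤ s) (hm : s * (n * Pool.Agent.R869.tri (s - 1)) < m) (hm2 : (s - 1) ^ 2 ≤ m)
    {ι κ : Type} [Finite ι] [Finite κ]
    (F : ι → MvPolynomial (Fin (n + 1)) L) (G : κ → MvPolynomial (Fin (n + 1)) L)
    (hF : ∀ e, (F e).support ⊆ T.image fun α => m • α) (hb : FinTrans k (Off F G))
    (j0 : Fin (n + 1)) : {z : Fin (n + 1) → L | z j0 = 1 ∧ z ∈ Off F G}.Finite := by
  classical
  have hm0 : 0 < m := (Nat.zero_le _).trans_lt hm
  obtain ⟨B, hB⟩ := height_bound (k := k) T hT hs1 hs hm F hF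
  have hgt0 : hgt k (0 : L) = 0 := hgt_algebraic (k := k) (K := L) (f := 0) isAlgebraic_zero
  refine (rigid_step (k := k) (m := m) F G hm0 ?_ ?_ hb j0 (max B 0)).subset ?_
  · intro e α hα j
    obtain ⟨β, -, rfl⟩ := Finset.mem_image.1 (hF e hα)
    rw [Finsupp.smul_apply, smul_eq_mul]
    exact dvd_mul_right _ _
  · intro e
    have h1 : (F e).support.card ≤ s :=
      (Finset.card_le_card (hF e)).trans (Finset.card_image_le.trans hs)
    exact (Nat.pow_le_pow_left (by omega) 2).trans hm2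
  · rintro z ⟨hz1, hz⟩
    refine ⟨hz1, hz, fun j => ?_⟩
    rcases hB z hz.1.1 hz.1.2 with hp | hp
    · exfalso
      obtain ⟨b, i, i', hi, hi', hbi, h⟩ := hp
      obtain ⟨μ, hμ, hinf⟩ := orbit_infinite (k := k) hz hi hi' hbi
        (fun t ht e => val_orbit (L := L) z b ht (F e) (h e))
      exact hinf (hb μ hμ)
    · by_cases hj : z j = 0
      · rw [hj, hgt0]; exact le_max_right _ _
      · have h1 := Pool.Agent.W603.CX.hgt_le_pht (k := k) z (j := j) (l := j0) hj
          (by rw [hz1]; exact one_ne_zero)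
        rw [hz1, div_one] at h1
        exact (h1.trans hp).trans (le_max_left _ _)

end

end Pool.Agent.N126.IS
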