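import Pool.Agent.W602.RG.Abs2

/-!
Linear disjointness of the constants of a derivation and a field which is stable under the
derivation; the effect of automorphisms.
-/

set_option autoImplicit false

open FF MvPolynomial Pool.Agent.W602.RG

namespace Pool.Agent.N126.IS

section

variable {k L Ω E : Type} [Field k] [Field L] [Field Ω] [Field E] [Algebra k Ω] [Algebra L E]
  [Algebra Ω E]

/-- elements of `Ω` which are linearly independent over the constants of `D0` are linearly
independent over the constants of `D` -/
theorem ld_aux (D : Derivation L E E) (D0 : Derivation k Ω Ω)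
    (hD : ∀ ω, D (algebraMap Ω E ω) = algebraMap Ω E (D0 ω)) (r : ℕ) :
    ∀ (w : Fin r → Ω) (p : Fin r → E),
      (∀ γ : Fin r → Ω, (∀ i, D0 (γ i) = 0) → ∑ i, γ i * w i = 0 → ∀ i, γ i = 0) →
      (∀ i, D (p i) = 0) → ∑ i, p i * algebraMap Ω E (w i) = 0 → ∀ i, p i = 0 := by
  induction r with
  | zero => intro w p _ _ _ i; exact i.elim0
  | succ r ih =>
    intro w p hw hp hsum
    have hw0 : w 0 ≠ 0 := by
      intro h0
      have h1 := hw (fun i => if i = 0 then 1 else 0) (fun i => by
        split_ifs
        · exact D0.map_one_eq_zero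
        · exact D0.map_zero) (by
          rw [Finset.sum_eq_single 0]
          · rw [if_pos rfl, h0, mul_zero]
          · intro i _ hi
            rw [if_neg hi, zero_mul]
          · intro h; exact absurd (Finset.mem_univ _) h) 0
      simp at h1
    have hw0' : algebraMap Ω E (w 0) ≠ 0 := (map_ne_zero _).2 hw0
    -- divide by `w 0` and differentiate
    have h1 : ∑ i, p i * algebraMap Ω E (w i / w 0) = 0 := by
      have h2 : ∀ i, p i * algebraMap Ω E (w i / w 0) =
          (algebraMap Ω E (w 0))⁻¹ * (p i * algebraMap Ω E (w i)) := by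
        intro i
        rw [map_div₀]
        field_simp
      simp only [h2]
      rw [← Finset.mul_sum, hsum, mul_zero]
    have h3 : ∑ i : Fin r, p i.succ * algebraMap Ω E (D0 (w i.succ / w 0)) = 0 := by
      have h4 := congrArg D h1
      rw [map_sum, D.map_zero, Fin.sum_univ_succ] at h4
      have h5 : ∀ i, D (p i * algebraMap Ω E (w i / w 0)) =
          p i * algebraMap Ω E (D0 (w i / w 0)) := by
        intro i
        rw [D.leibniz, hp i, hD]
        simp
      simp only [h5] at h4
      rw [div_self hw0, D0.map_one_eq_zero, map_zero, mul_zero, zero_add] at h4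
      exact h4
    have h6 : ∀ i : Fin r, p i.succ = 0 := by
      refine ih (fun i => D0 (w i.succ / w 0)) (fun i => p i.succ) ?_ (fun i => hp _) h3
      intro γ hγ hγs
      have h7 : D0 (∑ i, γ i * (w i.succ / w 0)) = 0 := by
        rw [map_sum, ← hγs]
        refine Finset.sum_congr rfl fun i _ => ?_
        rw [D0.leibniz, hγ i]
        simp
      set g := ∑ i, γ i * (w i.succ / w 0) with hg
      have h8 := hw (Fin.cons (-g) γ) (fun i => by
        refine Fin.cases ?_ (fun i => ?_) i
        · rw [Fin.cons_zero, D0.map_neg, h7, neg_zero]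
        · rw [Fin.cons_succ]; exact hγ i) (by
          rw [Fin.sum_univ_succ]
          simp only [Fin.cons_zero, Fin.cons_succ]
          have h9 : ∑ i, γ i * w i.succ = g * w 0 := by
            rw [hg, Finset.sum_mul]
            refine Finset.sum_congr rfl fun i _ => ?_
            field_simp
          rw [h9]
          ring)
      intro i
      have h10 := h8 i.succ
      rwa [Fin.cons_succ] at h10
    have h11 : p 0 = 0 := by
      rw [Fin.sum_univ_succ] at hsum
      simp only [h6, zero_mul, Finset.sum_const_zero, add_zero] at hsum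
      exact (mul_eq_zero.1 hsum).resolve_right hw0'
    intro i
    refine Fin.cases h11 (fun i => h6 i) i

/-- relations with constant coefficients are preserved by the automorphisms of `Ω` over the
constants -/
theorem ld_equiv (D : Derivation L E E) (D0 : Derivation k Ω Ω)
    (hD : ∀ ω, D (algebraMap Ω E ω) = algebraMap Ω E (D0 ω)) (σ : Ω ≃+* Ω)
    (hσ : ∀ ω, D0 ω = 0 → σ ω = ω) (r : ℕ) :
    ∀ (w : Fin r → Ω) (p : Fin r → E), (∀ i, D (p i) = 0) →
      ∑ i, p i * algebraMap Ω E (w i) = 0 → ∑ i, p i * algebraMap Ω E (σ (w i)) = 0 := by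
  induction r with
  | zero => intro w p _ _; simp
  | succ r ih =>
    intro w p hp hsum
    by_cases hw : ∀ γ : Fin (r + 1) → Ω, (∀ i, D0 (γ i) = 0) → ∑ i, γ i * w i = 0 → ∀ i, γ i = 0
    · have h1 := ld_aux D D0 hD (r + 1) w p hw hp hsum
      simp [h1]
    · push Not at hw
      obtain ⟨γ, hγ, hγs, i0, hi0⟩ := hw
      have hi0' : algebraMap Ω E (γ i0) ≠ 0 := (map_ne_zero _).2 hi0
      rw [Fin.sum_univ_succAbove _ i0] at hsum hγs ⊢
      -- eliminate `w i0`
      have h2 : w i0 = -∑ j, γ (i0.succAbove j) / γ i0 * w (i0.succAbove j) := by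
        have h3 : γ i0 * w i0 = -∑ j, γ (i0.succAbove j) * w (i0.succAbove j) := by
          linear_combination hγs
        have h4 : ∑ j, γ (i0.succAbove j) / γ i0 * w (i0.succAbove j) =
            (γ i0)⁻¹ * ∑ j, γ (i0.succAbove j) * w (i0.succAbove j) := by
          rw [Finset.mul_sum]
          refine Finset.sum_congr rfl fun j _ => ?_
          rw [div_eq_mul_inv]; ring
        rw [h4]
        field_simp
        linear_combination h3
      have hσγ : ∀ i, σ (γ i) = γ i := fun i => hσ _ (hγ i)
      have h2σ : σ (w i0) = -∑ j, γ (i0.succAbove j) / γ i0 * σ (w (i0.succAbove j)) := by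
        rw [h2, map_neg, map_sum]
        congr 1
        refine Finset.sum_congr rfl fun j _ => ?_
        rw [map_mul, map_div₀, hσγ, hσγ]
      -- the constants
      set c : Fin r → E := fun j => p (i0.succAbove j) -
        p i0 * algebraMap Ω E (γ (i0.succAbove j) / γ i0) with hc
      have hDc : ∀ j, D (c j) = 0 := by
        intro j
        have h5 : D0 (γ (i0.succAbove j) / γ i0) = 0 := by
          rw [Derivation.leibniz_div, hγ, hγ]
          simp
        rw [hc]
        simp only
        rw [map_sub, hp, D.leibniz, hp, hD, h5]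
        simp
      have hexp : ∀ (v : Ω) (u : Fin r → Ω), v = -∑ j, γ (i0.succAbove j) / γ i0 * u j →
          p i0 * algebraMap Ω E v + ∑ j, p (i0.succAbove j) * algebraMap Ω E (u j) =
            ∑ j, c j * algebraMap Ω E (u j) := by
        intro v u hv
        rw [hv, map_neg, map_sum, mul_neg, Finset.mul_sum, neg_add_eq_sub,
          ← Finset.sum_sub_distrib]
        refine Finset.sum_congr rfl fun j _ => ?_
        rw [hc]
        simp only
        rw [map_mul]
        ring
      rw [hexp _ _ h2] at hsum
      rw [hexp _ _ h2σ]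
      exact ih _ c hDc hsum

/-- the same for polynomials -/
theorem aeval_equiv {n : ℕ} (D : Derivation L E E) (D0 : Derivation k Ω Ω)
    (hD : ∀ ω, D (algebraMap Ω E ω) = algebraMap Ω E (D0 ω)) (σ : Ω ≃+* Ω)
    (hσ : ∀ ω, D0 ω = 0 → σ ω = ω) (F : MvPolynomial (Fin (n + 1)) L) (c : Fin (n + 1) → E)
    (hc : ∀ i, D (c i) = 0) (ω : Fin (n + 1) → Ω)
    (h : aeval (fun i => c i * algebraMap Ω E (ω i)) F = 0) :
    aeval (fun i => c i * algebraMap Ω E (σ (ω i))) F = 0 := by
  classical
  have hexp : ∀ u : Fin (n + 1) → Ω, aeval (fun i => c i * algebraMap Ω E (u i)) F =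
      ∑ α ∈ F.support, (algebraMap L E (F.coeff α) * ∏ i, c i ^ α i) *
        algebraMap Ω E (∏ i, u i ^ α i) := by
    intro u
    rw [aeval_def, eval₂_eq']
    refine Finset.sum_congr rfl fun α _ => ?_
    rw [map_prod]
    simp only [map_pow, mul_pow, Finset.prod_mul_distrib]
    ring
  rw [hexp] at h ⊢
  have hconst : ∀ α : Fin (n + 1) →₀ ℕ, D (algebraMap L E (F.coeff α) * ∏ i, c i ^ α i) = 0 := by
    intro α
    have h1 : ∀ s : Finset (Fin (n + 1)), D (∏ i ∈ s, c i ^ α i) = 0 := by
      intro s
      induction s using Finset.induction_on with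
      | empty => simp
      | insert i s hi ih =>
        rw [Finset.prod_insert hi, D.leibniz, ih, D.leibniz_pow, hc i]
        simp
    rw [D.leibniz, D.map_algebraMap, h1]
    simp
  -- enumerate the support
  let e := F.support.equivFin
  have hre : ∀ u : (Fin (n + 1) →₀ ℕ) → E, ∑ α ∈ F.support, u α =
      ∑ i : Fin F.support.card, u (e.symm i).1 := by
    intro u
    rw [← Finset.sum_coe_sort F.support u]
    exact (Equiv.sum_comp e.symm fun α : F.support => u α.1).symm
  rw [hre] at h ⊢
  have h2 := ld_equiv D D0 hD σ hσ _ (fun i => ∏ j, ω j ^ (e.symm i).1 j)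
    (fun i => algebraMap L E (F.coeff (e.symm i).1) * ∏ j, c j ^ (e.symm i).1 j)
    (fun i => hconst _) h
  simp only [map_prod, map_pow] at h2
  simp only [map_prod, map_pow]
  exact h2

end

end Pool.Agent.N126.IS
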