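import Pool.Agent.N126.IS.Dich
import Pool.Agent.N126.IS.LD
import Pool.Agent.N126.IS.Aut
import Pool.Agent.N126.IS.Orb

/-!
Points of bounded height: finiteness.
-/

set_option autoImplicit false

open FF MvPolynomial Pool.Agent.W603.LV Pool.Agent.W603.PV Pool.Agent.W602.RG Pool.Agent.W602.GT
  LinearAlgebra.Projectivization

namespace Pool.Agent.N126.IS

/-- the kernel of a derivation of a field -/
def kerF {k Ω : Type} [Field k] [Field Ω] [Algebra k Ω] (D : Derivation k Ω Ω) : Subfield Ω where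
  carrier := {x | D x = 0}
  mul_mem' := by
    intro a b ha hb
    change D a = 0 at ha
    change D b = 0 at hb
    change D (a * b) = 0
    rw [D.leibniz, ha, hb]; simp
  one_mem' := D.map_one_eq_zero
  add_mem' := by
    intro a b ha hb
    change D a = 0 at ha
    change D b = 0 at hb
    change D (a + b) = 0
    rw [map_add, ha, hb, add_zero]
  zero_mem' := D.map_zero
  neg_mem' := by
    intro a ha
    change D a = 0 at ha
    change D (-a) = 0
    rw [map_neg, ha, neg_zero]
  inv_mem' := by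
    intro a ha
    change D a = 0 at ha
    change D a⁻¹ = 0
    rw [Derivation.leibniz_inv, ha, smul_zero]

theorem mem_kerF {k Ω : Type} [Field k] [Field Ω] [Algebra k Ω] {D : Derivation k Ω Ω} {x : Ω} :
    x ∈ kerF D ↔ D x = 0 := Iff.rfl

theorem transcendental_kerF {k Ω : Type} [Field k] [Field Ω] [Algebra k Ω] [CharZero Ω]
    {D : Derivation k Ω Ω} {x : Ω} (hx : D x ≠ 0) : Transcendental (kerF D) x := by
  intro h
  let D1 : Derivation (kerF D) Ω Ω :=
    { toFun := D
      map_add' := fun a b => map_add D a b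
      map_smul' := by
        intro c a
        change D ((c : Ω) * a) = (c : Ω) * D a
        rw [D.leibniz, mem_kerF.1 c.2]
        simp
      map_one_eq_zero' := D.map_one_eq_zero
      leibniz' := D.leibniz }
  have h1 : D1 (Polynomial.aeval x (minpoly (kerF D) x)) = 0 := by
    rw [minpoly.aeval, D1.map_zero]
  rw [Derivation.map_aeval] at h1
  have hcz : CharZero (kerF D) := charZero_of_injective_algebraMap
    (algebraMap ℚ (kerF D)).injective
  have h2 : Polynomial.aeval x (minpoly (kerF D) x).derivative ≠ 0 :=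
    (minpoly.irreducible h.isIntegral).separable.aeval_derivative_ne_zero (minpoly.aeval _ _)
  rcases smul_eq_zero.1 h1 with h3 | h3
  · exact h2 h3
  · exact hx h3

/-- sequences which avoid finite sets -/
theorem exists_avoid {k : Type} [Field k] [Infinite k] (C : Om k → Prop)
    (hC : ∀ x y, C x → C y → C (x - y)) {x0 : Om k} (hx0 : ¬ C x0) (B : ℕ → Set k)
    (hB : ∀ l, (B l).Finite) : ∃ u : ℕ → k, (∀ l, u l ∉ B l) ∧ ¬ C (Om.mk u) := by
  obtain ⟨x, rfl⟩ := Om.mk_surj x0
  have h1 : ∀ l, ∃ y : k, y ∉ B l ∧ y + x l ∉ B l := by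
    intro l
    have h2 : (B l ∪ (fun y => y + x l) ⁻¹' B l).Finite :=
      (hB l).union ((hB l).preimage (add_left_injective _).injOn)
    obtain ⟨y, hy⟩ := h2.infinite_compl.nonempty
    rw [Set.mem_compl_iff, Set.mem_union, not_or] at hy
    exact ⟨y, hy⟩
  choose u hu1 hu2 using h1
  by_cases h : C (Om.mk u)
  · refine ⟨fun l => u l + x l, hu2, fun h' => hx0 ?_⟩
    have h3 := hC _ _ h' h
    rw [Om.mk_sub] at h3
    have h4 : (fun l => u l + x l - u l) = x := by funext l; ring
    rwa [h4] at h3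
  · exact ⟨u, hu1, h⟩

section

variable {k L : Type} [Field k] [Field L] [Algebra k L]

theorem val_coe {n : ℕ} (g : ℕ → Fin (n + 1) → L) (fE : Fin (n + 1) → EE k L)
    (hg : ∀ j, (fE j : Om L) = Om.mk fun m => g m j) (G : MvPolynomial (Fin (n + 1)) L) :
    ((val fE G : EE k L) : Om L) = Om.mk fun m => val (g m) G := by
  unfold val
  induction G using MvPolynomial.induction_on with
  | C a =>
    rw [aeval_C]
    simp only [aeval_C]
    rfl
  | add p q hp hq =>
    simp only [map_add]
    rw [← Om.mk_add, ← hp, ← hq]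
    rfl
  | mul_X p j hp =>
    simp only [map_mul, aeval_X]
    rw [← Om.mk_mul, ← hp, ← hg j]
    rfl

theorem ev_zero {n : ℕ} {g : ℕ → Fin (n + 1) → L} {fE : Fin (n + 1) → EE k L}
    (hg : ∀ j, (fE j : Om L) = Om.mk fun m => g m j) {G : MvPolynomial (Fin (n + 1)) L}
    (h : val fE G = 0) : ∀ᶠ l in (Filter.hyperfilter ℕ : Filter ℕ), val (g l) G = 0 := by
  have h1 := val_coe g fE hg G
  rw [h] at h1
  have h2 : Om.mk (fun l => val (g l) G) = Om.mk fun _ => (0 : L) := h1.symm
  rwa [Om.mk_eq] at h2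

theorem ev_ne_zero {n : ℕ} {g : ℕ → Fin (n + 1) → L} {fE : Fin (n + 1) → EE k L}
    (hg : ∀ j, (fE j : Om L) = Om.mk fun m => g m j) {G : MvPolynomial (Fin (n + 1)) L}
    (h : val fE G ≠ 0) : ∀ᶠ l in (Filter.hyperfilter ℕ : Filter ℕ), ¬ val (g l) G = 0 := by
  rw [Ultrafilter.eventually_not]
  intro h1
  apply h
  apply Subtype.ext
  rw [val_coe g fE hg G]
  change _ = Om.mk fun _ => (0 : L)
  rw [Om.mk_eq]
  exact h1

variable [IsAlgClosed k] [CharZero k] [IsFF k L]

theorem rigid_step {n m : ℕ} {ι κ : Type} [Finite ι] [Finite κ]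
    (F : ι → MvPolynomial (Fin (n + 1)) L) (G : κ → MvPolynomial (Fin (n + 1)) L) (hm : 0 < m)
    (hdiv : ∀ e, ∀ α ∈ (F e).support, ∀ j, m ∣ α j)
    (hcard : ∀ e, ((F e).support.card - 1) ^ 2 ≤ m) (hb : FinTrans k (Off F G))
    (j0 : Fin (n + 1)) (B : ℤ) :
    {z : Fin (n + 1) → L | z j0 = 1 ∧ z ∈ Off F G ∧ ∀ j, hgt k (z j) ≤ B}.Finite := by
  classical
  by_contra hinf
  obtain ⟨M, hM⟩ : ∃ M, M = {z : Fin (n + 1) → L | z j0 = 1 ∧ z ∈ Off F G ∧
      ∀ j, hgt k (z j) ≤ B} := ⟨_, rfl⟩
  rw [← hM] at hinf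
  have hinf' : M.Infinite := hinf
  have hM1 : ∀ z ∈ M, z j0 = 1 := fun z hz => by rw [hM] at hz; exact hz.1
  have hM2 : ∀ z ∈ M, z ∈ Off F G := fun z hz => by rw [hM] at hz; exact hz.2.1
  have hhgt : ∀ z ∈ M, ∀ j, hgt k (z j) ≤ B := fun z hz => by rw [hM] at hz; exact hz.2.2
  -- a coordinate with infinitely many values
  obtain ⟨i1, hi1⟩ : ∃ i1, ((fun f : Fin (n + 1) → L => f i1) '' M).Infinite := by
    by_contra hcon
    push Not at hcon
    apply hinf'
    apply (Set.Finite.pi' (t := fun j : Fin (n + 1) => (fun f : Fin (n + 1) → L => f j) '' M)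
      (fun j => hcon j)).subset
    intro f hf j
    exact ⟨f, hf, rfl⟩
  obtain ⟨p, u, θ, hu, hθ, hval⟩ := Pool.Agent.W764.RG.Seq.main k L B _ hi1 (by
    rintro _ ⟨f, hf, rfl⟩
    exact hhgt f hf i1)
  choose g hgM hgu using hu
  have hg1 : ∀ l, g l j0 = 1 := fun l => hM1 _ (hgM l)
  -- homogeneous coordinates in a finite dimensional space
  obtain ⟨V, hV, hVf⟩ := Pool.Agent.W369.RG.RIE.main k L n (∑ _j : Fin (n + 1), B)
  have hφ : ∀ l, ∃ φ : L, φ ≠ 0 ∧ ∀ j, φ * g l j ∈ V := fun l =>
    hVf (g l) ⟨j0, by rw [hg1]; exact one_ne_zero⟩ (by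
      have h1 := Pool.Agent.W603.PV.pht_le (k := k) (g l) (l := j0)
        (by rw [hg1]; exact one_ne_zero)
      refine h1.trans (Finset.sum_le_sum fun j _ => ?_)
      rw [hg1, div_one]
      exact hhgt _ (hgM l) j)
  choose φ hφ0 hφV using hφ
  have hφE : Om.mk φ ∈ EE k L := by
    apply Pool.Agent.W61.RG.GSP.main k L V hV
    intro l
    have := hφV l j0
    rwa [hg1, mul_one] at this
  have hφne : Om.mk φ ≠ 0 := Om.mk_ne_zero hφ0
  have hgE : ∀ j, Om.mk (fun l => g l j) ∈ EE k L := by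
    intro j
    have h1 : Om.mk (fun l => φ l * g l j) ∈ EE k L :=
      Pool.Agent.W61.RG.GSP.main k L V hV _ fun l => hφV l j
    have h2 : Om.mk (fun l => g l j) = Om.mk (fun l => φ l * g l j) / Om.mk φ := by
      rw [← Om.mk_mul, mul_div_cancel_left₀ _ hφne]
    rw [h2]
    exact div_mem h1 hφE
  let fE : Fin (n + 1) → EE k L := fun j => ⟨Om.mk fun l => g l j, hgE j⟩
  have hfE : ∀ j, (fE j : Om L) = Om.mk fun l => g l j := fun j => rfl
  have hf1 : fE j0 = 1 := by
    apply Subtype.ext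
    rw [hfE]
    change _ = Om.mk fun _ => (1 : L)
    congr 1
    funext l
    exact hg1 l
  -- the fields
  have hBC : BC k L (Om k) (EE k L) := Pool.Agent.W736.RG.main k L
  have hAC : IsAlgClosed (Om k) := Pool.Agent.W917.RG.GAC.main k
  have hCZ : CharZero (Om k) :=
    charZero_of_injective_algebraMap (algebraMap k (Om k)).injective
  have hcL : CharZero L := charZero_of_injective_algebraMap (algebraMap k L).injective
  have hcE : CharZero (EE k L) := charZero_of_injective_algebraMap (algebraMap k (EE k L)).injective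
  have hFF : IsFF (Om k) (EE k L) := Pool.Agent.W215.RG.ISF.main k L _ _ hBC
  obtain ⟨D0, hD0⟩ := Pool.Agent.W160.RG.DER.main k (Om k) (Om.mk θ)
    (Pool.Agent.W32.RG.GTR.main k θ hθ)
  obtain ⟨D, hD⟩ := Pool.Agent.W797.RG.main k L _ _ hBC D0
  have hregC : ∀ P : Place (Om k) (EE k L), (∃ l : L, P.ord (algebraMap L (EE k L) l) ≠ 0) →
      Reg0 D P := Pool.Agent.W215.RG.RGC.main k L _ _ hBC D D0 hD
  have hreg : ∀ P : Place (Om k) (EE k L), Reg0 D P ∨ Mov D P := by
    intro P
    by_cases h : ∃ l : L, P.ord (algebraMap L (EE k L) l) ≠ 0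
    · exact Or.inl (hregC P h)
    · push Not at h
      exact Pool.Agent.W440.RG.RGM.main k L _ _ hBC D D0 hD P h
  -- the coordinate with infinitely many values is moving
  obtain ⟨P1, hP1, hP1v⟩ := Pool.Agent.W374.RG.GPL.main k L p
  have hDi1 : D (fE i1) ≠ 0 := by
    intro h0
    have h1 : fE i1 - algebraMap (Om k) (EE k L) (Om.mk θ) = 0 ∨
        0 < P1.ord (fE i1 - algebraMap (Om k) (EE k L) (Om.mk θ)) := by
      refine hP1v _ (fun l => g l i1 - algebraMap k L (θ l)) ?_ fun l => ?_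
      · change Om.mk (fun l => g l i1) - mapOm k L (Om.mk θ) = _
        rw [mapOm_mk, Om.mk_sub]
      · have h4 : g l i1 = u l := hgu l
        change g l i1 - algebraMap k L (θ l) = 0 ∨ 0 < p.ord (g l i1 - algebraMap k L (θ l))
        rw [h4, sub_eq_zero]
        exact hval l
    have h2 : D (fE i1 - algebraMap (Om k) (EE k L) (Om.mk θ)) =
        - algebraMap (Om k) (EE k L) (D0 (Om.mk θ)) := by
      rw [map_sub, h0, hD, zero_sub]
    have h3 : algebraMap (Om k) (EE k L) (D0 (Om.mk θ)) ≠ 0 := (map_ne_zero _).2 hD0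
    rcases h1 with h | h
    · rw [h, map_zero] at h2
      exact h3 (neg_eq_zero.1 h2.symm)
    · have h4 := hregC P1 hP1 (fE i1 - algebraMap (Om k) (EE k L) (Om.mk θ))
        (by rw [h2]; exact neg_ne_zero.2 h3)
      rw [h2, P1.ord_neg, P1.ord_const hD0] at h4
      omega
  have hsupp : ∀ j, ∀ᶠ l in (Filter.hyperfilter ℕ : Filter ℕ), (fE j = 0 ↔ g l j = 0) := by
    intro j
    by_cases hj : fE j = 0
    · have h1 : Om.mk (fun l => g l j) = Om.mk fun _ => (0 : L) := by
        rw [← hfE j, hj]; rfl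
      rw [Om.mk_eq] at h1
      exact h1.mono fun l hl => ⟨fun _ => hl, fun _ => hj⟩
    · have h1 : ∀ᶠ l in (Filter.hyperfilter ℕ : Filter ℕ), ¬ (g l j = 0) := by
        rw [Ultrafilter.eventually_not]
        intro h
        apply hj
        apply Subtype.ext
        rw [hfE]
        change _ = Om.mk fun _ => (0 : L)
        rw [Om.mk_eq]
        exact h
      exact h1.mono fun l hl => ⟨fun h => absurd h hj, fun h => absurd h hl⟩
  -- the equations
  have hFE : ∀ e, val fE (F e) = 0 := by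
    intro e
    apply Subtype.ext
    rw [val_coe g fE hfE]
    change _ = Om.mk fun _ => (0 : L)
    congr 1
    funext l
    exact (hM2 _ (hgM l)).1.2 e
  obtain ⟨jG, hjG⟩ : ∃ j, val fE (G j) ≠ 0 := by
    by_contra hcon
    push Not at hcon
    obtain ⟨l, hl⟩ := (Filter.eventually_all.2 fun j => ev_zero hfE (hcon j)).exists
    obtain ⟨j, hj⟩ := (hM2 _ (hgM l)).2
    exact hj (hl j)
  rcases dichotomy (Ω := Om k) D hreg F hm hdiv hcard fE hFE j0 hf1 with
    ⟨b, i, i', hi, hi', hbi, hparts⟩ | ⟨ω, c, hc0, hDc, hfc, hω1⟩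
  · -- orbits
    have h1 : ∀ e, ∀ᶠ l in (Filter.hyperfilter ℕ : Filter ℕ), ∀ v, val (g l) (wc b v (F e)) = 0 := by
      intro e
      have h2 : ∀ᶠ l in (Filter.hyperfilter ℕ : Filter ℕ),
          ∀ v ∈ (F e).support.image (fun α => ∑ j, (α j : ℤ) * b j),
            val (g l) (wc b v (F e)) = 0 := by
        rw [Filter.eventually_all_finset]
        intro v _
        exact ev_zero hfE (hparts e v)
      refine h2.mono fun l hl v => ?_
      by_cases hv : v ∈ (F e).support.image (fun α => ∑ j, (α j : ℤ) * b j)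
      · exact hl v hv
      · have h3 : wc b v (F e) = 0 := by
          unfold wc
          apply Finset.sum_eq_zero
          intro α hα
          exfalso
          apply hv
          rw [Finset.mem_filter] at hα
          exact Finset.mem_image.2 ⟨α, hα.1, hα.2⟩
        rw [h3]
        unfold val
        rw [map_zero]
    obtain ⟨l, ⟨hl1, hl2⟩, hl3⟩ :=
      (((Filter.eventually_all.2 h1).and (hsupp i)).and (hsupp i')).exists
    have hgi : g l i ≠ 0 := fun h => hi (hl2.2 h)
    have hgi' : g l i' ≠ 0 := fun h => hi' (hl3.2 h)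
    obtain ⟨μ, hμ, hinf1⟩ := orbit_infinite (k := k) (hM2 _ (hgM l)) hgi hgi' hbi
      (fun t ht e => val_orbit (L := L) (g l) b ht (F e) (hl1 e))
    exact hinf1 (hb μ hμ)
  · -- products
    have hD0ω : D0 (ω i1) ≠ 0 := by
      intro h
      apply hDi1
      rw [hfc i1, D.leibniz, hDc, hD, h]
      simp
    -- representatives of the `c i`
    have hrep : ∀ i, ∃ cs : ℕ → L, (∀ l, cs l ≠ 0) ∧ (c i : Om L) = Om.mk cs := by
      intro i
      obtain ⟨v, hv⟩ := Om.mk_surj (c i : Om L)
      refine ⟨fun l => if v l = 0 then 1 else v l, fun l => ?_, ?_⟩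
      · simp only
        split_ifs with h
        · exact one_ne_zero
        · exact h
      · rw [← hv, Om.mk_eq]
        have h1 : ∀ᶠ l in (Filter.hyperfilter ℕ : Filter ℕ), ¬ v l = 0 := by
          rw [Ultrafilter.eventually_not]
          intro h
          apply hc0 i
          apply Subtype.ext
          rw [← hv]
          change _ = Om.mk fun _ => (0 : L)
          rw [Om.mk_eq]
          exact h
        exact h1.mono fun l hl => by rw [if_neg hl]
    choose cs hcs0 hcs using hrep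
    -- the bad values
    let Bl : ℕ → Set k := fun l => {x | ∃ η : Fin (n + 1) → k, η j0 = 1 ∧ η i1 = x ∧
      (fun i => cs i l * algebraMap k L (η i)) ∈ Off F G}
    have hBl : ∀ l, (Bl l).Finite := by
      intro l
      refine ((hb (fun i => cs i l) (fun i => hcs0 i l)).image
        (fun p : ℙ k (Fin (n + 1) → k) => p.rep i1 / p.rep j0)).subset ?_
      rintro x ⟨η, hη0, hη1, hη⟩
      have hηne : η ≠ 0 := by
        intro h
        rw [h] at hη0
        exact zero_ne_one hη0
      refine ⟨Projectivization.mk k η hηne, ⟨η, hηne, hη, rfl⟩, ?_⟩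
      obtain ⟨a, ha⟩ := Projectivization.exists_smul_eq_mk_rep k η hηne
      simp only
      rw [← ha]
      simp only [Pi.smul_apply]
      rw [Units.smul_def, Units.smul_def, smul_eq_mul, smul_eq_mul, hη0, hη1, mul_one,
        mul_div_cancel_left₀ _ a.ne_zero]
    have hik : Infinite k := IsAlgClosed.instInfinite
    obtain ⟨w, hw1, hw2⟩ := exists_avoid (k := k) (fun x => D0 x = 0)
      (fun x y hx hy => by rw [map_sub, hx, hy, sub_zero]) hD0ω Bl hBl
    obtain ⟨σ, hσ1, hσ2⟩ := exists_equiv (transcendental_kerF hD0ω) (transcendental_kerF hw2)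
    have hσc : ∀ x, D0 x = 0 → σ x = x := fun x hx => hσ1 ⟨x, hx⟩
    have hσc' : ∀ x, D0 x = 0 → σ.symm x = x := fun x hx => by
      rw [RingEquiv.symm_apply_eq]; exact (hσc x hx).symm
    choose ηs hηs using fun i => Om.mk_surj (σ (ω i))
    let fN : Fin (n + 1) → EE k L := fun i => c i * algebraMap (Om k) (EE k L) (σ (ω i))
    have hfN : ∀ i, (fN i : Om L) = Om.mk fun l => cs i l * algebraMap k L (ηs i l) := by
      intro i
      change (c i : Om L) * mapOm k L (σ (ω i)) = _
      rw [hcs i, ← hηs i, mapOm_mk, Om.mk_mul]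
    have hfeq : fE = fun i => c i * algebraMap (Om k) (EE k L) (ω i) := funext hfc
    have hFN : ∀ e, val fN (F e) = 0 := by
      intro e
      have h1 := hFE e
      rw [hfeq] at h1
      exact aeval_equiv D D0 hD σ hσc (F e) c hDc ω h1
    have hGN : val fN (G jG) ≠ 0 := by
      intro h
      apply hjG
      have h1 := aeval_equiv D D0 hD σ.symm hσc' (G jG) c hDc (fun i => σ (ω i)) h
      simp only [RingEquiv.symm_apply_apply] at h1
      rw [hfeq]
      exact h1
    have hev1 : ∀ᶠ l in (Filter.hyperfilter ℕ : Filter ℕ), ηs j0 l = 1 := by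
      have h1 : Om.mk (ηs j0) = Om.mk fun _ => (1 : k) := by
        rw [hηs, hω1, map_one, Om.mk_one]
      rwa [Om.mk_eq] at h1
    have hev2 : ∀ᶠ l in (Filter.hyperfilter ℕ : Filter ℕ), ηs i1 l = w l := by
      have h1 : Om.mk (ηs i1) = Om.mk w := by rw [hηs, hσ2]
      rwa [Om.mk_eq] at h1
    obtain ⟨l, ⟨⟨hl1, hl2⟩, hl3⟩, hl4⟩ :=
      (((Filter.eventually_all.2 fun e => ev_zero hfN (hFN e)).and
        (ev_ne_zero hfN hGN)).and hev1 |>.and hev2).exists
    apply hw1 l
    refine ⟨fun i => ηs i l, hl3, hl4, ⟨fun h => ?_, hl1⟩, jG, hl2⟩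
    have h1 := congrFun h j0
    simp only [Pi.zero_apply, hl3, map_one, mul_one] at h1
    exact hcs0 j0 l h1

end

end Pool.Agent.N126.IS
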