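import Pool.Agent.N126.IS.Rig
import Pool.Agent.N126.IS.Stm2

/-!
Points of bounded height over a function field, up to translation by constant points.
-/

set_option autoImplicit false

open FF MvPolynomial Pool.Agent.W603.LV Pool.Agent.W603.PV Pool.Agent.W602.RG Pool.Agent.W602.GT
  LinearAlgebra.Projectivization

namespace Pool.Agent.N126.IS

section

variable {k L : Type} [Field k] [Field L] [Algebra k L]

theorem neg_ord_le [CharZero k] [IsFF k L] (P : Place k L) (g : L) : -P.ord g ≤ hgt k g := by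
  classical
  obtain ⟨T, hT⟩ := exists_supp (k := k) (Finset.univ : Finset (Fin 1)) ![g]
  have hT' : ∀ Q : Place k L, Q.ord g ≠ 0 → Q ∈ insert P T := fun Q hQ =>
    Finset.mem_insert_of_mem (hT 0 (Finset.mem_univ _) Q hQ)
  rw [hgt_finset g _ hT']
  refine (le_max_left _ (0 : ℤ)).trans ?_
  exact Finset.single_le_sum (f := fun P : Place k L => max (-P.ord g) 0)
    (fun _ _ => le_max_right _ _) (Finset.mem_insert_self _ _)

/-- heights do not change under multiplication by constants -/
theorem hgt_const_mul {a : k} (ha : a ≠ 0) (g : L) : hgt k (g * algebraMap k L a) = hgt k g := by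
  unfold hgt
  by_cases hg : g = 0
  · rw [hg, zero_mul]
  · refine finsum_congr fun P => ?_
    rw [P.ord_mul hg ((map_ne_zero _).2 ha), P.ord_const ha, add_zero]

variable [IsAlgClosed k] [CharZero k] [IsFF k L]

/-- the leading coefficient at a place -/
theorem exists_lead (P : Place k L) {t f : L} (ht : t ≠ 0) (ht1 : P.ord t = 1) (hf : f ≠ 0) :
    ∃ a : k, a ≠ 0 ∧ Ge P 1 (f * algebraMap k L a / t ^ P.ord f - 1) := by
  have hz : ∀ m : ℤ, P.ord (t ^ m) = m := by
    intro m
    rw [P.ord_zpow, ht1, mul_one]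
  have htm : t ^ P.ord f ≠ 0 := zpow_ne_zero _ ht
  have h0 : P.ord (f / t ^ P.ord f) = 0 := by
    rw [P.ord_div hf htm, hz, sub_self]
  have hne : f / t ^ P.ord f ≠ 0 := div_ne_zero hf htm
  obtain ⟨c, hc⟩ := exists_const P (f := f / t ^ P.ord f) (Or.inr h0.ge)
  have hc0 : c ≠ 0 := by
    rintro rfl
    rw [map_zero, sub_zero] at hc
    rcases hc with h | h
    · exact hne h
    · omega
  refine ⟨c⁻¹, inv_ne_zero hc0, ?_⟩
  have hcL : algebraMap k L c ≠ 0 := (map_ne_zero _).2 hc0
  have h1 : f * algebraMap k L c⁻¹ / t ^ P.ord f - 1 =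
      (f / t ^ P.ord f - algebraMap k L c) * algebraMap k L c⁻¹ := by
    rw [map_inv₀]
    field_simp
  rw [h1]
  have h2 := hc.mul (Ge.const (P := P) c⁻¹)
  simpa using h2

theorem rig_norm {n m : ℕ} {ι : Type} [Finite ι]
    (F : ι → MvPolynomial (Fin (n + 1)) L) (hm : 0 < m)
    (hdiv : ∀ e, ∀ α ∈ (F e).support, ∀ j, m ∣ α j)
    (hcard : ∀ e, ((F e).support.card - 1) ^ 2 ≤ m)
    (j0 : Fin (n + 1)) (B : ℤ) (p0 : Place k L) {t : L} (ht : t ≠ 0) (v : Fin (n + 1) → ℤ) :
    {w : Fin (n + 1) → L | (∃ c : Fin (n + 1) → k, (∀ i, c i ≠ 0) ∧ w j0 * algebraMap k L (c j0) = 1 ∧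
      (∀ e, val (fun i => w i * algebraMap k L (c i)) (F e) = 0) ∧
      ¬ Orb F (fun i => w i * algebraMap k L (c i)) ∧
      ∀ i, hgt k (w i * algebraMap k L (c i)) ≤ B) ∧
      ∀ i, w i = 0 ∨ Ge p0 1 (w i / t ^ v i - 1)}.Finite := by
  classical
  by_contra hinf
  obtain ⟨M, hM⟩ : ∃ M, M = {w : Fin (n + 1) → L | (∃ c : Fin (n + 1) → k, (∀ i, c i ≠ 0) ∧
      w j0 * algebraMap k L (c j0) = 1 ∧
      (∀ e, val (fun i => w i * algebraMap k L (c i)) (F e) = 0) ∧
      ¬ Orb F (fun i => w i * algebraMap k L (c i)) ∧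
      ∀ i, hgt k (w i * algebraMap k L (c i)) ≤ B) ∧
      ∀ i, w i = 0 ∨ Ge p0 1 (w i / t ^ v i - 1)} := ⟨_, rfl⟩
  rw [← hM] at hinf
  have hinf' : M.Infinite := hinf
  have hMc : ∀ w ∈ M, ∃ c : Fin (n + 1) → k, (∀ i, c i ≠ 0) ∧
      w j0 * algebraMap k L (c j0) = 1 ∧
      (∀ e, val (fun i => w i * algebraMap k L (c i)) (F e) = 0) ∧
      ¬ Orb F (fun i => w i * algebraMap k L (c i)) ∧
      ∀ i, hgt k (w i * algebraMap k L (c i)) ≤ B := fun w hw => by rw [hM] at hw; exact hw.1
  have hMn : ∀ w ∈ M, ∀ i, w i = 0 ∨ Ge p0 1 (w i / t ^ v i - 1) := fun w hw => by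
    rw [hM] at hw; exact hw.2
  -- a coordinate with infinitely many values
  obtain ⟨i1, hi1⟩ : ∃ i1, ((fun f : Fin (n + 1) → L => f i1) '' M).Infinite := by
    by_contra hcon
    push Not at hcon
    apply hinf'
    apply (Set.Finite.pi' (t := fun j : Fin (n + 1) => (fun f : Fin (n + 1) → L => f j) '' M)
      (fun j => hcon j)).subset
    intro f hf j
    exact ⟨f, hf, rfl⟩
  have hi1' : (((fun f : Fin (n + 1) → L => f i1) '' M) \ {0}).Infinite :=
    hi1.diff (Set.finite_singleton 0)
  obtain ⟨p, u, θ, hu, hθ, hval⟩ := Pool.Agent.W764.RG.Seq.main k L B _ hi1' (by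
    rintro _ ⟨⟨f, hf, rfl⟩, -⟩
    obtain ⟨c, hc, -, -, -, hcB⟩ := hMc f hf
    have h1 := hcB i1
    rwa [hgt_const_mul (hc i1)] at h1)
  choose w hwM hwu using fun l => (hu l).1
  have hu0 : ∀ l, u l ≠ 0 := fun l => (hu l).2
  have hw0 : ∀ l, w l i1 ≠ 0 := fun l h => hu0 l ((hwu l).symm.trans h)
  choose c hc0 hcj0 hcF hcO hcB using fun l => hMc _ (hwM l)
  -- the points
  let g : ℕ → Fin (n + 1) → L := fun l i => w l i * algebraMap k L (c l i)
  have hg1 : ∀ l, g l j0 = 1 := fun l => hcj0 l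
  -- homogeneous coordinates in a finite dimensional space
  obtain ⟨V, hV, hVf⟩ := Pool.Agent.W369.RG.RIE.main k L n (∑ _j : Fin (n + 1), B)
  have hφ : ∀ l, ∃ φ : L, φ ≠ 0 ∧ ∀ j, φ * g l j ∈ V := fun l =>
    hVf (g l) ⟨j0, by rw [hg1]; exact one_ne_zero⟩ (by
      have h1 := Pool.Agent.W603.PV.pht_le (k := k) (g l) (l := j0)
        (by rw [hg1]; exact one_ne_zero)
      refine h1.trans (Finset.sum_le_sum fun j _ => ?_)
      rw [hg1, div_one]
      exact hcB l j)
  choose φ hφ0 hφV using hφ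
  have hφE : Om.mk φ ∈ EE k L := by
    apply Pool.Agent.W61.RG.GSP.main k L V hV
    intro l
    have := hφV l j0
    rwa [hg1, mul_one] at this
  have hφne : Om.mk φ ≠ 0 := Om.mk_ne_zero hφ0
  have hgE : ∀ j, Om.mk (fun l => g l j) ∈ EE k L := by
    intro j
    have h1 : Om.mk (fun l => φ l * g l j) ∈ EE k L :=
      Pool.Agent.W61.RG.GSP.main k L V hV _ fun l => hφV l j
    have h2 : Om.mk (fun l => g l j) = Om.mk (fun l => φ l * g l j) / Om.mk φ := by
      rw [eq_div_iff hφne, Om.mk_mul]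
      congr 1
      funext l
      exact mul_comm _ _
    rw [h2]
    exact div_mem h1 hφE
  let fE : Fin (n + 1) → EE k L := fun j => ⟨Om.mk fun l => g l j, hgE j⟩
  have hfE : ∀ j, (fE j : Om L) = Om.mk fun l => g l j := fun j => rfl
  have hf1 : fE j0 = 1 := by
    apply Subtype.ext
    rw [hfE]
    change _ = Om.mk fun _ => (1 : L)
    congr 1
    funext l
    exact hg1 l
  -- the normalised coordinate
  let γ : Om k := Om.mk fun l => c l i1
  have hγ0 : γ ≠ 0 := Om.mk_ne_zero fun l => hc0 l i1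
  have hγE : algebraMap (Om k) (EE k L) γ ≠ 0 := (map_ne_zero _).2 hγ0
  let wE : EE k L := fE i1 / algebraMap (Om k) (EE k L) γ
  have hwE : (wE : Om L) = Om.mk fun l => w l i1 := by
    have h1 : wE * algebraMap (Om k) (EE k L) γ = fE i1 := div_mul_cancel₀ _ hγE
    have h2 : (wE : Om L) * mapOm k L γ = (fE i1 : Om L) := congrArg Subtype.val h1
    have h3 : mapOm k L γ ≠ 0 := by
      intro h
      apply hγE
      apply Subtype.ext
      exact h
    apply mul_right_cancel₀ h3
    rw [h2, hfE]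
    change _ = _ * mapOm k L (Om.mk fun l => c l i1)
    rw [mapOm_mk, Om.mk_mul]
  -- the fields
  have hBC : BC k L (Om k) (EE k L) := Pool.Agent.W736.RG.main k L
  have hAC : IsAlgClosed (Om k) := Pool.Agent.W917.RG.GAC.main k
  have hCZ : CharZero (Om k) :=
    charZero_of_injective_algebraMap (algebraMap k (Om k)).injective
  have hcL : CharZero L := charZero_of_injective_algebraMap (algebraMap k L).injective
  have hcE : CharZero (EE k L) := charZero_of_injective_algebraMap (algebraMap k (EE k L)).injective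
  have hFF : IsFF (Om k) (EE k L) := Pool.Agent.W215.RG.ISF.main k L _ _ hBC
  obtain ⟨D0, hD0⟩ := Pool.Agent.W160.RG.DER.main k (Om k) (Om.mk θ)
    (Pool.Agent.W32.RG.GTR.main k θ hθ)
  obtain ⟨D, hD⟩ := Pool.Agent.W797.RG.main k L _ _ hBC D0
  have hregC : ∀ P : Place (Om k) (EE k L), (∃ l : L, P.ord (algebraMap L (EE k L) l) ≠ 0) →
      Reg0 D P := Pool.Agent.W215.RG.RGC.main k L _ _ hBC D D0 hD
  have hreg : ∀ P : Place (Om k) (EE k L), Reg0 D P ∨ Mov D P := by
    intro P
    by_cases h : ∃ l : L, P.ord (algebraMap L (EE k L) l) ≠ 0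
    · exact Or.inl (hregC P h)
    · push Not at h
      exact Pool.Agent.W440.RG.RGM.main k L _ _ hBC D D0 hD P h
  -- the normalised coordinate is moving
  obtain ⟨P1, hP1, hP1v⟩ := Pool.Agent.W374.RG.GPL.main k L p
  have hDw : D wE ≠ 0 := by
    intro h0
    have h1 : wE - algebraMap (Om k) (EE k L) (Om.mk θ) = 0 ∨
        0 < P1.ord (wE - algebraMap (Om k) (EE k L) (Om.mk θ)) := by
      refine hP1v _ (fun l => w l i1 - algebraMap k L (θ l)) ?_ fun l => ?_
      · change (wE : Om L) - mapOm k L (Om.mk θ) = _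
        rw [hwE, mapOm_mk, Om.mk_sub]
      · have h4 : w l i1 = u l := hwu l
        rw [h4, sub_eq_zero]
        exact hval l
    have h2 : D (wE - algebraMap (Om k) (EE k L) (Om.mk θ)) =
        - algebraMap (Om k) (EE k L) (D0 (Om.mk θ)) := by
      rw [map_sub, h0, hD, zero_sub]
    have h3 : algebraMap (Om k) (EE k L) (D0 (Om.mk θ)) ≠ 0 := (map_ne_zero _).2 hD0
    rcases h1 with h | h
    · rw [h, map_zero] at h2
      exact h3 (neg_eq_zero.1 h2.symm)
    · have h4 := hregC P1 hP1 (wE - algebraMap (Om k) (EE k L) (Om.mk θ))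
        (by rw [h2]; exact neg_ne_zero.2 h3)
      rw [h2, P1.ord_neg, P1.ord_const hD0] at h4
      omega
  have hsupp : ∀ j, ∀ᶠ l in (Filter.hyperfilter ℕ : Filter ℕ), (fE j = 0 ↔ g l j = 0) := by
    intro j
    by_cases hj : fE j = 0
    · have h1 : Om.mk (fun l => g l j) = Om.mk fun _ => (0 : L) := by
        rw [← hfE j, hj]; rfl
      rw [Om.mk_eq] at h1
      exact h1.mono fun l hl => ⟨fun _ => hl, fun _ => hj⟩
    · have h1 : ∀ᶠ l in (Filter.hyperfilter ℕ : Filter ℕ), ¬ (g l j = 0) := by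
        rw [Ultrafilter.eventually_not]
        intro h
        apply hj
        apply Subtype.ext
        rw [hfE]
        change _ = Om.mk fun _ => (0 : L)
        rw [Om.mk_eq]
        exact h
      exact h1.mono fun l hl => ⟨fun h => absurd h hj, fun h => absurd h hl⟩
  -- the equations
  have hFE : ∀ e, val fE (F e) = 0 := by
    intro e
    apply Subtype.ext
    rw [val_coe g fE hfE]
    change _ = Om.mk fun _ => (0 : L)
    congr 1
    funext l
    exact hcF l e
  rcases dichotomy (Ω := Om k) D hreg F hm hdiv hcard fE hFE j0 hf1 with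
    ⟨b, i, i', hi, hi', hbi, hparts⟩ | ⟨ω, cE, hcE0, hDc, hfc, hω1⟩
  · -- orbits
    have h1 : ∀ e, ∀ᶠ l in (Filter.hyperfilter ℕ : Filter ℕ), ∀ v, val (g l) (wc b v (F e)) = 0 := by
      intro e
      have h2 : ∀ᶠ l in (Filter.hyperfilter ℕ : Filter ℕ),
          ∀ v ∈ (F e).support.image (fun α => ∑ j, (α j : ℤ) * b j),
            val (g l) (wc b v (F e)) = 0 := by
        rw [Filter.eventually_all_finset]
        intro v _
        exact ev_zero hfE (hparts e v)
      refine h2.mono fun l hl v => ?_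
      by_cases hv : v ∈ (F e).support.image (fun α => ∑ j, (α j : ℤ) * b j)
      · exact hl v hv
      · have h3 : wc b v (F e) = 0 := by
          unfold wc
          apply Finset.sum_eq_zero
          intro α hα
          exfalso
          apply hv
          rw [Finset.mem_filter] at hα
          exact Finset.mem_image.2 ⟨α, hα.1, hα.2⟩
        rw [h3]
        unfold val
        rw [map_zero]
    obtain ⟨l, ⟨hl1, hl2⟩, hl3⟩ :=
      (((Filter.eventually_all.2 h1).and (hsupp i)).and (hsupp i')).exists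
    exact hcO l ⟨b, i, i', fun h => hi (hl2.2 h), fun h => hi' (hl3.2 h), hbi, hl1⟩
  · -- products
    have hwE0 : wE ≠ 0 := by
      intro h
      apply hDw
      rw [h, map_zero]
    have hω0 : ω i1 ≠ 0 := by
      intro h
      apply hwE0
      change fE i1 / algebraMap (Om k) (EE k L) γ = 0
      rw [hfc i1, h, map_zero, mul_zero, zero_div]
    set ω' : Om k := ω i1 / γ with hω'
    have hω'0 : ω' ≠ 0 := div_ne_zero hω0 hγ0
    have hwc : wE = cE i1 * algebraMap (Om k) (EE k L) ω' := by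
      change fE i1 / algebraMap (Om k) (EE k L) γ = _
      rw [hfc i1, hω', map_div₀, mul_div_assoc]
    have hDwE : D wE = wE * algebraMap (Om k) (EE k L) (D0 ω' / ω') := by
      have hω'E : algebraMap (Om k) (EE k L) ω' ≠ 0 := (map_ne_zero _).2 hω'0
      have h1 : algebraMap (Om k) (EE k L) (D0 ω' / ω') =
          algebraMap (Om k) (EE k L) (D0 ω') / algebraMap (Om k) (EE k L) ω' :=
        map_div₀ (algebraMap (Om k) (EE k L)) _ _
      rw [h1, hwc, D.leibniz, hDc, hD]
      simp only [smul_eq_mul, mul_zero, add_zero]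
      field_simp
    -- the place `p0`
    obtain ⟨P0, hP0, hP0v⟩ := Pool.Agent.W374.RG.GPL.main k L p0
    set τ : EE k L := algebraMap L (EE k L) (t ^ v i1) with hτ
    have hτ0 : τ ≠ 0 := (map_ne_zero _).2 (zpow_ne_zero _ ht)
    have hDτ : D τ = 0 := D.map_algebraMap _
    set x : EE k L := wE / τ - 1 with hx
    have hxv : x = 0 ∨ 0 < P0.ord x := by
      refine hP0v x (fun l => w l i1 / t ^ v i1 - 1) ?_ fun l => ?_
      · have h1 : (τ : Om L) = Om.mk fun _ => t ^ v i1 := rfl
        have h2 : (x : Om L) = (wE : Om L) / (τ : Om L) - 1 := rfl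
        rw [h2, hwE, h1]
        have h3 : Om.mk (fun l => w l i1) / Om.mk (fun _ => t ^ v i1) =
            Om.mk fun l => w l i1 / t ^ v i1 := by
          have h4 : Om.mk (fun _ : ℕ => t ^ v i1) ≠ 0 :=
            Om.mk_ne_zero fun _ => zpow_ne_zero _ ht
          rw [div_eq_iff h4, Om.mk_mul]
          congr 1
          funext l
          exact (div_mul_cancel₀ _ (zpow_ne_zero _ ht)).symm
        rw [h3, ← Om.mk_one, Om.mk_sub]
      · exact (hMn _ (hwM l) i1).resolve_left (hw0 l)
    have hDτi : D (wE / τ) = D wE / τ := by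
      rw [Derivation.leibniz_div, hDτ]
      simp only [smul_eq_mul, mul_zero, sub_zero]
      field_simp
    have hDx : D x = (1 + x) * algebraMap (Om k) (EE k L) (D0 ω' / ω') := by
      rw [hx, map_sub, D.map_one_eq_zero, sub_zero, hDτi, hDwE]
      ring
    by_cases hρ : D0 ω' = 0
    · apply hDw
      rw [hDwE, hρ, zero_div, map_zero, mul_zero]
    · have hρ0 : D0 ω' / ω' ≠ 0 := div_ne_zero hρ hω'0
      have hρE : algebraMap (Om k) (EE k L) (D0 ω' / ω') ≠ 0 := (map_ne_zero _).2 hρ0
      rcases hxv with h | h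
      · rw [h, map_zero, add_zero, one_mul] at hDx
        exact hρE hDx.symm
      · have hx0 : x ≠ 0 := by
          rintro h0
          rw [h0, P0.ord_zero] at h
          exact lt_irrefl _ h
        have h1x : (1 : EE k L) + x ≠ 0 := by
          intro h2
          have h3 : x = -1 := by linear_combination h2
          rw [h3, P0.ord_neg, P0.ord_one] at h
          exact lt_irrefl _ h
        have hord1 : P0.ord (1 + x) ≤ 0 := by
          by_contra hcon
          push Not at hcon
          have h2 : (1 : EE k L) = (1 + x) + (-x) := by ring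
          have h3 := P0.ord_add h1x (neg_ne_zero.2 hx0) (by rw [← h2]; exact one_ne_zero)
          rw [← h2, P0.ord_one, P0.ord_neg] at h3
          have h4 : 0 < min (P0.ord (1 + x)) (P0.ord x) := lt_min hcon h
          omega
        have hDx0 : D x ≠ 0 := by
          rw [hDx]
          exact mul_ne_zero h1x hρE
        have h4 := hregC P0 hP0 x hDx0
        rw [hDx, P0.ord_mul h1x hρE, P0.ord_const hρ0] at h4
        omega

end

theorem main_RIG : S_RIG := by
  classical
  intro k L _ _ _ _ _ _ n m ι _ F hm hdiv hcard j0 B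
  obtain ⟨p0, -⟩ := exists_place (k := k) (K := L)
  obtain ⟨t, ht0, ht1⟩ := p0.surj
  have hfin := fun v : Fin (n + 1) → ℤ => rig_norm (k := k) F hm hdiv hcard j0 B p0 ht0 v
  let Box : Finset (Fin (n + 1) → ℤ) := Fintype.piFinset fun _ => Finset.Icc (-B) B
  refine ⟨Box.biUnion fun v => (hfin v).toFinset, fun z hz1 hzF hzO hzB => ?_⟩
  have hB0 : 0 ≤ B := (hgt_nonneg _).trans (hzB j0)
  -- the leading coefficients
  have hex : ∀ i, ∃ a : k, a ≠ 0 ∧ (z i = 0 ∨ Ge p0 1 (z i * algebraMap k L a /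
      t ^ (if z i = 0 then 0 else p0.ord (z i)) - 1)) := by
    intro i
    by_cases hi : z i = 0
    · exact ⟨1, one_ne_zero, Or.inl hi⟩
    · obtain ⟨a, ha, h⟩ := exists_lead p0 ht0 ht1 hi
      refine ⟨a, ha, Or.inr ?_⟩
      rw [if_neg hi]
      exact h
  choose a ha0 ha using hex
  let v : Fin (n + 1) → ℤ := fun i => if z i = 0 then 0 else p0.ord (z i)
  have hv : v ∈ Box := by
    rw [Fintype.mem_piFinset]
    intro i
    rw [Finset.mem_Icc]
    simp only [v]
    split_ifs with h
    · exact ⟨by omega, hB0⟩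
    · have h1 := neg_ord_le p0 (z i)
      have h2 := neg_ord_le p0 (z i)⁻¹
      rw [hgt_inv, p0.ord_inv] at h2
      have h3 := hzB i
      constructor <;> omega
  let y : Fin (n + 1) → L := fun i => z i * algebraMap k L (a i)
  have hya : ∀ i, y i * algebraMap k L (a i)⁻¹ = z i := by
    intro i
    have h1 : algebraMap k L (a i) ≠ 0 := (map_ne_zero _).2 (ha0 i)
    simp only [y]
    rw [map_inv₀, mul_assoc, mul_inv_cancel₀ h1, mul_one]
  have hyz : (fun i => y i * algebraMap k L (a i)⁻¹) = z := funext hya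
  refine ⟨y, ?_, fun i => (a i)⁻¹, fun i => inv_ne_zero (ha0 i), fun i => (hya i).symm⟩
  rw [Finset.mem_biUnion]
  refine ⟨v, hv, ?_⟩
  rw [Set.Finite.mem_toFinset]
  refine ⟨⟨fun i => (a i)⁻¹, fun i => inv_ne_zero (ha0 i), ?_, ?_, ?_, ?_⟩, fun i => ?_⟩
  · rw [hya, hz1]
  · rw [hyz]; exact hzF
  · rw [hyz]; exact hzO
  · intro i
    rw [hya]; exact hzB i
  · rcases ha i with h | h
    · left
      simp only [y]
      rw [h, zero_mul]
    · right; exact h

end Pool.Agent.N126.IS
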