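import Pool.Agent.N126.IS.Stm2

/-!
Statements of the independent parts: Kummer coverings of arbitrary projective varieties, ramified
over generic hyperplane sections.
-/

set_option autoImplicit false

open Pool.Agent.W602.GT LinearAlgebra.Projectivization MvPolynomial

namespace Pool.Agent.N126.IS

variable {n N : ℕ} {ι0 : Type}

/-- The projective variety `V = {H = 0}` is of dimension at most `d`: among the coordinates of every
zero of `H` over any field there are at most `d + 1` on which the others depend algebraically. -/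
def DimLE (k0 : Type) [Field k0] (H : ι0 → MvPolynomial (Fin (n + 1)) k0) (d : ℕ) : Prop :=
  ∀ (Ω : Type) [Field Ω] [Algebra k0 Ω] (v : Fin (n + 1) → Ω), (∀ i, aeval v (H i) = 0) →
    ∃ B : Finset (Fin (n + 1)), B.card ≤ d + 1 ∧
      ∀ i, IsAlgebraic (IntermediateField.adjoin k0 (v '' (B : Set (Fin (n + 1))))) (v i)

/-- The vectors `l v`, where `v` is a zero of `H`. -/
def LinIm {k0 K : Type} [Field k0] [Field K] [Algebra k0 K]
    (H : ι0 → MvPolynomial (Fin (n + 1)) k0) (l : Fin (N + 1) → Fin (n + 1) → K) :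
    Set (Fin (N + 1) → K) :=
  {y | ∃ v : Fin (n + 1) → K, (∀ i, aeval v (H i) = 0) ∧ ∀ j, y j = ∑ i, l j i * v i}

/-- CNT2: two points. -/
def S_CNT2 : Prop := ∀ (k0 k : Type) [Field k0] [Field k] [Algebra k0 k] (n N d : ℕ)
    (ι0 : Type) (H : ι0 → MvPolynomial (Fin (n + 1)) k0), DimLE k0 H d → 2 * d + 1 ≤ N →
    ∀ g : Fin (2 * N + 3) → Fin (N + 1) → Fin (n + 1) → k,
    AlgebraicIndependent k0
      (fun p : Fin (2 * N + 3) × Fin (N + 1) × Fin (n + 1) => g p.1 p.2.1 p.2.2) →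
    ∀ (μ : Fin (2 * N + 3) → Fin (N + 1) → k) (b b' : Fin (N + 1) → k)
      (v v' : Fin (2 * N + 3) → Fin (n + 1) → k), (∀ j i, μ j i ≠ 0) → (∀ j, μ j 0 = 1) →
      LinearIndependent k ![b, b'] → (∀ j i, aeval (v j) (H i) = 0) →
      (∀ j i, aeval (v' j) (H i) = 0) →
      ¬ ∀ j a, (∑ i, g j a i * v j i = μ j a * b a) ∧ (∑ i, g j a i * v' j i = μ j a * b' a)

/-- FAM2: one-parameter families of linear forms. -/
def S_FAM2 : Prop := ∀ (k0 k K : Type) [Field k0] [CharZero k0] [Field k] [IsAlgClosed k]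
    [Algebra k0 k] [Field K] [IsAlgClosed K] [Algebra k K] [Algebra k0 K] [IsScalarTower k0 k K]
    (s : K), Transcendental k s → Algebra.trdeg k K = 1 → ∀ (n N d m : ℕ) (ι0 : Type)
    (H : ι0 → MvPolynomial (Fin (n + 1)) k0), (∀ i, IsForm (H i)) → DimLE k0 H d →
    2 * d + 1 ≤ N → 0 < m → ∀ P : Fin (2 * N + 3) → Fin (N + 1) → Fin (n + 1) → k,
    AlgebraicIndependent k0
      (fun p : Fin (2 * N + 3) × Fin (N + 1) × Fin (n + 1) => P p.1 p.2.1 p.2.2) →
    FinTrans k {x : Fin (N + 1) → K | x ≠ 0 ∧ (fun j => x j ^ m) ∈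
      LinIm H fun a i => ∑ r : Fin (2 * N + 3), s ^ (r : ℕ) * algebraMap k K (P r a i)}

/-- GEN2: generic linear forms. -/
def S_GEN2 : Prop := ∀ (K : Type) [Field K] [IsAlgClosed K] [CharZero K] (k0 : Type) [Field k0]
    [Algebra k0 K] (n N d m D : ℕ) (ι0 ι : Type) (H : ι0 → MvPolynomial (Fin (n + 1)) k0)
    (l : Fin (N + 1) → Fin (n + 1) → K) (T : Finset (Fin (N + 1) →₀ ℕ))
    (F : ι → MvPolynomial (Fin (N + 1)) K), (∀ i, IsForm (H i)) → DimLE k0 H d →
    2 * d + 1 ≤ N →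
    AlgebraicIndependent k0 (fun p : Fin (N + 1) × Fin (n + 1) => l p.1 p.2) →
    (∀ i, (F i).IsHomogeneous D) → (∀ i, (F i).support ⊆ T) →
    (∀ (Ω : Type) [Field Ω] [Algebra K Ω] (y : Fin (N + 1) → Ω), (∀ i, aeval y (F i) = 0) →
      ∃ v : Fin (n + 1) → Ω, (∀ i, aeval v (map (algebraMap k0 K) (H i)) = 0) ∧
        ∀ j, y j = ∑ i, algebraMap K Ω (l j i) * v i) →
    bound N T.card < m → FinPts k0 (Cone fun i => expand m (F i))

/-- EQK: equations of the image of a variety under a generic linear map. -/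
def S_EQK : Prop := ∀ (K : Type) [Field K] (k0 : Type) [Field k0] [Algebra k0 K] (n N D : ℕ)
    (ι0 : Type) (H : ι0 → MvPolynomial (Fin (n + 1)) k0) (l : Fin (N + 1) → Fin (n + 1) → K),
    n ≤ N → 0 < D → (∀ i, (H i).IsHomogeneous D) →
    AlgebraicIndependent k0 (fun p : Fin (N + 1) × Fin (n + 1) => l p.1 p.2) →
    ∃ (ι : Type) (F : ι → MvPolynomial (Fin (N + 1)) K), (∀ i, (F i).IsHomogeneous D) ∧
      ∀ (Ω : Type) [Field Ω] [Algebra K Ω] (y : Fin (N + 1) → Ω), (∀ i, aeval y (F i) = 0) ↔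
        ∃ v : Fin (n + 1) → Ω, (∀ i, aeval v (map (algebraMap k0 K) (H i)) = 0) ∧
          ∀ j, y j = ∑ i, algebraMap K Ω (l j i) * v i

end Pool.Agent.N126.IS
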